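import Pool.Agent.H.MP_64d93e_gt.PartB

open Module Submodule

namespace Pool.Agent.H.MP_64d93e_gt

variable {n : ℕ}

theorem isDer_zero (μ : Br n) : IsDer μ 0 := by
  intro x y
  simp

/-- The scalar curvature of a left-invariant metric on a solvable Lie group is nonpositive. -/
theorem scal_nonpos {μ : Br n} (hμ : μ ∈ SolvBr n) : scal μ ≤ 0 := by
  have h : IsLie μ := hμ.1
  obtain ⟨v, hv1, -⟩ := exists_onb_flag hμ (isDer_zero μ)
  set C : Fin n → Fin n → Fin n → ℝ := fun i j k => ‖inner ℂ (v k) (brC μ (v i) (v j))‖ ^ 2 with hC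
  have hC0 : ∀ i j k, 0 ≤ C i j k := fun i j k => by positivity
  -- trace of the moment map
  have hM : ∑ i, Mf μ (stdE i) (stdE i) = -(1 / 4) * ∑ i, ∑ j, ∑ k, C i j k := by
    have e1 : ∑ y : Fin n, ∑ i : Fin n, ∑ j : Fin n, inner ℝ (μ (stdE i) (stdE j)) (stdE y) *
        inner ℝ (μ (stdE i) (stdE j)) (stdE y) = ∑ i : Fin n, ∑ j : Fin n,
        inner ℝ (μ (stdE i) (stdE j)) (μ (stdE i) (stdE j)) := by
      rw [Finset.sum_comm]
      apply Finset.sum_congr rfl; intro i _
      rw [Finset.sum_comm]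
      apply Finset.sum_congr rfl; intro j _
      rw [← inner_eq_sum]
    have e2 : ∑ i : Fin n, ∑ j : Fin n, inner ℝ (μ (stdE i) (stdE j)) (μ (stdE i) (stdE j)) =
        ∑ i, ∑ j, ∑ k, C i j k := by
      have f1 : ∀ i j : Fin n, inner ℝ (μ (stdE i) (stdE j)) (μ (stdE i) (stdE j)) =
          ‖brC μ (cB n i) (cB n j)‖ ^ 2 := by
        intro i j
        rw [cB_apply, cB_apply, ← toC_stdE, ← toC_stdE, brC_toC_toC]
        have := norm_sq_decomp (μ (stdE i) (stdE j)) 0
        rw [toC_zero, smul_zero, add_zero, norm_zero] at this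
        rw [this, real_inner_self_eq_norm_sq]; ring
      have f2 : ∀ i, ∑ j, ‖brC μ (cB n i) (cB n j)‖ ^ 2 = ∑ j, ‖brC μ (cB n i) (v j)‖ ^ 2 :=
        fun i => hs_invariance _ _ _
      have f3 : ∀ j, ∑ i, ‖brC μ (cB n i) (v j)‖ ^ 2 = ∑ i, ‖brC μ (v i) (v j)‖ ^ 2 :=
        fun j => hs_invariance ((brC μ).flip (v j)) _ _
      rw [Finset.sum_congr rfl fun i _ => Finset.sum_congr rfl fun j _ => f1 i j,
        Finset.sum_congr rfl fun i _ => f2 i, Finset.sum_comm, Finset.sum_congr rfl fun j _ => f3 j,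
        Finset.sum_comm]
      apply Finset.sum_congr rfl; intro i _
      apply Finset.sum_congr rfl; intro j _
      exact (v.sum_sq_norm_inner_right _).symm
    simp only [Mf, Finset.sum_add_distrib, ← Finset.mul_sum]
    rw [e1, e2]
    ring
  have hB : - ∑ k, ∑ i, C i k k ≤ ∑ i, Bf μ (stdE i) (stdE i) := by
    have e1 : ∀ i : Fin n, Bf μ (stdE i) (stdE i) =
        ∑ k, ((inner ℂ (v k) (brC μ (cB n i) (v k))) ^ 2).re := by
      intro i
      have a2 : ∀ k, linC (μ (stdE i)) (v k) ∈ span ℂ (v.toBasis '' Set.Iic k) := by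
        intro k
        rw [← brC_toC]
        exact hv1 _ k
      rw [Bf, ← trace_re (μ (stdE i) ∘ₗ μ (stdE i)) v]
      apply Finset.sum_congr rfl; intro k _
      rw [linC_comp, LinearMap.comp_apply, tri_mul a2 a2, ← brC_toC, toC_stdE, cB_apply, sq]
    have e2 : ∀ k, ∑ i, ‖inner ℂ (v k) (brC μ (cB n i) (v k))‖ ^ 2 = ∑ i, C i k k := by
      intro k
      exact functional_invariance ((innerₛₗ ℂ (v k)) ∘ₗ (brC μ).flip (v k)) (cB n) v
    have e3 : ∑ i : Fin n, Bf μ (stdE i) (stdE i) =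
        ∑ k, ∑ i : Fin n, ((inner ℂ (v k) (brC μ (cB n i) (v k))) ^ 2).re := by
      rw [Finset.sum_congr rfl fun i _ => e1 i, Finset.sum_comm]
    rw [e3, ← Finset.sum_neg_distrib]
    apply Finset.sum_le_sum; intro k _
    rw [← e2, ← Finset.sum_neg_distrib]
    apply Finset.sum_le_sum; intro i _
    have g1 : |((inner ℂ (v k) (brC μ (cB n i) (v k))) ^ 2).re| ≤ ‖(inner ℂ (v k) (brC μ (cB n i) (v k))) ^ 2‖ :=
      Complex.abs_re_le_norm _
    rw [norm_pow] at g1
    exact (abs_le.1 g1).1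
  have hCC : 2 * ∑ k, ∑ i, C i k k ≤ ∑ i, ∑ j, ∑ k, C i j k := by
    have r1 : ∑ i, ∑ j, ∑ k, C i j k = ∑ k, ∑ i, ∑ j, C i j k := by
      rw [Finset.sum_congr rfl fun i _ => Finset.sum_comm, Finset.sum_comm]
    rw [r1, Finset.mul_sum]
    apply Finset.sum_le_sum; intro k _
    have hanti : ∀ i j, C i j k = C j i k := by
      intro i j
      simp only [hC]
      rw [brC_anti h, inner_neg_right, norm_neg]
    have hkk : C k k k = 0 := by
      simp only [hC]
      have : brC μ (v k) (v k) = 0 := by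
        have h1 := brC_anti h (v k) (v k)
        have h2 : (2 : ℂ) • brC μ (v k) (v k) = 0 := by
          rw [two_smul]
          nth_rewrite 1 [h1]
          rw [neg_add_cancel]
        exact (smul_eq_zero.1 h2).resolve_left two_ne_zero
      rw [this]; simp
    have s1 : ∑ j, C k j k = ∑ i, C i k k := Finset.sum_congr rfl fun i _ => hanti k i
    rw [← Finset.add_sum_erase Finset.univ (fun i => ∑ j, C i j k) (Finset.mem_univ k), s1]
    have s2 : ∑ i, C i k k = ∑ i ∈ Finset.univ.erase k, C i k k := by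
      rw [← Finset.add_sum_erase Finset.univ (fun i => C i k k) (Finset.mem_univ k), hkk, zero_add]
    have s3 : ∑ i ∈ Finset.univ.erase k, C i k k ≤ ∑ i ∈ Finset.univ.erase k, ∑ j, C i j k := by
      apply Finset.sum_le_sum; intro i _
      exact Finset.single_le_sum (f := fun j => C i j k) (fun j _ => hC0 i j k) (Finset.mem_univ k)
    rw [← s2] at s3
    linarith
  rw [scal_eq h]
  have hH : 0 ≤ inner ℝ (Hv μ) (Hv μ) := real_inner_self_nonneg
  have hR : ∑ i, Rs μ (stdE i) (stdE i) = ∑ i, Mf μ (stdE i) (stdE i) - 1 / 2 * ∑ i, Bf μ (stdE i) (stdE i) := by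
    simp only [Rs, Finset.sum_sub_distrib, Finset.mul_sum]
  rw [hR, hM]
  linarith

theorem act_apply (e : RV n ≃ₗ[ℝ] RV n) (μ : Br n) (x y : RV n) :
    act e μ x y = e (μ (e.symm x) (e.symm y)) := rfl

theorem act_lie (e : RV n ≃ₗ[ℝ] RV n) {μ : Br n} (h : IsLie μ) : IsLie (act e μ) := by
  constructor
  · intro x
    rw [act_apply, h.1, map_zero]
  · intro x y z
    simp only [act_apply, LinearEquiv.symm_apply_apply, ← map_add]
    rw [h.2, map_zero]

theorem derSeries_act (e : RV n ≃ₗ[ℝ] RV n) (μ : Br n) (k : ℕ) :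
    derSeries (act e μ) k = (derSeries μ k).map e.toLinearMap := by
  induction k with
  | zero =>
    simp only [derSeries]
    rw [Submodule.map_top, LinearMap.range_eq_top.2 e.surjective]
  | succ k ih =>
    simp only [derSeries]
    rw [Submodule.map_span, ih]
    congr 1
    ext z
    constructor
    · rintro ⟨x, ⟨a, ha, rfl⟩, y, ⟨b, hb, rfl⟩, rfl⟩
      refine ⟨μ a b, ⟨a, ha, b, hb, rfl⟩, ?_⟩
      simp [act_apply]
    · rintro ⟨_, ⟨a, ha, b, hb, rfl⟩, rfl⟩
      refine ⟨e a, ⟨a, ha, rfl⟩, e b, ⟨b, hb, rfl⟩, ?_⟩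
      simp [act_apply]

theorem act_solv (e : RV n ≃ₗ[ℝ] RV n) {μ : Br n} (h : μ ∈ SolvBr n) : act e μ ∈ SolvBr n := by
  obtain ⟨h1, k, hk⟩ := h
  refine ⟨act_lie e h1, k, ?_⟩
  rw [derSeries_act, hk, Submodule.map_bot]

theorem trace_conj (e : RV n ≃ₗ[ℝ] RV n) (A : RV n →ₗ[ℝ] RV n) :
    LinearMap.trace ℝ (RV n) (e.toLinearMap ∘ₗ A ∘ₗ e.symm.toLinearMap) = LinearMap.trace ℝ (RV n) A := by
  rw [LinearMap.trace_comp_comm', LinearMap.comp_assoc]
  congr 1
  ext1 x
  simp

/-- **Solvsolitons maximize the Ricci pinching functional.** -/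
theorem solvsoliton_max {μ : Br n} (hs : IsSolvsoliton μ) (hne : ricSq μ ≠ 0)
    (e : RV n ≃ₗ[ℝ] RV n) : pinch (act e μ) ≤ pinch μ := by
  obtain ⟨hμ, c, D, hD, hric⟩ := hs
  have h : IsLie μ := hμ.1
  have hsc := scal_nonpos hμ
  have hq := sol_ricSq h hD hric
  have hq0 : 0 ≤ ricSq μ := Finset.sum_nonneg fun _ _ => Finset.sum_nonneg fun _ _ => sq_nonneg _
  have hqpos : 0 < ricSq μ := lt_of_le_of_ne hq0 (Ne.symm hne)
  have hcs : 0 < c * scal μ := by rw [← hq]; exact hqpos
  have hscneg : scal μ < 0 := by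
    rcases hsc.eq_or_lt with h0 | h0
    · rw [h0, mul_zero] at hcs; exact absurd hcs (lt_irrefl _)
    · exact h0
  have hc : c < 0 := by
    by_contra hc
    push Not at hc
    have := mul_nonpos_of_nonneg_of_nonpos hc hsc
    linarith
  have hpinch : pinch μ = scal μ / c := by
    rw [pinch, hq]
    field_simp
  have hμ' := act_solv e hμ
  let D' : RV n →ₗ[ℝ] RV n := e.toLinearMap ∘ₗ D ∘ₗ e.symm.toLinearMap
  have hD' : IsDer (act e μ) D' := by
    intro x y
    simp only [D', LinearMap.comp_apply, act_apply, LinearEquiv.coe_coe, LinearEquiv.symm_apply_apply]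
    rw [hD, map_add]
  have htrD' : LinearMap.trace ℝ (RV n) D' = LinearMap.trace ℝ (RV n) D := trace_conj e D
  have htrDD' : LinearMap.trace ℝ (RV n) (D' ∘ₗ D') = LinearMap.trace ℝ (RV n) (D ∘ₗ D) := by
    rw [← trace_conj e (D ∘ₗ D)]
    congr 1
    ext1 x
    simp [D']
  have htrA : ∀ x, LinearMap.trace ℝ (RV n) (D' ∘ₗ act e μ x) = 0 := by
    intro x
    rw [← sol_trace_D_ad h hD hric (e.symm x), ← trace_conj e (D ∘ₗ μ (e.symm x))]
    congr 1
    ext1 y
    simp [D', act_apply]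
  have hreal : ∀ (z : ℂ) (x : EC n), x ≠ 0 → linC D' x = z • x → z.im = 0 := by
    intro z x hx hz
    set y : EC n := linC e.symm.toLinearMap x with hy
    have hyx : linC e.toLinearMap y = x := by
      rw [hy, ← LinearMap.comp_apply, ← linC_comp]
      have : e.toLinearMap ∘ₗ e.symm.toLinearMap = LinearMap.id := by ext1 u; simp
      rw [this]
      have h2 : linC (LinearMap.id : RV n →ₗ[ℝ] RV n) = LinearMap.id := by
        apply ext_real; intro u; rw [linC_toC]; rfl
      rw [h2]; rfl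
    have hy0 : y ≠ 0 := by
      intro h0
      rw [h0, map_zero] at hyx
      exact hx hyx.symm
    have hDy : linC D y = z • y := by
      have e1 : linC D y = linC e.symm.toLinearMap (linC D' x) := by
        rw [hy, ← LinearMap.comp_apply, ← linC_comp, ← LinearMap.comp_apply, ← linC_comp]
        congr 2
        ext1 u
        simp [D']
      rw [e1, hz, map_smul]
    have him : (inner ℂ y (linC D y)).im = 0 := by
      conv_lhs => rw [← decomp y]
      simp only [map_add, map_smul, linC_toC, inner_add_left, inner_add_right, inner_smul_left,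
        inner_smul_right, inner_toC]
      have := sol_symm h hric (reV y) (imV y)
      rw [real_inner_comm (D (reV y)) (imV y)] at *
      simp
      linarith
    rw [hDy, inner_smul_right] at him
    have hn : inner ℂ y y = ((‖y‖ ^ 2 : ℝ) : ℂ) := by
      rw [inner_self_eq_norm_sq_to_K]; simp
    rw [hn, Complex.mul_im, Complex.ofReal_im, Complex.ofReal_re, mul_zero, zero_add] at him
    have hyn : ‖y‖ ^ 2 ≠ 0 := by positivity
    exact (mul_eq_zero.1 him).resolve_right hyn
  have hmain := mainIneq hμ' hD' hreal htrA (-1 / c)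
  rw [htrD', htrDD', sol_trace_D_sq h hD hric] at hmain
  have hval : (n - 2 * (-1 / c) * LinearMap.trace ℝ (RV n) D + (-1 / c) ^ 2 *
      (-c * LinearMap.trace ℝ (RV n) D)) = scal μ / c := by
    have hc0 : c ≠ 0 := hc.ne
    rw [sol_scal h hric]
    field_simp
    ring
  rw [hval] at hmain
  rw [hpinch, pinch]
  have hpos : 0 < scal μ / c := div_pos_of_neg_of_neg hscneg hc
  have hsg := scal_nonpos hμ'
  have hqg0 : 0 ≤ ricSq (act e μ) := Finset.sum_nonneg fun _ _ => Finset.sum_nonneg fun _ _ => sq_nonneg _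
  rcases hqg0.eq_or_lt with h0 | h0
  · rw [← h0, div_zero]; exact hpos.le
  · rw [div_le_iff₀ h0]
    have h1 : 0 ≤ - scal (act e μ) := by linarith
    have h2 := pow_le_pow_left₀ h1 hmain 2
    rw [mul_pow, Real.sq_sqrt hpos.le, Real.sq_sqrt hqg0, neg_sq] at h2
    exact h2

end Pool.Agent.H.MP_64d93e_gt
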