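import Pool.Agent.H.MP_64d93e_gt.G2b
import Pool.Agent.H.MP_64d93e_gt.General

namespace Pool.Agent.H.MP_64d93e_gt

theorem scal_cc {μ : Br 7} (h : IsLie μ) : scal μ = scalC (cc μ) := by
  rw [scal_eq h, scalC]
  congr 1
  · have e1 : ∑ y : Fin 7, ∑ i : Fin 7, ∑ j : Fin 7, inner ℝ (μ (stdE i) (stdE j)) (stdE y) *
        inner ℝ (μ (stdE i) (stdE j)) (stdE y) = ∑ i : Fin 7, ∑ j : Fin 7, ∑ k : Fin 7,
        cc μ i j k * cc μ i j k := by
      rw [Finset.sum_comm]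
      apply Finset.sum_congr rfl; intro i _
      rw [Finset.sum_comm]
      apply Finset.sum_congr rfl; intro j _
      apply Finset.sum_congr rfl; intro k _
      rw [inner_stdE, cc]
    have e2 : ∀ i j : Fin 7, inner ℝ (μ (stdE i) (stdE j)) (μ (stdE i) (stdE j)) =
        ∑ k : Fin 7, cc μ i j k * cc μ i j k := by
      intro i j
      rw [inner_eq_sum]
      simp only [inner_stdE, cc]
    have e3 : ∀ i : Fin 7, Bf μ (stdE i) (stdE i) = ∑ j : Fin 7, ∑ k : Fin 7,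
        cc μ i j k * cc μ i k j := by
      intro i
      rw [Bf, trace_eq]
      apply Finset.sum_congr rfl; intro j _
      rw [LinearMap.comp_apply, inner_stdE, mu_expand]
      rfl
    simp only [Rs, Mf, Finset.sum_add_distrib, Finset.sum_sub_distrib, ← Finset.mul_sum]
    rw [e1]
    simp only [e2, e3]
    ring
  · rw [inner_eq_sum]
    apply Finset.sum_congr rfl; intro i _
    rw [inner_Hv, trAd_eq]
    simp only [inner_stdE, cc]

theorem jac_cc {μ : Br 7} (h : IsLie μ) (i j k l : Fin 7) : jacC (cc μ) i j k l = 0 := by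
  have h1 := h.2 (stdE i) (stdE j) (stdE k)
  have h2 := congrArg (fun x : RV 7 => x l) h1
  simp only [PiLp.add_apply, PiLp.zero_apply] at h2
  rw [mu_expand μ i l (μ (stdE j) (stdE k)), mu_expand μ j l (μ (stdE k) (stdE i)),
    mu_expand μ k l (μ (stdE i) (stdE j))] at h2
  rw [jacC]
  simp only [Finset.sum_add_distrib]
  simp only [cc] at h2 ⊢
  exact h2

/-- A closed structure with vanishing scalar curvature is torsion-free. -/
theorem tf_of_scal_zero {μ : Br 7} (hμ : IsLie μ) (h : ∀ v : Fin 4 → RV 7, ceD μ phi v = 0)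
    (hs : scal μ = 0) (v : Fin 5 → RV 7) : ceD μ (hodge3 phi) v = 0 := by
  have hb := bryant (cc μ) (cc_anti hμ) (jac_cc hμ)
    (closed_0123 h)
    (closed_0124 h)
    (closed_0125 h)
    (closed_0126 h)
    (closed_0134 h)
    (closed_0135 h)
    (closed_0136 h)
    (closed_0145 h)
    (closed_0146 h)
    (closed_0156 h)
    (closed_0234 h)
    (closed_0235 h)
    (closed_0236 h)
    (closed_0245 h)
    (closed_0246 h)
    (closed_0256 h)
    (closed_0345 h)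
    (closed_0346 h)
    (closed_0356 h)
    (closed_0456 h)
    (closed_1234 h)
    (closed_1235 h)
    (closed_1236 h)
    (closed_1245 h)
    (closed_1246 h)
    (closed_1256 h)
    (closed_1345 h)
    (closed_1346 h)
    (closed_1356 h)
    (closed_1456 h)
    (closed_2345 h)
    (closed_2346 h)
    (closed_2356 h)
    (closed_2456 h)
    (closed_3456 h)
  rw [← scal_cc hμ, hs] at hb
  have p01234 := sq_nonneg (u01234 (cc μ))
  have p01235 := sq_nonneg (u01235 (cc μ))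
  have p01236 := sq_nonneg (u01236 (cc μ))
  have p01245 := sq_nonneg (u01245 (cc μ))
  have p01246 := sq_nonneg (u01246 (cc μ))
  have p01256 := sq_nonneg (u01256 (cc μ))
  have p01345 := sq_nonneg (u01345 (cc μ))
  have p01346 := sq_nonneg (u01346 (cc μ))
  have p01356 := sq_nonneg (u01356 (cc μ))
  have p01456 := sq_nonneg (u01456 (cc μ))
  have p02345 := sq_nonneg (u02345 (cc μ))
  have p02346 := sq_nonneg (u02346 (cc μ))
  have p02356 := sq_nonneg (u02356 (cc μ))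
  have p02456 := sq_nonneg (u02456 (cc μ))
  have p03456 := sq_nonneg (u03456 (cc μ))
  have p12345 := sq_nonneg (u12345 (cc μ))
  have p12346 := sq_nonneg (u12346 (cc μ))
  have p12356 := sq_nonneg (u12356 (cc μ))
  have p12456 := sq_nonneg (u12456 (cc μ))
  have p13456 := sq_nonneg (u13456 (cc μ))
  have p23456 := sq_nonneg (u23456 (cc μ))
  rw [ceD_hodge3_phi]
  apply F_zero hμ
  intro i j k l m ht
  simp only [L21, List.mem_cons, Prod.mk.injEq, List.not_mem_nil, or_false] at ht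
  have hz : ∀ x : ℝ, x ^ 2 = 0 → x = 0 := fun x hx => pow_eq_zero_iff (two_ne_zero) |>.1 hx
  rcases ht with ⟨rfl, rfl, rfl, rfl, rfl⟩ | ⟨rfl, rfl, rfl, rfl, rfl⟩ | ⟨rfl, rfl, rfl, rfl, rfl⟩ | ⟨rfl, rfl, rfl, rfl, rfl⟩ | ⟨rfl, rfl, rfl, rfl, rfl⟩ | ⟨rfl, rfl, rfl, rfl, rfl⟩ | ⟨rfl, rfl, rfl, rfl, rfl⟩ | ⟨rfl, rfl, rfl, rfl, rfl⟩ | ⟨rfl, rfl, rfl, rfl, rfl⟩ | ⟨rfl, rfl, rfl, rfl, rfl⟩ | ⟨rfl, rfl, rfl, rfl, rfl⟩ | ⟨rfl, rfl, rfl, rfl, rfl⟩ | ⟨rfl, rfl, rfl, rfl, rfl⟩ | ⟨rfl, rfl, rfl, rfl, rfl⟩ | ⟨rfl, rfl, rfl, rfl, rfl⟩ | ⟨rfl, rfl, rfl, rfl, rfl⟩ | ⟨rfl, rfl, rfl, rfl, rfl⟩ | ⟨rfl, rfl, rfl, rfl, rfl⟩ | ⟨rfl, rfl, rfl, rfl, rfl⟩ | ⟨rfl, rfl, rfl, rfl, rfl⟩ | ⟨rfl, rfl, rfl, rfl, rfl⟩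
  · rw [F_01234]; apply hz; linarith
  · rw [F_01235]; apply hz; linarith
  · rw [F_01236]; apply hz; linarith
  · rw [F_01245]; apply hz; linarith
  · rw [F_01246]; apply hz; linarith
  · rw [F_01256]; apply hz; linarith
  · rw [F_01345]; apply hz; linarith
  · rw [F_01346]; apply hz; linarith
  · rw [F_01356]; apply hz; linarith
  · rw [F_01456]; apply hz; linarith
  · rw [F_02345]; apply hz; linarith
  · rw [F_02346]; apply hz; linarith
  · rw [F_02356]; apply hz; linarith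
  · rw [F_02456]; apply hz; linarith
  · rw [F_03456]; apply hz; linarith
  · rw [F_12345]; apply hz; linarith
  · rw [F_12346]; apply hz; linarith
  · rw [F_12356]; apply hz; linarith
  · rw [F_12456]; apply hz; linarith
  · rw [F_13456]; apply hz; linarith
  · rw [F_23456]; apply hz; linarith

theorem ricSq_ne_zero {μ : Br 7} (hμ : μ ∈ Sclosed) (htf : μ ∉ Stf) : ricSq μ ≠ 0 := by
  intro h0
  apply htf
  refine ⟨hμ, tf_of_scal_zero hμ.1.1 hμ.2 ?_⟩
  have h1 : ∀ j ∈ Finset.univ, ∑ k, ric μ (stdE j) (stdE k) ^ 2 = 0 :=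
    (Finset.sum_eq_zero_iff_of_nonneg fun j _ => Finset.sum_nonneg fun k _ => sq_nonneg _).1 h0
  rw [scal]
  apply Finset.sum_eq_zero
  intro j hj
  have h2 := (Finset.sum_eq_zero_iff_of_nonneg fun k _ => sq_nonneg _).1 (h1 j hj) j hj
  exact pow_eq_zero_iff (two_ne_zero) |>.1 h2

theorem act_act (e e' : RV 7 ≃ₗ[ℝ] RV 7) (μ : Br 7) : act e (act e' μ) = act (e'.trans e) μ := by
  rfl

theorem act_symm_act (e : RV 7 ≃ₗ[ℝ] RV 7) (μ : Br 7) : act e.symm (act e μ) = μ := by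
  ext x y i
  simp [act]


end Pool.Agent.H.MP_64d93e_gt
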