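import Pool.Agent.H.MP_64d93e_gt.PDefs
import Pool.Agent.H.MP_64d93e_gt.G2c

namespace Pool.Agent.H.MP_64d93e_gt

variable {n : ℕ}

/-- the bracket on Euclidean space given by a bilinear map of coordinate vectors -/
noncomputable def up (μ : (Fin n → ℝ) → (Fin n → ℝ) → Fin n → ℝ) (hb : P.IsBilin μ) : Br n :=
  LinearMap.mk₂ ℝ (fun x y => WithLp.toLp 2 (μ x.ofLp y.ofLp))
    (fun x y z => by rw [WithLp.ofLp_add, hb.1]; rfl)
    (fun r x y => by rw [WithLp.ofLp_smul, hb.2.1]; rfl)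
    (fun x y z => by rw [WithLp.ofLp_add, hb.2.2.1]; rfl)
    (fun r x y => by rw [WithLp.ofLp_smul, hb.2.2.2]; rfl)

theorem up_apply (μ : (Fin n → ℝ) → (Fin n → ℝ) → Fin n → ℝ) (hb : P.IsBilin μ) (x y : RV n) :
    up μ hb x y = WithLp.toLp 2 (μ x.ofLp y.ofLp) := rfl

theorem stdE_toLp (i : Fin n) : (stdE i : RV n) = WithLp.toLp 2 (P.e i) := by
  ext j
  rw [stdE_apply]
  rfl

theorem inner_dot (x y : RV n) : inner ℝ x y = P.dot x.ofLp y.ofLp := by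
  rw [PiLp.inner_apply, P.dot]
  apply Finset.sum_congr rfl; intro i _
  rw [real_inner_eq_re_inner, real_inner_comm]
  simp

theorem dot_e (x : Fin n → ℝ) (k : Fin n) : P.dot x (P.e k) = x k := by
  simp [P.dot, P.e]

theorem nabla_up (μ : (Fin n → ℝ) → (Fin n → ℝ) → Fin n → ℝ) (hb : P.IsBilin μ) (x y : RV n) :
    nabla (up μ hb) x y = WithLp.toLp 2 (P.nabla μ x.ofLp y.ofLp) := by
  have key : ∀ k, inner ℝ (nabla (up μ hb) x y) (stdE k) = P.nabla μ x.ofLp y.ofLp k := by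
    intro k
    rw [inner_nabla]
    simp only [up_apply, inner_dot, stdE_toLp, P.nabla]
  ext k
  rw [← inner_stdE, key]

theorem riem_up (μ : (Fin n → ℝ) → (Fin n → ℝ) → Fin n → ℝ) (hb : P.IsBilin μ) (x y z : RV n) :
    riem (up μ hb) x y z = WithLp.toLp 2 (P.riem μ x.ofLp y.ofLp z.ofLp) := by
  rw [riem]
  simp only [nabla_up, up_apply]
  rfl

theorem ric_up (μ : (Fin n → ℝ) → (Fin n → ℝ) → Fin n → ℝ) (hb : P.IsBilin μ) (y z : RV n) :
    ric (up μ hb) y z = P.ric μ y.ofLp z.ofLp := by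
  rw [ric, P.ric]
  simp only [riem_up, inner_dot, stdE_toLp]

theorem ricOp_up (μ : (Fin n → ℝ) → (Fin n → ℝ) → Fin n → ℝ) (hb : P.IsBilin μ) (y : RV n) :
    ricOp (up μ hb) y = WithLp.toLp 2 (P.ricOp μ y.ofLp) := by
  have h : ∀ k, inner ℝ (ricOp (up μ hb) y) (stdE k) = ric (up μ hb) y (stdE k) := by
    intro k
    rw [ricOp, sum_inner]
    simp only [real_inner_smul_left, inner_stdE, stdE_apply]
    simp
  ext k
  rw [← inner_stdE, h, ric_up, stdE_toLp]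
  rfl

theorem scal_up (μ : (Fin n → ℝ) → (Fin n → ℝ) → Fin n → ℝ) (hb : P.IsBilin μ) :
    scal (up μ hb) = P.scal μ := by
  rw [scal, P.scal]
  simp only [ric_up, stdE_toLp]

theorem ricSq_up (μ : (Fin n → ℝ) → (Fin n → ℝ) → Fin n → ℝ) (hb : P.IsBilin μ) :
    ricSq (up μ hb) = P.ricSq μ := by
  rw [ricSq, P.ricSq]
  simp only [ric_up, stdE_toLp]

theorem pinch_up (μ : (Fin n → ℝ) → (Fin n → ℝ) → Fin n → ℝ) (hb : P.IsBilin μ) :
    pinch (up μ hb) = P.pinch μ := by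
  rw [pinch, P.pinch, scal_up, ricSq_up]

theorem isLie_up {μ : (Fin n → ℝ) → (Fin n → ℝ) → Fin n → ℝ} (h : P.IsLie μ) :
    IsLie (up μ h.1) := by
  refine ⟨fun x => ?_, fun x y z => ?_⟩
  · rw [up_apply, h.2.1]; rfl
  · simp only [up_apply]
    rw [← WithLp.toLp_add, ← WithLp.toLp_add, h.2.2]; rfl

/-- coordinates as a linear equivalence -/
noncomputable def co (n : ℕ) : (Fin n → ℝ) ≃ₗ[ℝ] RV n := (WithLp.linearEquiv 2 ℝ (Fin n → ℝ)).symm

theorem co_apply (x : Fin n → ℝ) : co n x = WithLp.toLp 2 x := rfl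

theorem co_symm_apply (x : RV n) : (co n).symm x = x.ofLp := rfl

theorem solv_up {μ : (Fin n → ℝ) → (Fin n → ℝ) → Fin n → ℝ} (h : μ ∈ P.Solv n) :
    up μ h.1.1 ∈ SolvBr n := by
  obtain ⟨hL, W, k, hW0, hW1, hWk⟩ := h
  refine ⟨isLie_up hL, k, ?_⟩
  have key : ∀ i, derSeries (up μ hL.1) i = (W i).map (co n).toLinearMap := by
    intro i
    induction i with
    | zero =>
      rw [derSeries, hW0, Submodule.map_top, LinearMap.range_eq_top.2 (co n).surjective]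
    | succ i ih =>
      rw [derSeries, hW1, Submodule.map_span, ih]
      congr 1
      ext z
      constructor
      · rintro ⟨x, ⟨a, ha, rfl⟩, y, ⟨b, hb, rfl⟩, rfl⟩
        exact ⟨μ a b, ⟨a, ha, b, hb, rfl⟩, rfl⟩
      · rintro ⟨_, ⟨a, ha, b, hb, rfl⟩, rfl⟩
        exact ⟨co n a, ⟨a, ha, rfl⟩, co n b, ⟨b, hb, rfl⟩, rfl⟩
  rw [key, hWk, Submodule.map_bot]

theorem solvsoliton_up {μ : (Fin n → ℝ) → (Fin n → ℝ) → Fin n → ℝ} (h : P.IsSolvsoliton μ) :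
    IsSolvsoliton (up μ h.1.1.1) := by
  obtain ⟨hS, c, D, hD, hric⟩ := h
  refine ⟨solv_up hS, c, (co n).toLinearMap ∘ₗ D ∘ₗ (co n).symm.toLinearMap, ?_, ?_⟩
  · intro x y
    simp only [up_apply, LinearMap.comp_apply, LinearEquiv.coe_coe, co_apply, co_symm_apply]
    rw [hD]; rfl
  · intro x
    rw [ricOp_up, hric]; rfl

theorem act_bilin (h : (Fin n → ℝ) ≃ₗ[ℝ] (Fin n → ℝ)) {μ : (Fin n → ℝ) → (Fin n → ℝ) → Fin n → ℝ}
    (hb : P.IsBilin μ) : P.IsBilin (P.act h μ) := by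
  refine ⟨fun x y z => ?_, fun r x y => ?_, fun x y z => ?_, fun r x y => ?_⟩
  · simp only [P.act, map_add, hb.1]
  · simp only [P.act, map_smul, hb.2.1]
  · simp only [P.act, map_add, hb.2.2.1]
  · simp only [P.act, map_smul, hb.2.2.2]

theorem up_act (h : (Fin n → ℝ) ≃ₗ[ℝ] (Fin n → ℝ)) {μ : (Fin n → ℝ) → (Fin n → ℝ) → Fin n → ℝ}
    (hb : P.IsBilin μ) : up (P.act h μ) (act_bilin h hb) =
      act (((co n).symm.trans h).trans (co n)) (up μ hb) := by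
  ext x y i
  rfl

theorem ceD_up {p : ℕ} {μ : (Fin n → ℝ) → (Fin n → ℝ) → Fin n → ℝ} (hb : P.IsBilin μ)
    (ω : (Fin (p + 1) → RV n) → ℝ) (ω' : (Fin (p + 1) → Fin n → ℝ) → ℝ)
    (hω : ∀ v, ω v = ω' (fun i => (v i).ofLp)) (v : Fin (p + 2) → RV n) :
    ceD (up μ hb) ω v = P.ceD μ ω' (fun i => (v i).ofLp) := by
  rw [ceD, P.ceD]
  apply Finset.sum_congr rfl; intro j _
  apply Finset.sum_congr rfl; intro i _
  rw [hω]
  congr 4
  ext k
  refine Fin.cases ?_ (fun k => ?_) k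
  · rfl
  · rfl

theorem phi_up (v : Fin 3 → RV 7) : phi v = P.phi (fun i => (v i).ofLp) := rfl

theorem hodge_up (v : Fin 4 → RV 7) : hodge3 phi v = P.hodge3 P.phi (fun i => (v i).ofLp) := by
  rw [hodge3, P.hodge3]
  refine congrArg (fun t : ℝ => 1 / 6 * t) ?_
  refine Finset.sum_congr rfl fun i _ => Finset.sum_congr rfl fun j _ =>
    Finset.sum_congr rfl fun k _ => ?_
  have h1 : phi ![stdE i, stdE j, stdE k] = P.phi ![P.e i, P.e j, P.e k] := by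
    rw [phi_up]
    refine congrArg P.phi ?_
    funext a
    fin_cases a <;> simp [stdE_toLp]
  have h2 : (Matrix.of fun a b : Fin 7 =>
      (![stdE i, stdE j, stdE k, v 0, v 1, v 2, v 3] : Fin 7 → RV 7) a b) =
      Matrix.of ![P.e i, P.e j, P.e k, (v 0).ofLp, (v 1).ofLp, (v 2).ofLp, (v 3).ofLp] := by
    ext a b
    fin_cases a <;> simp [stdE_toLp]
  rw [h1, h2]

theorem closed_up {μ : (Fin 7 → ℝ) → (Fin 7 → ℝ) → Fin 7 → ℝ} (h : μ ∈ P.Sclosed) :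
    up μ h.1.1.1 ∈ Sclosed :=
  ⟨solv_up h.1, fun v => by rw [ceD_up h.1.1.1 phi P.phi phi_up]; exact h.2 _⟩

theorem tf_up {μ : (Fin 7 → ℝ) → (Fin 7 → ℝ) → Fin 7 → ℝ} (h : μ ∈ P.Sclosed)
    (h' : up μ h.1.1.1 ∈ Stf) : μ ∈ P.Stf := by
  refine ⟨h, fun v => ?_⟩
  have h1 := h'.2 (fun i => WithLp.toLp 2 (v i))
  have h2 := ceD_up h.1.1.1 _ (P.hodge3 P.phi) hodge_up (fun i => WithLp.toLp 2 (v i))
  have h3 : (fun i : Fin 5 => (WithLp.toLp 2 (v i) : RV 7).ofLp) = v := rfl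
  rw [h1, h3] at h2
  exact h2.symm

end Pool.Agent.H.MP_64d93e_gt
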