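import Mathlib

/-! Polynomial identities behind Bryant's formula for the scalar curvature of a closed
`G₂`-structure, in structure constants. Generated by computer algebra. -/

namespace Pool.Agent.H.MP_64d93e_gt

/-- component of `d(*φ)` -/
noncomputable def u01234 (c : Fin 7 → Fin 7 → Fin 7 → ℝ) : ℝ :=
  c 0 1 5 + c 0 3 6 + c 0 4 0 + c 1 2 6 + c 1 4 1 + c 2 3 5 + c 2 4 2 + c 3 4 3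

/-- component of `d(*φ)` -/
noncomputable def u01235 (c : Fin 7 → Fin 7 → Fin 7 → ℝ) : ℝ :=
  -c 0 1 4 + c 0 2 6 + c 0 5 0 - c 1 3 6 + c 1 5 1 - c 2 3 4 + c 2 5 2 + c 3 5 3

/-- component of `d(*φ)` -/
noncomputable def u01236 (c : Fin 7 → Fin 7 → Fin 7 → ℝ) : ℝ :=
  -c 0 2 5 - c 0 3 4 + c 0 6 0 - c 1 2 4 + c 1 3 5 + c 1 6 1 + c 2 6 2 + c 3 6 3

/-- component of `d(*φ)` -/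
noncomputable def u01245 (c : Fin 7 → Fin 7 → Fin 7 → ℝ) : ℝ :=
  c 0 1 3 + c 0 2 0 - c 0 5 6 + c 1 2 1 - c 1 4 6 - c 2 4 4 - c 2 5 5 + c 4 5 3

/-- component of `d(*φ)` -/
noncomputable def u01246 (c : Fin 7 → Fin 7 → Fin 7 → ℝ) : ℝ :=
  -c 0 1 1 - c 0 2 2 - c 0 4 4 - c 0 6 6 + c 1 2 3 + c 1 4 5 - c 2 6 5 + c 4 6 3

/-- component of `d(*φ)` -/
noncomputable def u01256 (c : Fin 7 → Fin 7 → Fin 7 → ℝ) : ℝ :=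
  -c 0 1 0 + c 0 2 3 - c 0 5 4 + c 1 2 2 + c 1 5 5 + c 1 6 6 + c 2 6 4 + c 5 6 3

/-- component of `d(*φ)` -/
noncomputable def u01345 (c : Fin 7 → Fin 7 → Fin 7 → ℝ) : ℝ :=
  -c 0 1 2 + c 0 3 0 - c 0 4 6 + c 1 3 1 + c 1 5 6 - c 3 4 4 - c 3 5 5 - c 4 5 2

/-- component of `d(*φ)` -/
noncomputable def u01346 (c : Fin 7 → Fin 7 → Fin 7 → ℝ) : ℝ :=
  -c 0 1 0 - c 0 3 2 + c 0 4 5 + c 1 3 3 + c 1 4 4 + c 1 6 6 - c 3 6 5 - c 4 6 2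

/-- component of `d(*φ)` -/
noncomputable def u01356 (c : Fin 7 → Fin 7 → Fin 7 → ℝ) : ℝ :=
  c 0 1 1 + c 0 3 3 + c 0 5 5 + c 0 6 6 + c 1 3 2 + c 1 5 4 + c 3 6 4 - c 5 6 2

/-- component of `d(*φ)` -/
noncomputable def u01456 (c : Fin 7 → Fin 7 → Fin 7 → ℝ) : ℝ :=
  c 0 4 3 + c 0 5 2 + c 0 6 0 + c 1 4 2 - c 1 5 3 + c 1 6 1 + c 4 6 4 + c 5 6 5

/-- component of `d(*φ)` -/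
noncomputable def u02345 (c : Fin 7 → Fin 7 → Fin 7 → ℝ) : ℝ :=
  -c 0 2 2 - c 0 3 3 - c 0 4 4 - c 0 5 5 + c 2 3 1 + c 2 5 6 + c 3 4 6 + c 4 5 1

/-- component of `d(*φ)` -/
noncomputable def u02346 (c : Fin 7 → Fin 7 → Fin 7 → ℝ) : ℝ :=
  -c 0 2 0 + c 0 3 1 - c 0 6 5 + c 2 3 3 + c 2 4 4 + c 2 6 6 - c 3 4 5 + c 4 6 1

/-- component of `d(*φ)` -/
noncomputable def u02356 (c : Fin 7 → Fin 7 → Fin 7 → ℝ) : ℝ :=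
  c 0 2 1 + c 0 3 0 + c 0 6 4 + c 2 3 2 + c 2 5 4 - c 3 5 5 - c 3 6 6 + c 5 6 1

/-- component of `d(*φ)` -/
noncomputable def u02456 (c : Fin 7 → Fin 7 → Fin 7 → ℝ) : ℝ :=
  c 0 4 0 - c 0 5 1 - c 0 6 3 + c 2 4 2 - c 2 5 3 + c 2 6 1 - c 4 5 5 - c 4 6 6

/-- component of `d(*φ)` -/
noncomputable def u03456 (c : Fin 7 → Fin 7 → Fin 7 → ℝ) : ℝ :=
  -c 0 4 1 - c 0 5 0 + c 0 6 2 + c 3 4 2 - c 3 5 3 + c 3 6 1 - c 4 5 4 + c 5 6 6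

/-- component of `d(*φ)` -/
noncomputable def u12345 (c : Fin 7 → Fin 7 → Fin 7 → ℝ) : ℝ :=
  -c 1 2 2 - c 1 3 3 - c 1 4 4 - c 1 5 5 - c 2 3 0 + c 2 4 6 - c 3 5 6 - c 4 5 0

/-- component of `d(*φ)` -/
noncomputable def u12346 (c : Fin 7 → Fin 7 → Fin 7 → ℝ) : ℝ :=
  -c 1 2 0 + c 1 3 1 - c 1 6 5 + c 2 3 2 - c 2 4 5 - c 3 4 4 - c 3 6 6 - c 4 6 0

/-- component of `d(*φ)` -/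
noncomputable def u12356 (c : Fin 7 → Fin 7 → Fin 7 → ℝ) : ℝ :=
  c 1 2 1 + c 1 3 0 + c 1 6 4 - c 2 3 3 - c 2 5 5 - c 2 6 6 - c 3 5 4 - c 5 6 0

/-- component of `d(*φ)` -/
noncomputable def u12456 (c : Fin 7 → Fin 7 → Fin 7 → ℝ) : ℝ :=
  c 1 4 0 - c 1 5 1 - c 1 6 3 - c 2 4 3 - c 2 5 2 - c 2 6 0 - c 4 5 4 + c 5 6 6

/-- component of `d(*φ)` -/
noncomputable def u13456 (c : Fin 7 → Fin 7 → Fin 7 → ℝ) : ℝ :=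
  -c 1 4 1 - c 1 5 0 + c 1 6 2 - c 3 4 3 - c 3 5 2 - c 3 6 0 + c 4 5 5 + c 4 6 6

/-- component of `d(*φ)` -/
noncomputable def u23456 (c : Fin 7 → Fin 7 → Fin 7 → ℝ) : ℝ :=
  -c 2 4 1 - c 2 5 0 + c 2 6 2 - c 3 4 0 + c 3 5 1 + c 3 6 3 + c 4 6 4 + c 5 6 5

/-- weight component of the scalar curvature -/
noncomputable def SS0 (c : Fin 7 → Fin 7 → Fin 7 → ℝ) : ℝ :=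
  -(1/2) * c 0 1 6 * c 0 1 6 - c 0 1 6 * c 0 6 1 + c 0 1 6 * c 1 6 0 - (1/2) * c 0 2 4 * c 0 2
  4 - c 0 2 4 * c 0 4 2 + c 0 2 4 * c 2 4 0 - (1/2) * c 0 3 5 * c 0 3 5 - c 0 3 5 * c 0 5 3 + c
  0 3 5 * c 3 5 0 - (1/2) * c 0 4 2 * c 0 4 2 - c 0 4 2 * c 2 4 0 - (1/2) * c 0 5 3 * c 0 5 3 -
  c 0 5 3 * c 3 5 0 - (1/2) * c 0 6 1 * c 0 6 1 - c 0 6 1 * c 1 6 0 - (1/2) * c 1 2 5 * c 1 2 5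
  - c 1 2 5 * c 1 5 2 + c 1 2 5 * c 2 5 1 - (1/2) * c 1 3 4 * c 1 3 4 - c 1 3 4 * c 1 4 3 + c 1
  3 4 * c 3 4 1 - (1/2) * c 1 4 3 * c 1 4 3 - c 1 4 3 * c 3 4 1 - (1/2) * c 1 5 2 * c 1 5 2 - c
  1 5 2 * c 2 5 1 - (1/2) * c 1 6 0 * c 1 6 0 - (1/2) * c 2 3 6 * c 2 3 6 - c 2 3 6 * c 2 6 3 +
  c 2 3 6 * c 3 6 2 - (1/2) * c 2 4 0 * c 2 4 0 - (1/2) * c 2 5 1 * c 2 5 1 - (1/2) * c 2 6 3 *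
  c 2 6 3 - c 2 6 3 * c 3 6 2 - (1/2) * c 3 4 1 * c 3 4 1 - (1/2) * c 3 5 0 * c 3 5 0 - (1/2) *
  c 3 6 2 * c 3 6 2 - (1/2) * c 4 5 6 * c 4 5 6 - c 4 5 6 * c 4 6 5 + c 4 5 6 * c 5 6 4 - (1/2)
  * c 4 6 5 * c 4 6 5 - c 4 6 5 * c 5 6 4 - (1/2) * c 5 6 4 * c 5 6 4

/-- weight component of the Jacobi contraction -/
noncomputable def TT0 (c : Fin 7 → Fin 7 → Fin 7 → ℝ) : ℝ :=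
  -c 0 1 6 * c 2 4 0 + c 0 1 6 * c 2 5 1 + c 0 1 6 * c 2 6 3 + c 0 1 6 * c 3 4 1 + c 0 1 6 * c
  3 5 0 - c 0 1 6 * c 3 6 2 + c 0 1 6 * c 4 6 5 - c 0 1 6 * c 5 6 4 - c 0 2 4 * c 1 4 3 - c 0 2
  4 * c 1 5 2 - c 0 2 4 * c 1 6 0 + c 0 2 4 * c 3 4 1 + c 0 2 4 * c 3 5 0 - c 0 2 4 * c 3 6 2 -
  c 0 2 4 * c 4 5 6 + c 0 2 4 * c 4 6 5 + c 0 3 5 * c 1 4 3 + c 0 3 5 * c 1 5 2 + c 0 3 5 * c 1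
  6 0 + c 0 3 5 * c 2 4 0 - c 0 3 5 * c 2 5 1 - c 0 3 5 * c 2 6 3 + c 0 3 5 * c 4 5 6 + c 0 3 5
  * c 5 6 4 - c 0 4 2 * c 1 2 5 - c 0 4 2 * c 1 3 4 + c 0 4 2 * c 1 6 0 + c 0 4 2 * c 2 3 6 - c
  0 4 2 * c 2 5 1 - c 0 4 2 * c 2 6 3 - c 0 4 2 * c 3 5 0 + c 0 4 2 * c 5 6 4 + c 0 5 3 * c 1 2
  5 + c 0 5 3 * c 1 3 4 - c 0 5 3 * c 1 6 0 - c 0 5 3 * c 2 3 6 - c 0 5 3 * c 2 4 0 + c 0 5 3 *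
  c 3 4 1 - c 0 5 3 * c 3 6 2 + c 0 5 3 * c 4 6 5 - c 0 6 1 * c 1 2 5 - c 0 6 1 * c 1 3 4 + c 0
  6 1 * c 1 4 3 + c 0 6 1 * c 1 5 2 + c 0 6 1 * c 2 3 6 + c 0 6 1 * c 2 4 0 - c 0 6 1 * c 3 5 0
  + c 0 6 1 * c 4 5 6 - c 1 2 5 * c 3 4 1 - c 1 2 5 * c 3 5 0 + c 1 2 5 * c 3 6 2 + c 1 2 5 * c
  4 5 6 + c 1 2 5 * c 5 6 4 + c 1 3 4 * c 2 4 0 - c 1 3 4 * c 2 5 1 - c 1 3 4 * c 2 6 3 + c 1 3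
  4 * c 4 5 6 - c 1 3 4 * c 4 6 5 - c 1 4 3 * c 2 3 6 + c 1 4 3 * c 2 5 1 + c 1 4 3 * c 3 5 0 -
  c 1 4 3 * c 3 6 2 - c 1 4 3 * c 5 6 4 - c 1 5 2 * c 2 3 6 - c 1 5 2 * c 2 4 0 + c 1 5 2 * c 2
  6 3 + c 1 5 2 * c 3 4 1 + c 1 5 2 * c 4 6 5 - c 1 6 0 * c 2 3 6 + c 1 6 0 * c 2 5 1 + c 1 6 0
  * c 3 4 1 - c 1 6 0 * c 4 5 6 + c 2 3 6 * c 4 6 5 - c 2 3 6 * c 5 6 4 - c 2 4 0 * c 3 6 2 - c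
  2 4 0 * c 5 6 4 + c 2 5 1 * c 3 6 2 - c 2 5 1 * c 4 6 5 - c 2 6 3 * c 3 4 1 - c 2 6 3 * c 3 5
  0 + c 2 6 3 * c 4 5 6 + c 3 4 1 * c 5 6 4 - c 3 5 0 * c 4 6 5 - c 3 6 2 * c 4 5 6

theorem brw0 (c : Fin 7 → Fin 7 → Fin 7 → ℝ)
    (h0123 : -c 0 1 6 - c 0 2 4 + c 0 3 5 + c 1 2 5 + c 1 3 4 - c 2 3 6 = 0)
    (h0145 : -c 0 1 6 + c 0 4 2 - c 0 5 3 - c 1 4 3 - c 1 5 2 - c 4 5 6 = 0)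
    (h0256 : -c 0 2 4 - c 0 5 3 + c 0 6 1 + c 2 5 1 + c 2 6 3 - c 5 6 4 = 0)
    (h0346 : c 0 3 5 + c 0 4 2 + c 0 6 1 + c 3 4 1 - c 3 6 2 + c 4 6 5 = 0)
    (h1246 : c 1 2 5 - c 1 4 3 - c 1 6 0 - c 2 4 0 + c 2 6 3 + c 4 6 5 = 0)
    (h1356 : -c 1 3 4 + c 1 5 2 + c 1 6 0 - c 3 5 0 + c 3 6 2 + c 5 6 4 = 0)
    (h2345 : -c 2 3 6 - c 2 4 0 + c 2 5 1 + c 3 4 1 + c 3 5 0 - c 4 5 6 = 0) :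
    SS0 c  - TT0 c = 0 := by
  simp only [SS0, TT0]
  linear_combination ((1/4) * c 0 1 6 - (1/2) * c 0 2 4 + (1/2) * c 0 3 5 + c 0 4 2 - c 0 5 3 +
  (7/4) * c 0 6 1 - (1/4) * c 1 2 5 - (1/4) * c 1 3 4 - (1/4) * c 1 4 3 - (1/4) * c 1 5 2 -
  (1/4) * c 1 6 0 + (1/2) * c 2 3 6 + (3/4) * c 2 5 1 + c 2 6 3 + (3/4) * c 3 4 1 - c 3 6 2 + c
  4 6 5 - c 5 6 4) * h0123 + ((1/4) * c 0 1 6 - c 0 2 4 + c 0 3 5 + (1/2) * c 0 4 2 - (1/2) * c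
  0 5 3 + (7/4) * c 0 6 1 + (1/4) * c 1 2 5 + (1/4) * c 1 3 4 + (1/4) * c 1 4 3 + (1/4) * c 1 5
  2 - (1/4) * c 1 6 0 + (3/4) * c 2 5 1 + c 2 6 3 + (3/4) * c 3 4 1 - c 3 6 2 + (1/2) * c 4 5 6
  + c 4 6 5 - c 5 6 4) * h0145 + ((5/4) * c 0 1 6 + c 0 2 4 - (1/2) * c 0 3 5 - (1/2) * c 0 4 2
  + c 0 5 3 - (1/4) * c 0 6 1 + (1/4) * c 1 2 5 - (3/4) * c 1 3 4 - (1/4) * c 1 4 3 + (3/4) * c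
  1 5 2 - (3/4) * c 1 6 0 - (3/2) * c 2 4 0 + (1/4) * c 2 5 1 + (1/2) * c 2 6 3 + (3/4) * c 3 4
  1 + (1/2) * c 3 5 0 + c 4 6 5 + (1/2) * c 5 6 4) * h0256 + ((5/4) * c 0 1 6 + (1/2) * c 0 2 4
  - c 0 3 5 - c 0 4 2 + (1/2) * c 0 5 3 - (1/4) * c 0 6 1 - (3/4) * c 1 2 5 - (3/4) * c 1 3 4 +
  (3/4) * c 1 4 3 + (3/4) * c 1 5 2 + (1/4) * c 1 6 0 - (1/2) * c 2 4 0 + (3/4) * c 2 5 1 +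
  (1/4) * c 3 4 1 + (1/2) * c 3 5 0 + (1/2) * c 3 6 2 - (1/2) * c 4 6 5) * h0346 + (-(1/4) * c
  0 1 6 + (1/2) * c 0 2 4 + (1/2) * c 0 3 5 + (1/2) * c 0 4 2 + (1/2) * c 0 5 3 - (1/4) * c 0 6
  1 - (1/4) * c 1 2 5 + (3/4) * c 1 3 4 + (1/4) * c 1 4 3 - (3/4) * c 1 5 2 - (1/4) * c 1 6 0 +
  (1/2) * c 2 4 0 - (3/4) * c 2 5 1 - c 2 6 3 + (1/4) * c 3 4 1 + (1/2) * c 3 5 0 - c 3 6 2) *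
  h1246 + ((1/4) * c 0 1 6 + (1/2) * c 0 2 4 - (1/2) * c 0 3 5 - (1/2) * c 0 4 2 + (1/2) * c 0
  5 3 - (3/4) * c 0 6 1 + (1/4) * c 1 2 5 + (1/4) * c 1 3 4 - (1/4) * c 1 4 3 - (1/4) * c 1 5 2
  - (3/4) * c 1 6 0 - (1/2) * c 2 4 0 - (1/4) * c 2 5 1 - (1/4) * c 3 4 1 + (1/2) * c 3 5 0) *
  h1356 + (-(3/4) * c 0 1 6 - (3/4) * c 0 6 1 + (3/4) * c 1 2 5 + (3/4) * c 1 3 4 - (3/4) * c 1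
  4 3 - (3/4) * c 1 5 2 - (3/4) * c 1 6 0 - (3/4) * c 2 5 1 - (3/4) * c 3 4 1) * h2345

/-- weight component of the scalar curvature -/
noncomputable def SS1 (c : Fin 7 → Fin 7 → Fin 7 → ℝ) : ℝ :=
  -2 * c 0 1 1 * c 0 1 1 - 2 * c 0 1 1 * c 0 2 2 - 2 * c 0 1 1 * c 0 3 3 - 2 * c 0 1 1 * c 0 4
  4 - 2 * c 0 1 1 * c 0 5 5 - 2 * c 0 1 1 * c 0 6 6 - 2 * c 0 2 2 * c 0 2 2 - 2 * c 0 2 2 * c 0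
  3 3 - 2 * c 0 2 2 * c 0 4 4 - 2 * c 0 2 2 * c 0 5 5 - 2 * c 0 2 2 * c 0 6 6 - 2 * c 0 3 3 * c
  0 3 3 - 2 * c 0 3 3 * c 0 4 4 - 2 * c 0 3 3 * c 0 5 5 - 2 * c 0 3 3 * c 0 6 6 - 2 * c 0 4 4 *
  c 0 4 4 - 2 * c 0 4 4 * c 0 5 5 - 2 * c 0 4 4 * c 0 6 6 - 2 * c 0 5 5 * c 0 5 5 - 2 * c 0 5 5
  * c 0 6 6 - 2 * c 0 6 6 * c 0 6 6 - (1/2) * c 1 2 3 * c 1 2 3 - c 1 2 3 * c 1 3 2 + c 1 2 3 *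
  c 2 3 1 - (1/2) * c 1 3 2 * c 1 3 2 - c 1 3 2 * c 2 3 1 - (1/2) * c 1 4 5 * c 1 4 5 - c 1 4 5
  * c 1 5 4 + c 1 4 5 * c 4 5 1 - (1/2) * c 1 5 4 * c 1 5 4 - c 1 5 4 * c 4 5 1 - (1/2) * c 2 3
  1 * c 2 3 1 - (1/2) * c 2 5 6 * c 2 5 6 - c 2 5 6 * c 2 6 5 + c 2 5 6 * c 5 6 2 - (1/2) * c 2
  6 5 * c 2 6 5 - c 2 6 5 * c 5 6 2 - (1/2) * c 3 4 6 * c 3 4 6 - c 3 4 6 * c 3 6 4 + c 3 4 6 *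
  c 4 6 3 - (1/2) * c 3 6 4 * c 3 6 4 - c 3 6 4 * c 4 6 3 - (1/2) * c 4 5 1 * c 4 5 1 - (1/2) *
  c 4 6 3 * c 4 6 3 - (1/2) * c 5 6 2 * c 5 6 2

/-- weight component of the Jacobi contraction -/
noncomputable def TT1 (c : Fin 7 → Fin 7 → Fin 7 → ℝ) : ℝ :=
  -c 0 1 1 * c 1 2 3 + c 0 1 1 * c 1 3 2 - c 0 1 1 * c 1 4 5 + c 0 1 1 * c 1 5 4 + c 0 1 1 * c
  2 3 1 + c 0 1 1 * c 4 5 1 - c 0 2 2 * c 1 2 3 - c 0 2 2 * c 1 3 2 - c 0 2 2 * c 2 3 1 - c 0 2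
  2 * c 2 5 6 + c 0 2 2 * c 2 6 5 + c 0 2 2 * c 5 6 2 + c 0 3 3 * c 1 2 3 + c 0 3 3 * c 1 3 2 -
  c 0 3 3 * c 2 3 1 - c 0 3 3 * c 3 4 6 + c 0 3 3 * c 3 6 4 + c 0 3 3 * c 4 6 3 - c 0 4 4 * c 1
  4 5 - c 0 4 4 * c 1 5 4 - c 0 4 4 * c 3 4 6 - c 0 4 4 * c 3 6 4 - c 0 4 4 * c 4 5 1 - c 0 4 4
  * c 4 6 3 + c 0 5 5 * c 1 4 5 + c 0 5 5 * c 1 5 4 - c 0 5 5 * c 2 5 6 - c 0 5 5 * c 2 6 5 - c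
  0 5 5 * c 4 5 1 - c 0 5 5 * c 5 6 2 + c 0 6 6 * c 2 5 6 + c 0 6 6 * c 2 6 5 + c 0 6 6 * c 3 4
  6 + c 0 6 6 * c 3 6 4 - c 0 6 6 * c 4 6 3 - c 0 6 6 * c 5 6 2 - c 1 2 3 * c 3 4 6 + c 1 2 3 *
  c 3 6 4 - c 1 2 3 * c 4 5 1 - c 1 2 3 * c 5 6 2 + c 1 3 2 * c 2 5 6 - c 1 3 2 * c 2 6 5 + c 1
  3 2 * c 4 5 1 + c 1 3 2 * c 4 6 3 - c 1 4 5 * c 2 3 1 - c 1 4 5 * c 2 5 6 + c 1 4 5 * c 3 6 4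
  - c 1 4 5 * c 5 6 2 + c 1 5 4 * c 2 3 1 - c 1 5 4 * c 2 6 5 + c 1 5 4 * c 3 4 6 + c 1 5 4 * c
  4 6 3 - c 2 3 1 * c 4 6 3 - c 2 3 1 * c 5 6 2 + c 2 5 6 * c 3 6 4 - c 2 5 6 * c 4 6 3 + c 2 6
  5 * c 3 4 6 + c 2 6 5 * c 4 5 1 - c 3 4 6 * c 5 6 2 + c 3 6 4 * c 4 5 1

theorem brw1 (c : Fin 7 → Fin 7 → Fin 7 → ℝ)
    (h0125 : c 0 1 1 + c 0 2 2 + c 0 5 5 - c 1 2 3 + c 1 5 4 - c 2 5 6 = 0)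
    (h0134 : c 0 1 1 + c 0 3 3 + c 0 4 4 + c 1 3 2 - c 1 4 5 - c 3 4 6 = 0)
    (h0236 : -c 0 2 2 - c 0 3 3 - c 0 6 6 + c 2 3 1 - c 2 6 5 - c 3 6 4 = 0)
    (h0456 : -c 0 4 4 - c 0 5 5 - c 0 6 6 + c 4 5 1 + c 4 6 3 + c 5 6 2 = 0) :
    SS1 c + 1 / 2 * u01246 c ^ 2 + 1 / 2 * u01356 c ^ 2 + 1 / 2 * u02345 c ^ 2 - TT1 c = 0 := by
  simp only [SS1, TT1, u01246, u01356, u02345]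
  linear_combination (c 0 3 3 + c 0 4 4 + c 0 6 6 + c 1 3 2 - c 1 4 5 - c 2 3 1 + c 2 6 5 - c 3
  4 6 + c 3 6 4 - c 4 5 1 - c 4 6 3 - c 5 6 2) * h0125 + (-c 0 1 1 + c 0 6 6 - c 2 3 1 + c 2 6
  5 + c 3 6 4 - c 4 5 1 - c 4 6 3 - c 5 6 2) * h0134 + (c 0 1 1 + c 0 2 2 + c 0 3 3 + c 4 5 1 +
  c 4 6 3 + c 5 6 2) * h0236 + (c 0 1 1 + c 0 2 2 + c 0 3 3 + c 0 4 4 + c 0 5 5 + c 0 6 6) *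
  h0456

/-- weight component of the scalar curvature -/
noncomputable def SS2 (c : Fin 7 → Fin 7 → Fin 7 → ℝ) : ℝ :=
  -2 * c 0 1 0 * c 0 1 0 + 2 * c 0 1 0 * c 1 2 2 + 2 * c 0 1 0 * c 1 3 3 + 2 * c 0 1 0 * c 1 4
  4 + 2 * c 0 1 0 * c 1 5 5 + 2 * c 0 1 0 * c 1 6 6 - (1/2) * c 0 2 3 * c 0 2 3 - c 0 2 3 * c 0
  3 2 + c 0 2 3 * c 2 3 0 - (1/2) * c 0 3 2 * c 0 3 2 - c 0 3 2 * c 2 3 0 - (1/2) * c 0 4 5 * c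
  0 4 5 - c 0 4 5 * c 0 5 4 + c 0 4 5 * c 4 5 0 - (1/2) * c 0 5 4 * c 0 5 4 - c 0 5 4 * c 4 5 0
  - 2 * c 1 2 2 * c 1 2 2 - 2 * c 1 2 2 * c 1 3 3 - 2 * c 1 2 2 * c 1 4 4 - 2 * c 1 2 2 * c 1 5
  5 - 2 * c 1 2 2 * c 1 6 6 - 2 * c 1 3 3 * c 1 3 3 - 2 * c 1 3 3 * c 1 4 4 - 2 * c 1 3 3 * c 1
  5 5 - 2 * c 1 3 3 * c 1 6 6 - 2 * c 1 4 4 * c 1 4 4 - 2 * c 1 4 4 * c 1 5 5 - 2 * c 1 4 4 * c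
  1 6 6 - 2 * c 1 5 5 * c 1 5 5 - 2 * c 1 5 5 * c 1 6 6 - 2 * c 1 6 6 * c 1 6 6 - (1/2) * c 2 3
  0 * c 2 3 0 - (1/2) * c 2 4 6 * c 2 4 6 - c 2 4 6 * c 2 6 4 + c 2 4 6 * c 4 6 2 - (1/2) * c 2
  6 4 * c 2 6 4 - c 2 6 4 * c 4 6 2 - (1/2) * c 3 5 6 * c 3 5 6 - c 3 5 6 * c 3 6 5 + c 3 5 6 *
  c 5 6 3 - (1/2) * c 3 6 5 * c 3 6 5 - c 3 6 5 * c 5 6 3 - (1/2) * c 4 5 0 * c 4 5 0 - (1/2) *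
  c 4 6 2 * c 4 6 2 - (1/2) * c 5 6 3 * c 5 6 3

/-- weight component of the Jacobi contraction -/
noncomputable def TT2 (c : Fin 7 → Fin 7 → Fin 7 → ℝ) : ℝ :=
  -c 0 1 0 * c 0 2 3 + c 0 1 0 * c 0 3 2 - c 0 1 0 * c 0 4 5 + c 0 1 0 * c 0 5 4 + c 0 1 0 * c
  2 3 0 + c 0 1 0 * c 4 5 0 + c 0 2 3 * c 1 2 2 - c 0 2 3 * c 1 3 3 - c 0 2 3 * c 3 5 6 + c 0 2
  3 * c 3 6 5 - c 0 2 3 * c 4 5 0 + c 0 2 3 * c 4 6 2 + c 0 3 2 * c 1 2 2 - c 0 3 2 * c 1 3 3 -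
  c 0 3 2 * c 2 4 6 + c 0 3 2 * c 2 6 4 + c 0 3 2 * c 4 5 0 + c 0 3 2 * c 5 6 3 + c 0 4 5 * c 1
  4 4 - c 0 4 5 * c 1 5 5 - c 0 4 5 * c 2 3 0 - c 0 4 5 * c 2 6 4 - c 0 4 5 * c 3 5 6 - c 0 4 5
  * c 5 6 3 + c 0 5 4 * c 1 4 4 - c 0 5 4 * c 1 5 5 + c 0 5 4 * c 2 3 0 - c 0 5 4 * c 2 4 6 - c
  0 5 4 * c 3 6 5 - c 0 5 4 * c 4 6 2 + c 1 2 2 * c 2 3 0 - c 1 2 2 * c 2 4 6 + c 1 2 2 * c 2 6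
  4 + c 1 2 2 * c 4 6 2 + c 1 3 3 * c 2 3 0 + c 1 3 3 * c 3 5 6 - c 1 3 3 * c 3 6 5 - c 1 3 3 *
  c 5 6 3 - c 1 4 4 * c 2 4 6 - c 1 4 4 * c 2 6 4 + c 1 4 4 * c 4 5 0 - c 1 4 4 * c 4 6 2 + c 1
  5 5 * c 3 5 6 + c 1 5 5 * c 3 6 5 + c 1 5 5 * c 4 5 0 + c 1 5 5 * c 5 6 3 + c 1 6 6 * c 2 4 6
  + c 1 6 6 * c 2 6 4 - c 1 6 6 * c 3 5 6 - c 1 6 6 * c 3 6 5 - c 1 6 6 * c 4 6 2 + c 1 6 6 * c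
  5 6 3 + c 2 3 0 * c 4 6 2 - c 2 3 0 * c 5 6 3 - c 2 4 6 * c 3 6 5 + c 2 4 6 * c 5 6 3 - c 2 6
  4 * c 3 5 6 - c 2 6 4 * c 4 5 0 + c 3 5 6 * c 4 6 2 + c 3 6 5 * c 4 5 0

theorem brw2 (c : Fin 7 → Fin 7 → Fin 7 → ℝ)
    (h0124 : -c 0 1 0 + c 0 2 3 + c 0 4 5 + c 1 2 2 + c 1 4 4 - c 2 4 6 = 0)
    (h0135 : c 0 1 0 + c 0 3 2 + c 0 5 4 - c 1 3 3 - c 1 5 5 - c 3 5 6 = 0)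
    (h1236 : -c 1 2 2 - c 1 3 3 - c 1 6 6 - c 2 3 0 - c 2 6 4 + c 3 6 5 = 0)
    (h1456 : -c 1 4 4 - c 1 5 5 - c 1 6 6 - c 4 5 0 + c 4 6 2 - c 5 6 3 = 0) :
    SS2 c + 1 / 2 * u01256 c ^ 2 + 1 / 2 * u01346 c ^ 2 + 1 / 2 * u12345 c ^ 2 - TT2 c = 0 := by
  simp only [SS2, TT2, u01256, u01346, u12345]
  linear_combination (-c 0 3 2 - c 0 5 4 + c 1 3 3 + c 1 5 5 + c 1 6 6 + c 2 3 0 + c 2 6 4 + c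
  3 5 6 - c 3 6 5 + c 4 5 0 - c 4 6 2 + c 5 6 3) * h0124 + (-c 0 1 0 - c 1 6 6 - c 2 3 0 - c 2
  6 4 + c 3 6 5 - c 4 5 0 + c 4 6 2 - c 5 6 3) * h0135 + (-c 0 1 0 + c 1 2 2 + c 1 3 3 - c 4 5
  0 + c 4 6 2 - c 5 6 3) * h1236 + (-c 0 1 0 + c 1 2 2 + c 1 3 3 + c 1 4 4 + c 1 5 5 + c 1 6 6)
  * h1456

/-- weight component of the scalar curvature -/
noncomputable def SS3 (c : Fin 7 → Fin 7 → Fin 7 → ℝ) : ℝ :=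
  -(1/2) * c 0 2 5 * c 0 2 5 - c 0 2 5 * c 0 5 2 + c 0 2 5 * c 2 5 0 - (1/2) * c 0 3 4 * c 0 3
  4 - c 0 3 4 * c 0 4 3 + c 0 3 4 * c 3 4 0 - (1/2) * c 0 4 3 * c 0 4 3 - c 0 4 3 * c 3 4 0 -
  (1/2) * c 0 5 2 * c 0 5 2 - c 0 5 2 * c 2 5 0 - 2 * c 0 6 0 * c 0 6 0 - 2 * c 0 6 0 * c 1 6 1
  - 2 * c 0 6 0 * c 2 6 2 - 2 * c 0 6 0 * c 3 6 3 - 2 * c 0 6 0 * c 4 6 4 - 2 * c 0 6 0 * c 5 6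
  5 - (1/2) * c 1 2 4 * c 1 2 4 - c 1 2 4 * c 1 4 2 + c 1 2 4 * c 2 4 1 - (1/2) * c 1 3 5 * c 1
  3 5 - c 1 3 5 * c 1 5 3 + c 1 3 5 * c 3 5 1 - (1/2) * c 1 4 2 * c 1 4 2 - c 1 4 2 * c 2 4 1 -
  (1/2) * c 1 5 3 * c 1 5 3 - c 1 5 3 * c 3 5 1 - 2 * c 1 6 1 * c 1 6 1 - 2 * c 1 6 1 * c 2 6 2
  - 2 * c 1 6 1 * c 3 6 3 - 2 * c 1 6 1 * c 4 6 4 - 2 * c 1 6 1 * c 5 6 5 - (1/2) * c 2 4 1 * c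
  2 4 1 - (1/2) * c 2 5 0 * c 2 5 0 - 2 * c 2 6 2 * c 2 6 2 - 2 * c 2 6 2 * c 3 6 3 - 2 * c 2 6
  2 * c 4 6 4 - 2 * c 2 6 2 * c 5 6 5 - (1/2) * c 3 4 0 * c 3 4 0 - (1/2) * c 3 5 1 * c 3 5 1 -
  2 * c 3 6 3 * c 3 6 3 - 2 * c 3 6 3 * c 4 6 4 - 2 * c 3 6 3 * c 5 6 5 - 2 * c 4 6 4 * c 4 6 4
  - 2 * c 4 6 4 * c 5 6 5 - 2 * c 5 6 5 * c 5 6 5

/-- weight component of the Jacobi contraction -/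
noncomputable def TT3 (c : Fin 7 → Fin 7 → Fin 7 → ℝ) : ℝ :=
  -c 0 2 5 * c 0 6 0 + c 0 2 5 * c 1 4 2 - c 0 2 5 * c 1 5 3 - c 0 2 5 * c 2 6 2 - c 0 2 5 * c
  3 4 0 + c 0 2 5 * c 3 5 1 + c 0 2 5 * c 5 6 5 - c 0 3 4 * c 0 6 0 + c 0 3 4 * c 1 4 2 - c 0 3
  4 * c 1 5 3 - c 0 3 4 * c 2 4 1 - c 0 3 4 * c 2 5 0 - c 0 3 4 * c 3 6 3 + c 0 3 4 * c 4 6 4 +
  c 0 4 3 * c 0 6 0 + c 0 4 3 * c 1 2 4 - c 0 4 3 * c 1 3 5 + c 0 4 3 * c 2 5 0 - c 0 4 3 * c 3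
  5 1 - c 0 4 3 * c 3 6 3 + c 0 4 3 * c 4 6 4 + c 0 5 2 * c 0 6 0 + c 0 5 2 * c 1 2 4 - c 0 5 2
  * c 1 3 5 + c 0 5 2 * c 2 4 1 - c 0 5 2 * c 2 6 2 + c 0 5 2 * c 3 4 0 + c 0 5 2 * c 5 6 5 + c
  0 6 0 * c 2 5 0 + c 0 6 0 * c 3 4 0 - c 1 2 4 * c 1 6 1 - c 1 2 4 * c 2 6 2 - c 1 2 4 * c 3 4
  0 + c 1 2 4 * c 3 5 1 + c 1 2 4 * c 4 6 4 + c 1 3 5 * c 1 6 1 + c 1 3 5 * c 2 4 1 + c 1 3 5 *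
  c 2 5 0 + c 1 3 5 * c 3 6 3 - c 1 3 5 * c 5 6 5 + c 1 4 2 * c 1 6 1 + c 1 4 2 * c 2 5 0 - c 1
  4 2 * c 2 6 2 - c 1 4 2 * c 3 5 1 + c 1 4 2 * c 4 6 4 - c 1 5 3 * c 1 6 1 - c 1 5 3 * c 2 4 1
  - c 1 5 3 * c 3 4 0 + c 1 5 3 * c 3 6 3 - c 1 5 3 * c 5 6 5 + c 1 6 1 * c 2 4 1 - c 1 6 1 * c
  3 5 1 - c 2 4 1 * c 2 6 2 - c 2 4 1 * c 4 6 4 - c 2 5 0 * c 2 6 2 - c 2 5 0 * c 5 6 5 - c 3 4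
  0 * c 3 6 3 - c 3 4 0 * c 4 6 4 + c 3 5 1 * c 3 6 3 + c 3 5 1 * c 5 6 5

theorem brw3 (c : Fin 7 → Fin 7 → Fin 7 → ℝ)
    (h0246 : c 0 2 5 - c 0 4 3 - c 0 6 0 + c 2 4 1 - c 2 6 2 - c 4 6 4 = 0)
    (h0356 : -c 0 3 4 + c 0 5 2 + c 0 6 0 + c 3 5 1 + c 3 6 3 + c 5 6 5 = 0)
    (h1256 : -c 1 2 4 - c 1 5 3 + c 1 6 1 - c 2 5 0 + c 2 6 2 + c 5 6 5 = 0)
    (h1346 : c 1 3 5 + c 1 4 2 + c 1 6 1 - c 3 4 0 + c 3 6 3 + c 4 6 4 = 0) :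
    SS3 c + 1 / 2 * u01236 c ^ 2 + 1 / 2 * u01456 c ^ 2 + 1 / 2 * u23456 c ^ 2 - TT3 c = 0 := by
  simp only [SS3, TT3, u01236, u01456, u23456]
  linear_combination (c 0 6 0 + c 1 2 4 + c 1 5 3 + c 2 5 0 + c 3 6 3 + c 4 6 4) * h0246 + (-c
  0 2 5 + c 0 4 3 - c 1 6 1 - c 2 4 1 - c 3 6 3 - c 5 6 5) * h0356 + (-c 0 3 4 + c 0 5 2 + c 1
  3 5 + c 1 4 2 - c 2 6 2 - c 3 4 0 + c 3 5 1 + c 3 6 3) * h1256 + (-c 0 2 5 - c 0 3 4 + c 0 4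
  3 + c 0 5 2 + c 0 6 0 - c 1 6 1 - c 2 4 1 + c 3 5 1) * h1346

/-- weight component of the scalar curvature -/
noncomputable def SS4 (c : Fin 7 → Fin 7 → Fin 7 → ℝ) : ℝ :=
  -(1/2) * c 0 1 3 * c 0 1 3 - c 0 1 3 * c 0 3 1 + c 0 1 3 * c 1 3 0 - 2 * c 0 2 0 * c 0 2 0 -
  2 * c 0 2 0 * c 1 2 1 + 2 * c 0 2 0 * c 2 3 3 + 2 * c 0 2 0 * c 2 4 4 + 2 * c 0 2 0 * c 2 5 5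
  + 2 * c 0 2 0 * c 2 6 6 - (1/2) * c 0 3 1 * c 0 3 1 - c 0 3 1 * c 1 3 0 - (1/2) * c 0 5 6 * c
  0 5 6 - c 0 5 6 * c 0 6 5 + c 0 5 6 * c 5 6 0 - (1/2) * c 0 6 5 * c 0 6 5 - c 0 6 5 * c 5 6 0
  - 2 * c 1 2 1 * c 1 2 1 + 2 * c 1 2 1 * c 2 3 3 + 2 * c 1 2 1 * c 2 4 4 + 2 * c 1 2 1 * c 2 5
  5 + 2 * c 1 2 1 * c 2 6 6 - (1/2) * c 1 3 0 * c 1 3 0 - (1/2) * c 1 4 6 * c 1 4 6 - c 1 4 6 *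
  c 1 6 4 + c 1 4 6 * c 4 6 1 - (1/2) * c 1 6 4 * c 1 6 4 - c 1 6 4 * c 4 6 1 - 2 * c 2 3 3 * c
  2 3 3 - 2 * c 2 3 3 * c 2 4 4 - 2 * c 2 3 3 * c 2 5 5 - 2 * c 2 3 3 * c 2 6 6 - 2 * c 2 4 4 *
  c 2 4 4 - 2 * c 2 4 4 * c 2 5 5 - 2 * c 2 4 4 * c 2 6 6 - 2 * c 2 5 5 * c 2 5 5 - 2 * c 2 5 5
  * c 2 6 6 - 2 * c 2 6 6 * c 2 6 6 - (1/2) * c 3 4 5 * c 3 4 5 - c 3 4 5 * c 3 5 4 + c 3 4 5 *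
  c 4 5 3 - (1/2) * c 3 5 4 * c 3 5 4 - c 3 5 4 * c 4 5 3 - (1/2) * c 4 5 3 * c 4 5 3 - (1/2) *
  c 4 6 1 * c 4 6 1 - (1/2) * c 5 6 0 * c 5 6 0

/-- weight component of the Jacobi contraction -/
noncomputable def TT4 (c : Fin 7 → Fin 7 → Fin 7 → ℝ) : ℝ :=
  c 0 1 3 * c 0 2 0 + c 0 1 3 * c 1 2 1 + c 0 1 3 * c 2 3 3 - c 0 1 3 * c 3 4 5 + c 0 1 3 * c 3
  5 4 + c 0 1 3 * c 4 6 1 + c 0 1 3 * c 5 6 0 - c 0 2 0 * c 0 3 1 - c 0 2 0 * c 0 5 6 + c 0 2 0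
  * c 0 6 5 - c 0 2 0 * c 1 3 0 + c 0 2 0 * c 5 6 0 + c 0 3 1 * c 1 2 1 - c 0 3 1 * c 1 4 6 + c
  0 3 1 * c 1 6 4 + c 0 3 1 * c 2 3 3 + c 0 3 1 * c 4 5 3 - c 0 3 1 * c 5 6 0 + c 0 5 6 * c 1 3
  0 + c 0 5 6 * c 1 6 4 + c 0 5 6 * c 2 5 5 - c 0 5 6 * c 2 6 6 + c 0 5 6 * c 3 4 5 - c 0 5 6 *
  c 4 6 1 - c 0 6 5 * c 1 3 0 + c 0 6 5 * c 1 4 6 + c 0 6 5 * c 2 5 5 - c 0 6 5 * c 2 6 6 + c 0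
  6 5 * c 3 5 4 - c 0 6 5 * c 4 5 3 + c 1 2 1 * c 1 3 0 - c 1 2 1 * c 1 4 6 + c 1 2 1 * c 1 6 4
  + c 1 2 1 * c 4 6 1 - c 1 3 0 * c 2 3 3 - c 1 3 0 * c 4 5 3 + c 1 3 0 * c 4 6 1 + c 1 4 6 * c
  2 4 4 - c 1 4 6 * c 2 6 6 - c 1 4 6 * c 3 5 4 - c 1 4 6 * c 5 6 0 + c 1 6 4 * c 2 4 4 - c 1 6
  4 * c 2 6 6 - c 1 6 4 * c 3 4 5 - c 1 6 4 * c 4 5 3 - c 2 3 3 * c 3 4 5 + c 2 3 3 * c 3 5 4 +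
  c 2 3 3 * c 4 5 3 - c 2 4 4 * c 3 4 5 - c 2 4 4 * c 3 5 4 - c 2 4 4 * c 4 5 3 + c 2 4 4 * c 4
  6 1 + c 2 5 5 * c 3 4 5 + c 2 5 5 * c 3 5 4 - c 2 5 5 * c 4 5 3 + c 2 5 5 * c 5 6 0 + c 2 6 6
  * c 4 6 1 + c 2 6 6 * c 5 6 0 + c 3 4 5 * c 5 6 0 - c 3 5 4 * c 4 6 1

theorem brw4 (c : Fin 7 → Fin 7 → Fin 7 → ℝ)
    (h0126 : c 0 1 3 + c 0 2 0 + c 0 6 5 + c 1 2 1 + c 1 6 4 - c 2 6 6 = 0)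
    (h0235 : c 0 2 0 - c 0 3 1 - c 0 5 6 - c 2 3 3 - c 2 5 5 - c 3 5 4 = 0)
    (h1234 : c 1 2 1 + c 1 3 0 - c 1 4 6 - c 2 3 3 - c 2 4 4 + c 3 4 5 = 0)
    (h2456 : -c 2 4 4 - c 2 5 5 - c 2 6 6 + c 4 5 3 - c 4 6 1 - c 5 6 0 = 0) :
    SS4 c + 1 / 2 * u01245 c ^ 2 + 1 / 2 * u02346 c ^ 2 + 1 / 2 * u12356 c ^ 2 - TT4 c = 0 := by
  simp only [SS4, TT4, u01245, u02346, u12356]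
  linear_combination (-c 0 3 1 - c 0 5 6 + c 1 3 0 - c 1 4 6 - c 2 3 3 + c 2 6 6 + c 3 4 5 - c
  3 5 4) * h0126 + (-c 0 2 0 + c 1 3 0 - c 1 4 6 - c 2 4 4 + c 3 4 5 + c 4 5 3 - c 4 6 1 - c 5
  6 0) * h0235 + (-c 0 2 0 - c 1 2 1 + c 2 3 3 + c 4 5 3 - c 4 6 1 - c 5 6 0) * h1234 + (c 0 1
  3 + c 0 6 5 + c 1 6 4 + c 2 3 3 + c 2 4 4 + c 2 5 5) * h2456

/-- weight component of the scalar curvature -/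
noncomputable def SS5 (c : Fin 7 → Fin 7 → Fin 7 → ℝ) : ℝ :=
  -(1/2) * c 0 1 5 * c 0 1 5 - c 0 1 5 * c 0 5 1 + c 0 1 5 * c 1 5 0 - (1/2) * c 0 3 6 * c 0 3
  6 - c 0 3 6 * c 0 6 3 + c 0 3 6 * c 3 6 0 - 2 * c 0 4 0 * c 0 4 0 - 2 * c 0 4 0 * c 1 4 1 - 2
  * c 0 4 0 * c 2 4 2 - 2 * c 0 4 0 * c 3 4 3 + 2 * c 0 4 0 * c 4 5 5 + 2 * c 0 4 0 * c 4 6 6 -
  (1/2) * c 0 5 1 * c 0 5 1 - c 0 5 1 * c 1 5 0 - (1/2) * c 0 6 3 * c 0 6 3 - c 0 6 3 * c 3 6 0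
  - (1/2) * c 1 2 6 * c 1 2 6 - c 1 2 6 * c 1 6 2 + c 1 2 6 * c 2 6 1 - 2 * c 1 4 1 * c 1 4 1 -
  2 * c 1 4 1 * c 2 4 2 - 2 * c 1 4 1 * c 3 4 3 + 2 * c 1 4 1 * c 4 5 5 + 2 * c 1 4 1 * c 4 6 6
  - (1/2) * c 1 5 0 * c 1 5 0 - (1/2) * c 1 6 2 * c 1 6 2 - c 1 6 2 * c 2 6 1 - (1/2) * c 2 3 5
  * c 2 3 5 - c 2 3 5 * c 2 5 3 + c 2 3 5 * c 3 5 2 - 2 * c 2 4 2 * c 2 4 2 - 2 * c 2 4 2 * c 3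
  4 3 + 2 * c 2 4 2 * c 4 5 5 + 2 * c 2 4 2 * c 4 6 6 - (1/2) * c 2 5 3 * c 2 5 3 - c 2 5 3 * c
  3 5 2 - (1/2) * c 2 6 1 * c 2 6 1 - 2 * c 3 4 3 * c 3 4 3 + 2 * c 3 4 3 * c 4 5 5 + 2 * c 3 4
  3 * c 4 6 6 - (1/2) * c 3 5 2 * c 3 5 2 - (1/2) * c 3 6 0 * c 3 6 0 - 2 * c 4 5 5 * c 4 5 5 -
  2 * c 4 5 5 * c 4 6 6 - 2 * c 4 6 6 * c 4 6 6

/-- weight component of the Jacobi contraction -/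
noncomputable def TT5 (c : Fin 7 → Fin 7 → Fin 7 → ℝ) : ℝ :=
  c 0 1 5 * c 0 4 0 + c 0 1 5 * c 1 4 1 + c 0 1 5 * c 2 5 3 - c 0 1 5 * c 2 6 1 - c 0 1 5 * c 3
  5 2 - c 0 1 5 * c 3 6 0 + c 0 1 5 * c 4 5 5 + c 0 3 6 * c 0 4 0 - c 0 3 6 * c 1 5 0 + c 0 3 6
  * c 1 6 2 + c 0 3 6 * c 2 5 3 - c 0 3 6 * c 2 6 1 + c 0 3 6 * c 3 4 3 + c 0 3 6 * c 4 6 6 - c
  0 4 0 * c 0 5 1 - c 0 4 0 * c 0 6 3 - c 0 4 0 * c 1 5 0 - c 0 4 0 * c 3 6 0 + c 0 5 1 * c 1 2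
  6 + c 0 5 1 * c 1 4 1 - c 0 5 1 * c 1 6 2 + c 0 5 1 * c 2 3 5 + c 0 5 1 * c 3 6 0 + c 0 5 1 *
  c 4 5 5 + c 0 6 3 * c 1 2 6 + c 0 6 3 * c 1 5 0 + c 0 6 3 * c 2 3 5 + c 0 6 3 * c 3 4 3 + c 0
  6 3 * c 3 5 2 + c 0 6 3 * c 4 6 6 + c 1 2 6 * c 1 4 1 + c 1 2 6 * c 2 4 2 - c 1 2 6 * c 3 5 2
  - c 1 2 6 * c 3 6 0 + c 1 2 6 * c 4 6 6 + c 1 4 1 * c 1 5 0 - c 1 4 1 * c 1 6 2 - c 1 4 1 * c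
  2 6 1 - c 1 5 0 * c 2 3 5 - c 1 5 0 * c 2 6 1 - c 1 5 0 * c 4 5 5 + c 1 6 2 * c 2 3 5 + c 1 6
  2 * c 2 4 2 - c 1 6 2 * c 2 5 3 + c 1 6 2 * c 4 6 6 + c 2 3 5 * c 2 4 2 + c 2 3 5 * c 3 4 3 +
  c 2 3 5 * c 4 5 5 - c 2 4 2 * c 2 5 3 + c 2 4 2 * c 2 6 1 - c 2 4 2 * c 3 5 2 + c 2 5 3 * c 3
  4 3 + c 2 5 3 * c 3 6 0 + c 2 5 3 * c 4 5 5 - c 2 6 1 * c 3 5 2 - c 2 6 1 * c 4 6 6 + c 3 4 3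
  * c 3 5 2 + c 3 4 3 * c 3 6 0 - c 3 5 2 * c 4 5 5 - c 3 6 0 * c 4 6 6

theorem brw5 (c : Fin 7 → Fin 7 → Fin 7 → ℝ)
    (h0146 : c 0 1 5 + c 0 4 0 - c 0 6 3 + c 1 4 1 - c 1 6 2 - c 4 6 6 = 0)
    (h0345 : -c 0 3 6 - c 0 4 0 + c 0 5 1 - c 3 4 3 - c 3 5 2 + c 4 5 5 = 0)
    (h1245 : -c 1 2 6 - c 1 4 1 - c 1 5 0 - c 2 4 2 + c 2 5 3 + c 4 5 5 = 0)
    (h2346 : c 2 3 5 + c 2 4 2 + c 2 6 1 + c 3 4 3 + c 3 6 0 - c 4 6 6 = 0) :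
    SS5 c + 1 / 2 * u01234 c ^ 2 + 1 / 2 * u02456 c ^ 2 + 1 / 2 * u13456 c ^ 2 - TT5 c = 0 := by
  simp only [SS5, TT5, u01234, u02456, u13456]
  linear_combination (c 0 3 6 - c 0 5 1 - c 1 4 1 - c 2 4 2 + c 3 5 2 + c 4 6 6) * h0146 + (c 0
  4 0 + c 1 4 1 - c 2 3 5 - c 2 6 1 - c 3 6 0 - c 4 5 5) * h0345 + (-c 0 1 5 - c 0 3 6 - c 0 4
  0 + c 0 5 1 + c 0 6 3 + c 1 6 2 + c 2 4 2 - c 3 5 2) * h1245 + (c 0 1 5 - c 0 6 3 + c 1 2 6 +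
  c 1 4 1 + c 1 5 0 - c 1 6 2 - c 2 5 3 - c 3 4 3) * h2346

/-- weight component of the scalar curvature -/
noncomputable def SS6 (c : Fin 7 → Fin 7 → Fin 7 → ℝ) : ℝ :=
  -(1/2) * c 0 1 4 * c 0 1 4 - c 0 1 4 * c 0 4 1 + c 0 1 4 * c 1 4 0 - (1/2) * c 0 2 6 * c 0 2
  6 - c 0 2 6 * c 0 6 2 + c 0 2 6 * c 2 6 0 - (1/2) * c 0 4 1 * c 0 4 1 - c 0 4 1 * c 1 4 0 - 2
  * c 0 5 0 * c 0 5 0 - 2 * c 0 5 0 * c 1 5 1 - 2 * c 0 5 0 * c 2 5 2 - 2 * c 0 5 0 * c 3 5 3 -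
  2 * c 0 5 0 * c 4 5 4 + 2 * c 0 5 0 * c 5 6 6 - (1/2) * c 0 6 2 * c 0 6 2 - c 0 6 2 * c 2 6 0
  - (1/2) * c 1 3 6 * c 1 3 6 - c 1 3 6 * c 1 6 3 + c 1 3 6 * c 3 6 1 - (1/2) * c 1 4 0 * c 1 4
  0 - 2 * c 1 5 1 * c 1 5 1 - 2 * c 1 5 1 * c 2 5 2 - 2 * c 1 5 1 * c 3 5 3 - 2 * c 1 5 1 * c 4
  5 4 + 2 * c 1 5 1 * c 5 6 6 - (1/2) * c 1 6 3 * c 1 6 3 - c 1 6 3 * c 3 6 1 - (1/2) * c 2 3 4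
  * c 2 3 4 - c 2 3 4 * c 2 4 3 + c 2 3 4 * c 3 4 2 - (1/2) * c 2 4 3 * c 2 4 3 - c 2 4 3 * c 3
  4 2 - 2 * c 2 5 2 * c 2 5 2 - 2 * c 2 5 2 * c 3 5 3 - 2 * c 2 5 2 * c 4 5 4 + 2 * c 2 5 2 * c
  5 6 6 - (1/2) * c 2 6 0 * c 2 6 0 - (1/2) * c 3 4 2 * c 3 4 2 - 2 * c 3 5 3 * c 3 5 3 - 2 * c
  3 5 3 * c 4 5 4 + 2 * c 3 5 3 * c 5 6 6 - (1/2) * c 3 6 1 * c 3 6 1 - 2 * c 4 5 4 * c 4 5 4 +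
  2 * c 4 5 4 * c 5 6 6 - 2 * c 5 6 6 * c 5 6 6

/-- weight component of the Jacobi contraction -/
noncomputable def TT6 (c : Fin 7 → Fin 7 → Fin 7 → ℝ) : ℝ :=
  -c 0 1 4 * c 0 5 0 - c 0 1 4 * c 1 5 1 + c 0 1 4 * c 2 4 3 + c 0 1 4 * c 2 6 0 - c 0 1 4 * c
  3 4 2 - c 0 1 4 * c 3 6 1 + c 0 1 4 * c 4 5 4 + c 0 2 6 * c 0 5 0 + c 0 2 6 * c 1 4 0 - c 0 2
  6 * c 1 6 3 + c 0 2 6 * c 2 5 2 + c 0 2 6 * c 3 4 2 + c 0 2 6 * c 3 6 1 + c 0 2 6 * c 5 6 6 +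
  c 0 4 1 * c 0 5 0 + c 0 4 1 * c 1 3 6 - c 0 4 1 * c 1 5 1 - c 0 4 1 * c 1 6 3 + c 0 4 1 * c 2
  3 4 - c 0 4 1 * c 2 6 0 + c 0 4 1 * c 4 5 4 - c 0 5 0 * c 0 6 2 + c 0 5 0 * c 1 4 0 - c 0 5 0
  * c 2 6 0 - c 0 6 2 * c 1 3 6 - c 0 6 2 * c 1 4 0 - c 0 6 2 * c 2 3 4 + c 0 6 2 * c 2 4 3 + c
  0 6 2 * c 2 5 2 + c 0 6 2 * c 5 6 6 - c 1 3 6 * c 1 5 1 + c 1 3 6 * c 2 4 3 + c 1 3 6 * c 2 6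
  0 - c 1 3 6 * c 3 5 3 - c 1 3 6 * c 5 6 6 - c 1 4 0 * c 1 5 1 - c 1 4 0 * c 2 3 4 - c 1 4 0 *
  c 3 6 1 - c 1 4 0 * c 4 5 4 + c 1 5 1 * c 1 6 3 + c 1 5 1 * c 3 6 1 + c 1 6 3 * c 2 3 4 + c 1
  6 3 * c 3 4 2 - c 1 6 3 * c 3 5 3 - c 1 6 3 * c 5 6 6 - c 2 3 4 * c 2 5 2 - c 2 3 4 * c 3 5 3
  + c 2 3 4 * c 4 5 4 + c 2 4 3 * c 2 5 2 - c 2 4 3 * c 3 5 3 + c 2 4 3 * c 3 6 1 + c 2 4 3 * c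
  4 5 4 + c 2 5 2 * c 2 6 0 + c 2 5 2 * c 3 4 2 + c 2 6 0 * c 3 4 2 - c 2 6 0 * c 5 6 6 - c 3 4
  2 * c 3 5 3 - c 3 4 2 * c 4 5 4 - c 3 5 3 * c 3 6 1 + c 3 6 1 * c 5 6 6

theorem brw6 (c : Fin 7 → Fin 7 → Fin 7 → ℝ)
    (h0156 : -c 0 1 4 + c 0 5 0 - c 0 6 2 + c 1 5 1 + c 1 6 3 - c 5 6 6 = 0)
    (h0245 : -c 0 2 6 - c 0 4 1 - c 0 5 0 - c 2 4 3 - c 2 5 2 - c 4 5 4 = 0)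
    (h1345 : -c 1 3 6 - c 1 4 0 + c 1 5 1 - c 3 4 2 + c 3 5 3 + c 4 5 4 = 0)
    (h2356 : -c 2 3 4 + c 2 5 2 + c 2 6 0 + c 3 5 3 - c 3 6 1 - c 5 6 6 = 0) :
    SS6 c + 1 / 2 * u01235 c ^ 2 + 1 / 2 * u03456 c ^ 2 + 1 / 2 * u12456 c ^ 2 - TT6 c = 0 := by
  simp only [SS6, TT6, u01235, u03456, u12456]
  linear_combination (c 0 2 6 + c 0 4 1 - c 1 5 1 + c 2 4 3 - c 3 5 3 + c 5 6 6) * h0156 + (c 0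
  5 0 + c 1 5 1 + c 2 3 4 - c 2 6 0 + c 3 6 1 + c 4 5 4) * h0245 + (-c 0 1 4 + c 0 2 6 + c 0 4
  1 + c 0 5 0 - c 0 6 2 + c 1 6 3 + c 2 4 3 - c 3 5 3) * h1345 + (-c 0 1 4 - c 0 6 2 - c 1 3 6
  - c 1 4 0 + c 1 5 1 + c 1 6 3 - c 2 5 2 - c 3 4 2) * h2356

/-- weight component of the scalar curvature -/
noncomputable def SS7 (c : Fin 7 → Fin 7 → Fin 7 → ℝ) : ℝ :=
  -(1/2) * c 0 1 2 * c 0 1 2 - c 0 1 2 * c 0 2 1 + c 0 1 2 * c 1 2 0 - (1/2) * c 0 2 1 * c 0 2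
  1 - c 0 2 1 * c 1 2 0 - 2 * c 0 3 0 * c 0 3 0 - 2 * c 0 3 0 * c 1 3 1 - 2 * c 0 3 0 * c 2 3 2
  + 2 * c 0 3 0 * c 3 4 4 + 2 * c 0 3 0 * c 3 5 5 + 2 * c 0 3 0 * c 3 6 6 - (1/2) * c 0 4 6 * c
  0 4 6 - c 0 4 6 * c 0 6 4 + c 0 4 6 * c 4 6 0 - (1/2) * c 0 6 4 * c 0 6 4 - c 0 6 4 * c 4 6 0
  - (1/2) * c 1 2 0 * c 1 2 0 - 2 * c 1 3 1 * c 1 3 1 - 2 * c 1 3 1 * c 2 3 2 + 2 * c 1 3 1 * c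
  3 4 4 + 2 * c 1 3 1 * c 3 5 5 + 2 * c 1 3 1 * c 3 6 6 - (1/2) * c 1 5 6 * c 1 5 6 - c 1 5 6 *
  c 1 6 5 + c 1 5 6 * c 5 6 1 - (1/2) * c 1 6 5 * c 1 6 5 - c 1 6 5 * c 5 6 1 - 2 * c 2 3 2 * c
  2 3 2 + 2 * c 2 3 2 * c 3 4 4 + 2 * c 2 3 2 * c 3 5 5 + 2 * c 2 3 2 * c 3 6 6 - (1/2) * c 2 4
  5 * c 2 4 5 - c 2 4 5 * c 2 5 4 + c 2 4 5 * c 4 5 2 - (1/2) * c 2 5 4 * c 2 5 4 - c 2 5 4 * c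
  4 5 2 - 2 * c 3 4 4 * c 3 4 4 - 2 * c 3 4 4 * c 3 5 5 - 2 * c 3 4 4 * c 3 6 6 - 2 * c 3 5 5 *
  c 3 5 5 - 2 * c 3 5 5 * c 3 6 6 - 2 * c 3 6 6 * c 3 6 6 - (1/2) * c 4 5 2 * c 4 5 2 - (1/2) *
  c 4 6 0 * c 4 6 0 - (1/2) * c 5 6 1 * c 5 6 1

/-- weight component of the Jacobi contraction -/
noncomputable def TT7 (c : Fin 7 → Fin 7 → Fin 7 → ℝ) : ℝ :=
  -c 0 1 2 * c 0 3 0 - c 0 1 2 * c 1 3 1 + c 0 1 2 * c 2 3 2 - c 0 1 2 * c 2 4 5 + c 0 1 2 * c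
  2 5 4 - c 0 1 2 * c 4 6 0 + c 0 1 2 * c 5 6 1 + c 0 2 1 * c 0 3 0 - c 0 2 1 * c 1 3 1 - c 0 2
  1 * c 1 5 6 + c 0 2 1 * c 1 6 5 + c 0 2 1 * c 2 3 2 + c 0 2 1 * c 4 5 2 + c 0 2 1 * c 4 6 0 -
  c 0 3 0 * c 0 4 6 + c 0 3 0 * c 0 6 4 + c 0 3 0 * c 1 2 0 + c 0 3 0 * c 4 6 0 - c 0 4 6 * c 1
  2 0 - c 0 4 6 * c 1 6 5 + c 0 4 6 * c 2 5 4 + c 0 4 6 * c 3 4 4 - c 0 4 6 * c 3 6 6 + c 0 4 6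
  * c 5 6 1 + c 0 6 4 * c 1 2 0 - c 0 6 4 * c 1 5 6 + c 0 6 4 * c 2 4 5 + c 0 6 4 * c 3 4 4 - c
  0 6 4 * c 3 6 6 + c 0 6 4 * c 4 5 2 - c 1 2 0 * c 1 3 1 - c 1 2 0 * c 2 3 2 - c 1 2 0 * c 4 5
  2 + c 1 2 0 * c 5 6 1 + c 1 3 1 * c 1 5 6 - c 1 3 1 * c 1 6 5 - c 1 3 1 * c 5 6 1 + c 1 5 6 *
  c 2 4 5 - c 1 5 6 * c 3 5 5 + c 1 5 6 * c 3 6 6 + c 1 5 6 * c 4 6 0 + c 1 6 5 * c 2 5 4 - c 1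
  6 5 * c 3 5 5 + c 1 6 5 * c 3 6 6 - c 1 6 5 * c 4 5 2 - c 2 3 2 * c 2 4 5 + c 2 3 2 * c 2 5 4
  + c 2 3 2 * c 4 5 2 + c 2 4 5 * c 3 4 4 - c 2 4 5 * c 3 5 5 + c 2 4 5 * c 5 6 1 + c 2 5 4 * c
  3 4 4 - c 2 5 4 * c 3 5 5 + c 2 5 4 * c 4 6 0 + c 3 4 4 * c 4 5 2 + c 3 4 4 * c 4 6 0 + c 3 5
  5 * c 4 5 2 - c 3 5 5 * c 5 6 1 + c 3 6 6 * c 4 6 0 - c 3 6 6 * c 5 6 1

theorem brw7 (c : Fin 7 → Fin 7 → Fin 7 → ℝ)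
    (h0136 : -c 0 1 2 + c 0 3 0 + c 0 6 4 + c 1 3 1 - c 1 6 5 - c 3 6 6 = 0)
    (h0234 : c 0 2 1 + c 0 3 0 - c 0 4 6 + c 2 3 2 - c 2 4 5 - c 3 4 4 = 0)
    (h1235 : c 1 2 0 - c 1 3 1 - c 1 5 6 - c 2 3 2 - c 2 5 4 + c 3 5 5 = 0)
    (h3456 : -c 3 4 4 - c 3 5 5 - c 3 6 6 - c 4 5 2 - c 4 6 0 + c 5 6 1 = 0) :
    SS7 c + 1 / 2 * u01345 c ^ 2 + 1 / 2 * u02356 c ^ 2 + 1 / 2 * u12346 c ^ 2 - TT7 c = 0 := by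
  simp only [SS7, TT7, u01345, u02356, u12346]
  linear_combination (-c 0 3 0 - c 1 3 1 - c 2 3 2 + c 3 4 4 + c 3 5 5 + c 3 6 6) * h0136 + (-c
  0 1 2 + c 0 6 4 - c 1 6 5 - c 2 3 2 + c 3 4 4 + c 3 5 5) * h0234 + (c 0 1 2 - c 0 2 1 - c 0 3
  0 + c 0 4 6 - c 0 6 4 + c 1 6 5 + c 2 4 5 - c 3 5 5) * h1235 + (-c 0 1 2 + c 0 2 1 + c 0 3 0
  - c 0 4 6 + c 0 6 4 - c 1 2 0 + c 1 3 1 + c 1 5 6 - c 1 6 5 + c 2 3 2 - c 2 4 5 + c 2 5 4) *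
  h3456

/-- scalar curvature in structure constants -/
noncomputable def scalC (c : Fin 7 → Fin 7 → Fin 7 → ℝ) : ℝ :=
  ∑ i, ∑ j, ∑ k, (-(1 / 4) * (c i j k * c i j k) - 1 / 2 * (c i j k * c i k j))
    - ∑ i, (∑ k, c i k k) * (∑ k, c i k k)

/-- contraction of the Jacobi identity -/
def jacC (c : Fin 7 → Fin 7 → Fin 7 → ℝ) (i j k l : Fin 7) : ℝ :=
  ∑ m, (c j k m * c i m l + c k i m * c j m l + c i j m * c k m l)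

theorem scalC_eq (c : Fin 7 → Fin 7 → Fin 7 → ℝ) (anti : ∀ i j k, c i j k = - c j i k) :
    scalC c = SS0 c + SS1 c + SS2 c + SS3 c + SS4 c + SS5 c + SS6 c + SS7 c := by
  have hd : ∀ i k, c i i k = 0 := fun i k => by have := anti i i k; linarith
  have a10 : ∀ k, c 1 0 k = - c 0 1 k := anti 1 0
  have a20 : ∀ k, c 2 0 k = - c 0 2 k := anti 2 0
  have a21 : ∀ k, c 2 1 k = - c 1 2 k := anti 2 1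
  have a30 : ∀ k, c 3 0 k = - c 0 3 k := anti 3 0
  have a31 : ∀ k, c 3 1 k = - c 1 3 k := anti 3 1
  have a32 : ∀ k, c 3 2 k = - c 2 3 k := anti 3 2
  have a40 : ∀ k, c 4 0 k = - c 0 4 k := anti 4 0
  have a41 : ∀ k, c 4 1 k = - c 1 4 k := anti 4 1
  have a42 : ∀ k, c 4 2 k = - c 2 4 k := anti 4 2
  have a43 : ∀ k, c 4 3 k = - c 3 4 k := anti 4 3
  have a50 : ∀ k, c 5 0 k = - c 0 5 k := anti 5 0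
  have a51 : ∀ k, c 5 1 k = - c 1 5 k := anti 5 1
  have a52 : ∀ k, c 5 2 k = - c 2 5 k := anti 5 2
  have a53 : ∀ k, c 5 3 k = - c 3 5 k := anti 5 3
  have a54 : ∀ k, c 5 4 k = - c 4 5 k := anti 5 4
  have a60 : ∀ k, c 6 0 k = - c 0 6 k := anti 6 0
  have a61 : ∀ k, c 6 1 k = - c 1 6 k := anti 6 1
  have a62 : ∀ k, c 6 2 k = - c 2 6 k := anti 6 2
  have a63 : ∀ k, c 6 3 k = - c 3 6 k := anti 6 3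
  have a64 : ∀ k, c 6 4 k = - c 4 6 k := anti 6 4
  have a65 : ∀ k, c 6 5 k = - c 5 6 k := anti 6 5
  simp only [scalC, Fin.sum_univ_seven, SS0, SS1, SS2, SS3, SS4, SS5, SS6, SS7]
  simp only [hd, a10, a20, a21, a30, a31, a32, a40, a41, a42, a43, a50, a51, a52, a53, a54, a60, a61, a62,
    a63, a64, a65]
  ring

theorem jacC_eq (c : Fin 7 → Fin 7 → Fin 7 → ℝ) (anti : ∀ i j k, c i j k = - c j i k) :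
    - jacC c 1 2 3 0 - jacC c 1 4 5 0 - jacC c 2 5 6 0 - jacC c 3 4 6 0 + jacC c 0 2 3 1 + jacC
    c 0 4 5 1 - jacC c 2 4 6 1 + jacC c 3 5 6 1 - jacC c 0 1 3 2 + jacC c 0 5 6 2 + jacC c 1 4
    6 2 - jacC c 3 4 5 2 + jacC c 0 1 2 3 + jacC c 0 4 6 3 - jacC c 1 5 6 3 + jacC c 2 4 5 3 -
    jacC c 0 1 5 4 - jacC c 0 3 6 4 - jacC c 1 2 6 4 - jacC c 2 3 5 4 + jacC c 0 1 4 5 - jacC c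
    0 2 6 5 + jacC c 1 3 6 5 + jacC c 2 3 4 5 + jacC c 0 2 5 6 + jacC c 0 3 4 6 + jacC c 1 2 4
    6 - jacC c 1 3 5 6 =
    TT0 c + TT1 c + TT2 c + TT3 c + TT4 c + TT5 c + TT6 c + TT7 c := by
  have hd : ∀ i k, c i i k = 0 := fun i k => by have := anti i i k; linarith
  have a10 : ∀ k, c 1 0 k = - c 0 1 k := anti 1 0
  have a20 : ∀ k, c 2 0 k = - c 0 2 k := anti 2 0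
  have a21 : ∀ k, c 2 1 k = - c 1 2 k := anti 2 1
  have a30 : ∀ k, c 3 0 k = - c 0 3 k := anti 3 0
  have a31 : ∀ k, c 3 1 k = - c 1 3 k := anti 3 1
  have a32 : ∀ k, c 3 2 k = - c 2 3 k := anti 3 2
  have a40 : ∀ k, c 4 0 k = - c 0 4 k := anti 4 0
  have a41 : ∀ k, c 4 1 k = - c 1 4 k := anti 4 1
  have a42 : ∀ k, c 4 2 k = - c 2 4 k := anti 4 2
  have a43 : ∀ k, c 4 3 k = - c 3 4 k := anti 4 3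
  have a50 : ∀ k, c 5 0 k = - c 0 5 k := anti 5 0
  have a51 : ∀ k, c 5 1 k = - c 1 5 k := anti 5 1
  have a52 : ∀ k, c 5 2 k = - c 2 5 k := anti 5 2
  have a53 : ∀ k, c 5 3 k = - c 3 5 k := anti 5 3
  have a54 : ∀ k, c 5 4 k = - c 4 5 k := anti 5 4
  have a60 : ∀ k, c 6 0 k = - c 0 6 k := anti 6 0
  have a61 : ∀ k, c 6 1 k = - c 1 6 k := anti 6 1
  have a62 : ∀ k, c 6 2 k = - c 2 6 k := anti 6 2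
  have a63 : ∀ k, c 6 3 k = - c 3 6 k := anti 6 3
  have a64 : ∀ k, c 6 4 k = - c 4 6 k := anti 6 4
  have a65 : ∀ k, c 6 5 k = - c 5 6 k := anti 6 5
  simp only [jacC, Fin.sum_univ_seven, TT0, TT1, TT2, TT3, TT4, TT5, TT6, TT7]
  simp only [hd, a10, a20, a21, a30, a31, a32, a40, a41, a42, a43, a50, a51, a52, a53, a54, a60, a61, a62,
    a63, a64, a65]
  ring

/-- Bryant's formula `scal = - 1/2 |d(*φ)|²` for closed `φ`, in structure constants. -/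
theorem bryant (c : Fin 7 → Fin 7 → Fin 7 → ℝ) (anti : ∀ i j k, c i j k = - c j i k)
    (jac : ∀ i j k l, jacC c i j k l = 0)
    (h0123 : -c 0 1 6 - c 0 2 4 + c 0 3 5 + c 1 2 5 + c 1 3 4 - c 2 3 6 = 0)
    (h0124 : -c 0 1 0 + c 0 2 3 + c 0 4 5 + c 1 2 2 + c 1 4 4 - c 2 4 6 = 0)
    (h0125 : c 0 1 1 + c 0 2 2 + c 0 5 5 - c 1 2 3 + c 1 5 4 - c 2 5 6 = 0)
    (h0126 : c 0 1 3 + c 0 2 0 + c 0 6 5 + c 1 2 1 + c 1 6 4 - c 2 6 6 = 0)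
    (h0134 : c 0 1 1 + c 0 3 3 + c 0 4 4 + c 1 3 2 - c 1 4 5 - c 3 4 6 = 0)
    (h0135 : c 0 1 0 + c 0 3 2 + c 0 5 4 - c 1 3 3 - c 1 5 5 - c 3 5 6 = 0)
    (h0136 : -c 0 1 2 + c 0 3 0 + c 0 6 4 + c 1 3 1 - c 1 6 5 - c 3 6 6 = 0)
    (h0145 : -c 0 1 6 + c 0 4 2 - c 0 5 3 - c 1 4 3 - c 1 5 2 - c 4 5 6 = 0)
    (h0146 : c 0 1 5 + c 0 4 0 - c 0 6 3 + c 1 4 1 - c 1 6 2 - c 4 6 6 = 0)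
    (h0156 : -c 0 1 4 + c 0 5 0 - c 0 6 2 + c 1 5 1 + c 1 6 3 - c 5 6 6 = 0)
    (h0234 : c 0 2 1 + c 0 3 0 - c 0 4 6 + c 2 3 2 - c 2 4 5 - c 3 4 4 = 0)
    (h0235 : c 0 2 0 - c 0 3 1 - c 0 5 6 - c 2 3 3 - c 2 5 5 - c 3 5 4 = 0)
    (h0236 : -c 0 2 2 - c 0 3 3 - c 0 6 6 + c 2 3 1 - c 2 6 5 - c 3 6 4 = 0)
    (h0245 : -c 0 2 6 - c 0 4 1 - c 0 5 0 - c 2 4 3 - c 2 5 2 - c 4 5 4 = 0)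
    (h0246 : c 0 2 5 - c 0 4 3 - c 0 6 0 + c 2 4 1 - c 2 6 2 - c 4 6 4 = 0)
    (h0256 : -c 0 2 4 - c 0 5 3 + c 0 6 1 + c 2 5 1 + c 2 6 3 - c 5 6 4 = 0)
    (h0345 : -c 0 3 6 - c 0 4 0 + c 0 5 1 - c 3 4 3 - c 3 5 2 + c 4 5 5 = 0)
    (h0346 : c 0 3 5 + c 0 4 2 + c 0 6 1 + c 3 4 1 - c 3 6 2 + c 4 6 5 = 0)
    (h0356 : -c 0 3 4 + c 0 5 2 + c 0 6 0 + c 3 5 1 + c 3 6 3 + c 5 6 5 = 0)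
    (h0456 : -c 0 4 4 - c 0 5 5 - c 0 6 6 + c 4 5 1 + c 4 6 3 + c 5 6 2 = 0)
    (h1234 : c 1 2 1 + c 1 3 0 - c 1 4 6 - c 2 3 3 - c 2 4 4 + c 3 4 5 = 0)
    (h1235 : c 1 2 0 - c 1 3 1 - c 1 5 6 - c 2 3 2 - c 2 5 4 + c 3 5 5 = 0)
    (h1236 : -c 1 2 2 - c 1 3 3 - c 1 6 6 - c 2 3 0 - c 2 6 4 + c 3 6 5 = 0)
    (h1245 : -c 1 2 6 - c 1 4 1 - c 1 5 0 - c 2 4 2 + c 2 5 3 + c 4 5 5 = 0)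
    (h1246 : c 1 2 5 - c 1 4 3 - c 1 6 0 - c 2 4 0 + c 2 6 3 + c 4 6 5 = 0)
    (h1256 : -c 1 2 4 - c 1 5 3 + c 1 6 1 - c 2 5 0 + c 2 6 2 + c 5 6 5 = 0)
    (h1345 : -c 1 3 6 - c 1 4 0 + c 1 5 1 - c 3 4 2 + c 3 5 3 + c 4 5 4 = 0)
    (h1346 : c 1 3 5 + c 1 4 2 + c 1 6 1 - c 3 4 0 + c 3 6 3 + c 4 6 4 = 0)
    (h1356 : -c 1 3 4 + c 1 5 2 + c 1 6 0 - c 3 5 0 + c 3 6 2 + c 5 6 4 = 0)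
    (h1456 : -c 1 4 4 - c 1 5 5 - c 1 6 6 - c 4 5 0 + c 4 6 2 - c 5 6 3 = 0)
    (h2345 : -c 2 3 6 - c 2 4 0 + c 2 5 1 + c 3 4 1 + c 3 5 0 - c 4 5 6 = 0)
    (h2346 : c 2 3 5 + c 2 4 2 + c 2 6 1 + c 3 4 3 + c 3 6 0 - c 4 6 6 = 0)
    (h2356 : -c 2 3 4 + c 2 5 2 + c 2 6 0 + c 3 5 3 - c 3 6 1 - c 5 6 6 = 0)
    (h2456 : -c 2 4 4 - c 2 5 5 - c 2 6 6 + c 4 5 3 - c 4 6 1 - c 5 6 0 = 0)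
    (h3456 : -c 3 4 4 - c 3 5 5 - c 3 6 6 - c 4 5 2 - c 4 6 0 + c 5 6 1 = 0) :
    scalC c + 1 / 2 * (
    u01234 c ^ 2 + u01235 c ^ 2 + u01236 c ^ 2 + u01245 c ^ 2 + u01246 c ^ 2 + u01256 c ^ 2 +
    u01345 c ^ 2 + u01346 c ^ 2 + u01356 c ^ 2 + u01456 c ^ 2 + u02345 c ^ 2 + u02346 c ^ 2 +
    u02356 c ^ 2 + u02456 c ^ 2 + u03456 c ^ 2 + u12345 c ^ 2 + u12346 c ^ 2 + u12356 c ^ 2 +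
    u12456 c ^ 2 + u13456 c ^ 2 + u23456 c ^ 2) = 0 := by
  have hj := jacC_eq c anti
  simp only [jac] at hj
  have hs := scalC_eq c anti
  have b0 := brw0 c h0123 h0145 h0256 h0346 h1246 h1356 h2345
  have b1 := brw1 c h0125 h0134 h0236 h0456
  have b2 := brw2 c h0124 h0135 h1236 h1456
  have b3 := brw3 c h0246 h0356 h1256 h1346
  have b4 := brw4 c h0126 h0235 h1234 h2456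
  have b5 := brw5 c h0146 h0345 h1245 h2346
  have b6 := brw6 c h0156 h0245 h1345 h2356
  have b7 := brw7 c h0136 h0234 h1235 h3456
  linear_combination b0 + b1 + b2 + b3 + b4 + b5 + b6 + b7 - hj + hs

end Pool.Agent.H.MP_64d93e_gt
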