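import Pool.Agent.H.MP_64d93e_gt.Kempf2

open Module Submodule Polynomial

namespace Pool.Agent.H.MP_64d93e_gt

variable {n : ℕ} {V : Type*} [AddCommGroup V] [Module ℂ V]

/-- Brackets of generalized eigenvectors of a derivation. -/
theorem lie_mem_maxGenEigenspace {β : V →ₗ[ℂ] V →ₗ[ℂ] V} {T : End ℂ V}
    (hT : ∀ x y, T (β x y) = β (T x) y + β x (T y)) {a b : ℂ} {x y : V}
    (hx : x ∈ T.maxGenEigenspace a) (hy : y ∈ T.maxGenEigenspace b) :
    β x y ∈ T.maxGenEigenspace (a + b) := by
  rw [Module.End.mem_maxGenEigenspace] at hx hy ⊢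
  obtain ⟨k, hk⟩ := hx
  obtain ⟨l, hl⟩ := hy
  refine ⟨k + l, ?_⟩
  have key : ∀ (m k l : ℕ) (x y : V), k + l = m → ((T - a • 1) ^ k) x = 0 → ((T - b • 1) ^ l) y = 0 →
      ((T - (a + b) • 1) ^ m) (β x y) = 0 := by
    intro m
    induction m with
    | zero =>
      intro k l x y h hx hy
      have : k = 0 := by omega
      subst this
      simp only [pow_zero, Module.End.one_apply] at hx
      simp [hx]
    | succ m ih =>
      intro k l x y h hx hy
      have e : (T - (a + b) • 1) (β x y) = β ((T - a • 1) x) y + β x ((T - b • 1) y) := by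
        simp only [add_smul, LinearMap.sub_apply, LinearMap.add_apply, LinearMap.smul_apply,
          Module.End.one_apply, hT, map_sub, map_smul]
        abel
      rw [pow_succ, Module.End.mul_apply, e, map_add]
      have h1 : ((T - (a + b) • 1) ^ m) (β ((T - a • 1) x) y) = 0 := by
        rcases Nat.eq_zero_or_pos k with hk0 | hk0
        · subst hk0
          simp only [pow_zero, Module.End.one_apply] at hx
          simp [hx]
        · apply ih (k - 1) l _ _ (by omega) _ hy
          rw [← Module.End.mul_apply, ← pow_succ]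
          rwa [Nat.sub_add_cancel hk0]
      have h2 : ((T - (a + b) • 1) ^ m) (β x ((T - b • 1) y)) = 0 := by
        rcases Nat.eq_zero_or_pos l with hl0 | hl0
        · subst hl0
          simp only [pow_zero, Module.End.one_apply] at hy
          simp [hy]
        · apply ih k (l - 1) _ _ (by omega) hx
          rw [← Module.End.mul_apply, ← pow_succ]
          rwa [Nat.sub_add_cancel hl0]
      rw [h1, h2, add_zero]
  exact key (k + l) k l x y rfl hk hl

theorem repr_of_mem_span_Iio {b : Basis (Fin n) ℂ V} {i : Fin n} {v : V}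
    (hv : v ∈ span ℂ (b '' Set.Iio i)) : b.repr v i = 0 := by
  rw [Basis.mem_span_image] at hv
  by_contra h
  have := hv (by simpa using h : i ∈ ((b.repr v).support : Set (Fin n)))
  simp at this

/-- upper triangular: `T b_i = λ_i b_i` modulo lower vectors -/
theorem sub_mem_of_flag {b : Basis (Fin n) ℂ V} {T : End ℂ V} {i : Fin n}
    (h : T (b i) ∈ span ℂ (b '' Set.Iic i)) :
    T (b i) - (b.repr (T (b i)) i) • b i ∈ span ℂ (b '' Set.Iio i) := by
  rw [Basis.mem_span_image] at h ⊢
  intro k hk
  simp only [Finset.mem_coe, Finsupp.mem_support_iff, map_sub, map_smul, Basis.repr_self,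
    Finsupp.coe_sub, Pi.sub_apply, Finsupp.smul_single, smul_eq_mul, mul_one] at hk
  rcases eq_or_ne k i with rfl | hne
  · simp at hk
  · rw [Finsupp.single_eq_of_ne hne, sub_zero] at hk
    have := h (by simpa using hk : k ∈ ((b.repr (T (b i))).support : Set (Fin n)))
    exact lt_of_le_of_ne this hne

theorem map_span_Iio {b : Basis (Fin n) ℂ V} {T : End ℂ V}
    (h : ∀ i, T (b i) ∈ span ℂ (b '' Set.Iic i)) (i : Fin n) {v : V}
    (hv : v ∈ span ℂ (b '' Set.Iio i)) : T v ∈ span ℂ (b '' Set.Iio i) := by
  refine span_induction (p := fun v _ => T v ∈ span ℂ (b '' Set.Iio i)) ?_ (by simp) ?_ ?_ hv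
  · rintro _ ⟨j, hj, rfl⟩
    refine span_mono ?_ (h j)
    rintro _ ⟨k, hk, rfl⟩
    exact ⟨k, (lt_of_le_of_lt hk hj : k < i), rfl⟩
  · intro x y _ _ hx hy
    rw [map_add]; exact add_mem hx hy
  · intro c x _ hx
    rw [map_smul]; exact Submodule.smul_mem _ _ hx

theorem aeval_flag {b : Basis (Fin n) ℂ V} {T : End ℂ V}
    (h : ∀ i, T (b i) ∈ span ℂ (b '' Set.Iic i)) (q : ℂ[X]) (i : Fin n) :
    aeval T q (b i) - (q.eval (b.repr (T (b i)) i)) • b i ∈ span ℂ (b '' Set.Iio i) := by
  induction q using Polynomial.induction_on with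
  | C a => simp
  | add p q hp hq =>
    rw [map_add, LinearMap.add_apply, eval_add, add_smul]
    have := add_mem hp hq
    convert this using 1
    abel
  | monomial k a ih =>
    have e1 : aeval T (C a * X ^ (k + 1)) (b i) = T (aeval T (C a * X ^ k) (b i)) := by
      have : C a * X ^ (k + 1) = X * (C a * X ^ k) := by ring
      rw [this, map_mul, aeval_X, Module.End.mul_apply]
    have e2 : eval (b.repr (T (b i)) i) (C a * X ^ (k + 1)) =
        (b.repr (T (b i)) i) * eval (b.repr (T (b i)) i) (C a * X ^ k) := by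
      simp; ring
    rw [e1, e2]
    set μ := b.repr (T (b i)) i with hμ
    set e := eval μ (C a * X ^ k) with he
    have h1 := map_span_Iio h i ih
    rw [map_sub, map_smul] at h1
    have h2 := Submodule.smul_mem _ e (sub_mem_of_flag (h i))
    have h3 := add_mem h1 h2
    convert h3 using 1
    rw [smul_sub, smul_smul, mul_comm μ e]
    abel

theorem exists_cand {β : V →ₗ[ℂ] V →ₗ[ℂ] V} {T : End ℂ V}
    (hT : ∀ x y, T (β x y) = β (T x) y + β x (T y)) {b : Basis (Fin n) ℂ V}
    (h : ∀ i, T (b i) ∈ span ℂ (b '' Set.Iic i)) :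
    ∃ c : Basis (Fin n) ℂ V, Compat β c (fun i => (b.repr (T (b i)) i).re) := by
  classical
  have hfd : FiniteDimensional ℂ V := b.finiteDimensional_of_finite
  set lam : Fin n → ℂ := fun i => b.repr (T (b i)) i with hlam
  let Λ : Finset ℂ := Finset.univ.image lam
  let P : ℂ[X] := ∏ μ ∈ Λ, (X - C μ)
  have hPeval : ∀ i, P.eval (lam i) = 0 := by
    intro i
    simp only [P, eval_prod]
    apply Finset.prod_eq_zero (i := lam i)
    · simp [Λ]
    · simp
  have hPlow : ∀ i, aeval T P (b i) ∈ span ℂ (b '' Set.Iio i) := by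
    intro i
    have := aeval_flag h P i
    rw [show P.eval (b.repr (T (b i)) i) = 0 from hPeval i, zero_smul, sub_zero] at this
    exact this
  have hPk : ∀ (k : ℕ) (i : Fin n), ((aeval T P) ^ k) (b i) ∈ span ℂ (b '' {j | (j : ℕ) + k ≤ i}) := by
    intro k
    induction k with
    | zero =>
      intro i
      simp only [pow_zero, Module.End.one_apply]
      exact subset_span ⟨i, by simp, rfl⟩
    | succ k ih =>
      intro i
      rw [pow_succ, Module.End.mul_apply]
      have h1 := hPlow i
      refine span_induction (p := fun v _ => ((aeval T P) ^ k) v ∈ span ℂ (b '' {j | (j : ℕ) + (k + 1) ≤ i}))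
        ?_ (by simp) ?_ ?_ h1
      · rintro _ ⟨j, hj, rfl⟩
        refine span_mono ?_ (ih j)
        rintro _ ⟨m, hm, rfl⟩
        refine ⟨m, ?_, rfl⟩
        have hj' : (j : ℕ) < i := hj
        simp only [Set.mem_ofPred_eq] at hm ⊢
        omega
      · intro x y _ _ hx hy
        rw [map_add]; exact add_mem hx hy
      · intro c x _ hx
        rw [map_smul]; exact Submodule.smul_mem _ _ hx
  have hPn : (aeval T P) ^ n = 0 := by
    apply b.ext
    intro i
    have h1 := hPk n i
    have h2 : {j : Fin n | (j : ℕ) + n ≤ i} = ∅ := by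
      ext j
      simp only [Set.mem_ofPred_eq, Set.mem_empty_iff_false, iff_false]
      have := i.2
      omega
    rw [h2, Set.image_empty, span_empty, mem_bot] at h1
    simpa using h1
  let q : Fin n → ℂ[X] := fun i => (∏ μ ∈ Λ.erase (lam i), (X - C μ)) ^ n
  have hq : ∀ i, (X - C (lam i)) ^ n * q i = P ^ n := by
    intro i
    simp only [q, P]
    rw [← mul_pow]
    congr 1
    apply Finset.mul_prod_erase Λ (fun μ => X - C μ)
    simp [Λ]
  have hqe : ∀ i, (q i).eval (lam i) ≠ 0 := by
    intro i
    simp only [q, eval_pow, eval_prod]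
    apply pow_ne_zero
    rw [Finset.prod_ne_zero_iff]
    intro μ hμ
    simp only [eval_sub, eval_X, eval_C]
    rw [sub_ne_zero]
    exact (Finset.ne_of_mem_erase hμ).symm
  let f : Fin n → V := fun i => aeval T (q i) (b i)
  have hf1 : ∀ i, f i - ((q i).eval (lam i)) • b i ∈ span ℂ (b '' Set.Iio i) := fun i => aeval_flag h (q i) i
  have hbf : ∀ (k : ℕ) (i : Fin n), (i : ℕ) = k → b i ∈ span ℂ (f '' Set.Iic i) := by
    intro k
    induction k using Nat.strong_induction_on with
    | _ k ih =>
      intro i hi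
      have h1 : span ℂ (b '' Set.Iio i) ≤ span ℂ (f '' Set.Iic i) := by
        rw [span_le]
        rintro _ ⟨j, hj, rfl⟩
        have hj' : (j : ℕ) < i := hj
        refine span_mono ?_ (ih j (by omega) j rfl)
        rintro _ ⟨m, hm, rfl⟩
        exact ⟨m, (le_trans hm (le_of_lt hj) : m ≤ i), rfl⟩
      have h2 := h1 (hf1 i)
      have h3 : f i ∈ span ℂ (f '' Set.Iic i) := subset_span ⟨i, by simp, rfl⟩
      have h4 := sub_mem h3 h2
      rw [sub_sub_cancel] at h4
      have h5 := Submodule.smul_mem _ ((q i).eval (lam i))⁻¹ h4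
      rwa [smul_smul, inv_mul_cancel₀ (hqe i), one_smul] at h5
  have hsp : ⊤ ≤ span ℂ (Set.range f) := by
    rw [← b.span_eq, span_le]
    rintro _ ⟨i, rfl⟩
    exact span_mono (Set.image_subset_range _ _) (hbf i i rfl)
  have hcard : Fintype.card (Fin n) = finrank ℂ V := (finrank_eq_card_basis b).symm
  have hli : LinearIndependent ℂ f := linearIndependent_of_top_le_span_of_card_eq_finrank hsp hcard
  let c : Basis (Fin n) ℂ V := Basis.mk hli hsp
  have hc : ∀ i, c i = f i := fun i => by simp [c]
  have hcmem : ∀ i, c i ∈ T.maxGenEigenspace (lam i) := by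
    intro i
    rw [hc, Module.End.mem_maxGenEigenspace]
    refine ⟨n, ?_⟩
    have e1 : (T - lam i • 1) ^ n = aeval T ((X - C (lam i)) ^ n) := by
      rw [map_pow, map_sub, aeval_X, aeval_C]
      rfl
    simp only [f]
    rw [e1, ← Module.End.mul_apply, ← map_mul, hq, map_pow, hPn]
    simp
  refine ⟨c, ?_⟩
  intro i j k hk
  have h1 : β (c i) (c j) ∈ T.maxGenEigenspace (lam i + lam j) :=
    lie_mem_maxGenEigenspace hT (hcmem i) (hcmem j)
  have h2 : lam k = lam i + lam j := by
    by_contra hne
    set v := β (c i) (c j) with hv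
    set ν := lam i + lam j with hν
    have h3 : v - ∑ m ∈ Finset.univ.filter (fun m => lam m = ν), c.repr v m • c m
        = ∑ m ∈ Finset.univ.filter (fun m => ¬ lam m = ν), c.repr v m • c m := by
      have := Finset.sum_filter_add_sum_filter_not Finset.univ (fun m => lam m = ν)
        (fun m => c.repr v m • c m)
      rw [c.sum_repr v] at this
      exact sub_eq_of_eq_add' this.symm
    have h4 : v - ∑ m ∈ Finset.univ.filter (fun m => lam m = ν), c.repr v m • c m ∈
        T.maxGenEigenspace ν := by
      apply sub_mem h1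
      apply Submodule.sum_mem
      intro m hm
      rw [Finset.mem_filter] at hm
      rw [← hm.2]
      exact Submodule.smul_mem _ _ (hcmem m)
    have h5 : ∑ m ∈ Finset.univ.filter (fun m => ¬ lam m = ν), c.repr v m • c m ∈
        ⨆ μ, ⨆ (_ : μ ≠ ν), T.maxGenEigenspace μ := by
      apply Submodule.sum_mem
      intro m hm
      rw [Finset.mem_filter] at hm
      apply Submodule.smul_mem
      exact Submodule.mem_iSup_of_mem (lam m) (Submodule.mem_iSup_of_mem hm.2 (hcmem m))
    rw [h3] at h4
    have h6 := (Module.End.independent_maxGenEigenspace T) ν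
    have h7 := Submodule.disjoint_def.1 h6 _ h4 h5
    have h8 : ∑ m, (if lam m = ν then 0 else c.repr v m) • c m = 0 := by
      rw [← h7, Finset.sum_filter]
      apply Finset.sum_congr rfl
      intro m _
      by_cases hm : lam m = ν <;> simp [hm]
    have h9 := Fintype.linearIndependent_iff.1 c.linearIndependent _ h8 k
    rw [if_neg hne] at h9
    exact hk h9
  have : (lam k).re = (lam i).re + (lam j).re := by rw [h2, Complex.add_re]
  exact this.symm.le

end Pool.Agent.H.MP_64d93e_gt
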