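import Mathlib

open Module

namespace Pool.Agent.H.MP_64d93e_gt

variable {F : Type*} [NormedAddCommGroup F] [NormedSpace ℂ F] [CompleteSpace F]

/-- The exponential of a derivation is a one-parameter group of automorphisms. -/
theorem exists_flow (β : F →L[ℂ] F →L[ℂ] F) (D : F →L[ℂ] F)
    (hD : ∀ x y, D (β x y) = β (D x) y + β x (D y)) : ∃ φ : ℂ → F → F,
    (∀ t x y, φ t (x + y) = φ t x + φ t y) ∧ (∀ t (c : ℂ) x, φ t (c • x) = c • φ t x) ∧
    (∀ x, φ 0 x = x) ∧ (∀ t x, φ t (φ (-t) x) = x) ∧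
    (∀ t x, HasDerivAt (fun t => φ t x) (D (φ t x)) t) ∧
    (∀ t x y, β (φ t x) (φ t y) = φ t (β x y)) := by
  let φ : ℂ → (F →L[ℂ] F) := fun t => NormedSpace.exp (t • D)
  have hφ : ∀ t, HasDerivAt φ (D * φ t) t := fun t => hasDerivAt_exp_smul_const' D t
  have e0 : φ 0 = 1 := by simp [φ]
  have e1 : ∀ t, φ t * φ (-t) = 1 := by
    intro t
    let _ : NormedAlgebra ℚ (F →L[ℂ] F) := NormedAlgebra.restrictScalars ℚ ℂ _
    have hc : Commute (t • D) (-t • D) := ((Commute.refl D).smul_left t).smul_right (-t)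
    simp only [φ]
    rw [← NormedSpace.exp_add_of_commute hc, ← add_smul, add_neg_cancel, zero_smul, NormedSpace.exp_zero]
  have hψ : ∀ t, HasDerivAt (fun t => φ (-t)) (-(φ (-t) * D)) t := by
    intro t
    have h1 : HasDerivAt φ (φ (-t) * D) (-t) := hasDerivAt_exp_smul_const D (-t)
    have h2 := HasDerivAt.scomp t h1 (hasDerivAt_neg t)
    rw [neg_one_smul] at h2
    exact h2
  have hx : ∀ (x : F) t, HasDerivAt (fun t => φ t x) (D (φ t x)) t := by
    intro x t
    have := (hφ t).clm_apply (hasDerivAt_const t x)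
    simpa using this
  refine ⟨fun t x => φ t x, ?_, ?_, ?_, ?_, ?_, ?_⟩
  · intro t x y; exact map_add _ _ _
  · intro t c x; exact map_smul _ _ _
  · intro x; simp [e0]
  · intro t x
    have := congrArg (fun T : F →L[ℂ] F => T x) (e1 t)
    simpa using this
  · intro t x
    exact hx x t
  · intro t x y
    have hB : ∀ t, HasDerivAt (fun t => β (φ t x)) (β (D (φ t x))) t := by
      intro t
      exact β.hasFDerivAt.comp_hasDerivAt t (hx x t)
    have hBB : ∀ t, HasDerivAt (fun t => β (φ t x) (φ t y))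
        (β (D (φ t x)) (φ t y) + β (φ t x) (D (φ t y))) t := by
      intro t
      exact (hB t).clm_apply (hx y t)
    have hg : ∀ t, HasDerivAt (fun t => φ (-t) (β (φ t x) (φ t y))) 0 t := by
      intro t
      have h := (hψ t).clm_apply (hBB t)
      rw [← hD] at h
      convert h using 1
      simp
    have hconst := is_const_of_deriv_eq_zero (f := fun t => φ (-t) (β (φ t x) (φ t y)))
      (fun t => (hg t).differentiableAt) (fun t => (hg t).deriv) t 0

    rw [neg_zero, e0] at hconst
    have h3 : φ t (φ (-t) (β (φ t x) (φ t y))) = φ t (β x y) := by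
      rw [hconst]
      simp
    have h4 := congrArg (fun T : F →L[ℂ] F => T (β (φ t x) (φ t y))) (e1 t)
    have h5 : φ t (φ (-t) (β (φ t x) (φ t y))) = β (φ t x) (φ t y) := by simpa using h4
    exact h5.symm.trans h3

end Pool.Agent.H.MP_64d93e_gt
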