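import Pool.Agent.H.MP_64d93e_gt.Kempf1
import Pool.Agent.H.MP_64d93e_gt.Flow

open Module Submodule

namespace Pool.Agent.H.MP_64d93e_gt

variable {n : ℕ}

theorem cost_avg (w w' : Fin n → ℝ) :
    cost (fun i => (w i + w' i) / 2) = (cost w + cost w') / 2 - (∑ i, (w i - w' i) ^ 2) / 4 := by
  unfold cost
  rw [← Finset.sum_add_distrib, Finset.sum_div, Finset.sum_div, ← Finset.sum_sub_distrib]
  apply Finset.sum_congr rfl
  intro i _
  ring

theorem filt_unique {β : EC n →ₗ[ℂ] EC n →ₗ[ℂ] EC n} {b b' : Basis (Fin n) ℂ (EC n)}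
    {w w' : Fin n → ℝ} (hw : Antitone w) (hw' : Antitone w')
    (hc : Compat β b w) (hc' : Compat β b' w')
    (hmin : ∀ (b₁ : Basis (Fin n) ℂ (EC n)) (w₁ : Fin n → ℝ), Compat β b₁ w₁ → cost w ≤ cost w₁)
    (heq : cost w' = cost w) (t : ℝ) : Filt b w t = Filt b' w' t := by
  obtain ⟨c, σ, h1, h2⟩ := bruhat n b b'
  have F1 : ∀ t, Filt c w t = Filt b w t := fun t => filt_eq_of_flag hw h1 t
  have F2 : ∀ t, Filt c (w' ∘ σ.symm) t = Filt b' w' t := by
    intro t
    rw [← filt_reindex c (w' ∘ σ.symm) σ]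
    have e : (w' ∘ σ.symm) ∘ σ = w' := by ext; simp
    rw [e]
    apply filt_eq_of_flag hw'
    intro i
    simpa using h2 i
  have C1 : Compat β c w := hc.of_filt_eq F1
  have C2 : Compat β c (w' ∘ σ.symm) := hc'.of_filt_eq F2
  have C3 : Compat β c (fun i => (w i + (w' ∘ σ.symm) i) / 2) := by
    intro i j k hk
    have a1 := C1 i j k hk
    have a2 := C2 i j k hk
    simp only
    linarith
  have h3 := hmin _ _ C3
  rw [cost_avg, cost_sort, heq] at h3
  have h4 : ∑ i, (w i - (w' ∘ σ.symm) i) ^ 2 ≤ 0 := by linarith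
  have h5 : ∑ i, (w i - (w' ∘ σ.symm) i) ^ 2 = 0 :=
    le_antisymm h4 (Finset.sum_nonneg fun _ _ => sq_nonneg _)
  have h6 : w = w' ∘ σ.symm := by
    funext i
    have := (Finset.sum_eq_zero_iff_of_nonneg (fun _ _ => sq_nonneg _)).1 h5 i (Finset.mem_univ i)
    have := pow_eq_zero_iff (two_ne_zero) |>.1 this
    linarith
  rw [← F1, ← F2, ← h6]

/-- the continuous version of a bilinear map -/
noncomputable def bilCLM (β : EC n →ₗ[ℂ] EC n →ₗ[ℂ] EC n) : EC n →L[ℂ] EC n →L[ℂ] EC n :=
  LinearMap.toContinuousLinearMap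
    ((LinearMap.toContinuousLinearMap : (EC n →ₗ[ℂ] EC n) ≃ₗ[ℂ] (EC n →L[ℂ] EC n)).toLinearMap ∘ₗ β)

theorem bilCLM_apply (β : EC n →ₗ[ℂ] EC n →ₗ[ℂ] EC n) (x y : EC n) : bilCLM β x y = β x y := rfl

/-- The filtration of a minimizer is invariant under derivations. -/
theorem deriv_invariant {β : EC n →ₗ[ℂ] EC n →ₗ[ℂ] EC n} {b : Basis (Fin n) ℂ (EC n)}
    {w : Fin n → ℝ} (hw : Antitone w) (hc : Compat β b w)
    (hmin : ∀ (b₁ : Basis (Fin n) ℂ (EC n)) (w₁ : Fin n → ℝ), Compat β b₁ w₁ → cost w ≤ cost w₁)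
    (D : EC n →ₗ[ℂ] EC n) (hD : ∀ x y, D (β x y) = β (D x) y + β x (D y))
    {t : ℝ} {v : EC n} (hv : v ∈ Filt b w t) : D v ∈ Filt b w t := by
  obtain ⟨φ, hadd, hsmul, h0, hinv, hder, haut⟩ :=
    exists_flow (bilCLM β) (LinearMap.toContinuousLinearMap D) (fun x y => hD x y)
  have hinv' : ∀ s x, φ (-s) (φ s x) = x := by
    intro s x
    have := hinv (-s) x
    rwa [neg_neg] at this
  let e : ℂ → (EC n ≃ₗ[ℂ] EC n) := fun s =>
    { toFun := φ s
      map_add' := hadd s
      map_smul' := hsmul s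
      invFun := φ (-s)
      left_inv := hinv' s
      right_inv := hinv s }
  have he : ∀ s x, e s x = φ s x := fun s x => rfl
  have hmem : ∀ s, φ s v ∈ Filt b w t := by
    intro s
    have hc' : Compat β (b.map (e s)) w := by
      intro i j k hk
      apply hc i j k
      intro h
      apply hk
      have h1 : β ((b.map (e s)) i) ((b.map (e s)) j) = e s (β (b i) (b j)) := by
        simp only [Basis.map_apply, he]
        exact haut s (b i) (b j)
      rw [h1]
      simpa using h
    have hF := filt_unique hw hw hc hc' hmin rfl t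
    rw [hF]
    rw [mem_filt] at hv ⊢
    intro k hk
    apply hv k
    intro h
    apply hk
    rw [← he]
    simpa using h
  rw [mem_filt]
  intro k hk
  by_contra hlt
  apply hk
  have hz : ∀ s, b.coord k (φ s v) = 0 := by
    intro s
    by_contra hne
    exact hlt (mem_filt.1 (hmem s) k (by simpa using hne))
  have hd := hder 0 v
  have hd2 : HasDerivAt (fun s => (LinearMap.toContinuousLinearMap (b.coord k)) (φ s v))
      ((LinearMap.toContinuousLinearMap (b.coord k)) (D v)) 0 := by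
    have := (LinearMap.toContinuousLinearMap (b.coord k)).hasFDerivAt.comp_hasDerivAt (0 : ℂ) hd
    rw [h0] at this
    exact this
  have hd3 : HasDerivAt (fun _ : ℂ => (0 : ℂ)) ((LinearMap.toContinuousLinearMap (b.coord k)) (D v)) 0 := by
    have e1 : (fun s => (LinearMap.toContinuousLinearMap (b.coord k)) (φ s v)) = fun _ : ℂ => (0 : ℂ) := by
      funext s
      exact hz s
    rw [e1] at hd2
    exact hd2
  have hd4 := hd3.unique (hasDerivAt_const (0 : ℂ) (0 : ℂ))
  simpa using hd4

/-- **Kempf lemma.** A compatible weighted basis can be improved to an orthonormal one with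
nonnegative antitone weights and filtration by ideals. -/
theorem kempf {β : EC n →ₗ[ℂ] EC n →ₗ[ℂ] EC n} (hA : ∀ x y, β x y = - β y x)
    (hJ : ∀ x y z, β x (β y z) = β (β x y) z + β y (β x z)) {b₀ : Basis (Fin n) ℂ (EC n)}
    {w₀ : Fin n → ℝ} (h₀ : Compat β b₀ w₀) :
    ∃ (u : OrthonormalBasis (Fin n) ℂ (EC n)) (w : Fin n → ℝ),
      (∀ i, 0 ≤ w i) ∧ cost w ≤ cost w₀ ∧
      (∀ i j k, inner ℂ (u k) (β (u i) (u j)) ≠ 0 → w i + w j ≤ w k) ∧
      (∀ x j k, inner ℂ (u k) (β x (u j)) ≠ 0 → w j ≤ w k) := by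
  obtain ⟨u, w, hanti, hc, hle, hmin⟩ := exists_min β h₀
  have hideal : ∀ x j k, inner ℂ (u k) (β x (u j)) ≠ 0 → w j ≤ w k := by
    intro x j k hne
    have h1 : β x (u j) ∈ Filt u.toBasis w (w j) := by
      apply deriv_invariant hanti hc hmin (β x) (fun y z => hJ x y z)
      have := self_mem_filt u.toBasis w j
      simpa using this
    rw [mem_filt] at h1
    apply h1 k
    simpa [OrthonormalBasis.repr_apply_apply] using hne
  have hideal' : ∀ x i k, inner ℂ (u k) (β (u i) x) ≠ 0 → w i ≤ w k := by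
    intro x i k hne
    apply hideal x i k
    rw [hA] at hne
    simpa using hne
  refine ⟨u, fun i => max (w i) 0, fun i => le_max_right _ _, ?_, ?_, ?_⟩
  · refine le_trans ?_ hle
    unfold cost
    apply Finset.sum_le_sum
    intro i _
    simp only
    rcases le_total 0 (w i) with h | h
    · rw [max_eq_left h]
    · rw [max_eq_right h]
      nlinarith
  · intro i j k hne
    have a1 := hideal _ _ _ hne
    have a2 := hideal' _ _ _ hne
    have a3 : w i + w j ≤ w k := by
      apply hc i j k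
      simpa [OrthonormalBasis.repr_apply_apply] using hne
    rcases le_total 0 (w i) with hi | hi <;> rcases le_total 0 (w j) with hj | hj <;>
      rcases le_total 0 (w k) with hk | hk <;>
      simp only [max_eq_left, max_eq_right, hi, hj, hk] <;> linarith
  · intro x j k hne
    exact max_le_max (hideal x j k hne) le_rfl

end Pool.Agent.H.MP_64d93e_gt
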