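import Pool.Agent.H.MP_64d93e_gt.Curv2
import Pool.Agent.H.MP_64d93e_gt.Kempf2

open Module

namespace Pool.Agent.H.MP_64d93e_gt

variable {n : ℕ}

/-- standard complex basis vector -/
noncomputable abbrev cE (i : Fin n) : EC n := EuclideanSpace.single i (1 : ℂ)

/-- the embedding `ℝⁿ → ℂⁿ` -/
noncomputable def toC (x : RV n) : EC n := ∑ i, (x i : ℂ) • cE i

theorem toC_apply (x : RV n) (i : Fin n) : toC x i = (x i : ℂ) := by
  simp [toC, Finset.sum_apply, cE, Pi.single_apply]

theorem toC_add (x y : RV n) : toC (x + y) = toC x + toC y := by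
  ext i; simp [toC_apply]

theorem toC_smul (c : ℝ) (x : RV n) : toC (c • x) = (c : ℂ) • toC x := by
  ext i; simp [toC_apply]

theorem toC_zero : toC (0 : RV n) = 0 := by
  ext i; simp [toC_apply]

theorem toC_sum {ι : Type*} (s : Finset ι) (f : ι → RV n) : toC (∑ i ∈ s, f i) = ∑ i ∈ s, toC (f i) := by
  classical
  induction s using Finset.induction_on with
  | empty => simp [toC_zero]
  | insert a s ha ih => rw [Finset.sum_insert ha, Finset.sum_insert ha, toC_add, ih]

theorem toC_stdE (i : Fin n) : toC (stdE i) = cE i := by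
  ext j
  rw [toC_apply]
  by_cases h : j = i
  · subst h; simp [stdE, cE]
  · simp [stdE, cE, h]

/-- the standard complex basis -/
noncomputable def cB (n : ℕ) : OrthonormalBasis (Fin n) ℂ (EC n) := EuclideanSpace.basisFun (Fin n) ℂ

theorem cB_apply (i : Fin n) : cB n i = cE i := by simp [cB, cE]

theorem sum_cE (u : EC n) : ∑ i, u i • cE i = u := by
  have := (cB n).sum_repr u
  simpa [cB, cE] using this

/-- complexification of a linear map -/
noncomputable def linC (A : RV n →ₗ[ℝ] RV n) : EC n →ₗ[ℂ] EC n :=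
  (cB n).toBasis.constr ℂ (fun i => toC (A (stdE i)))

theorem linC_cE (A : RV n →ₗ[ℝ] RV n) (i : Fin n) : linC A (cE i) = toC (A (stdE i)) := by
  have : (cB n).toBasis i = cE i := by simp [cB, cE]
  rw [linC, ← this, Basis.constr_basis]

theorem linC_toC (A : RV n →ₗ[ℝ] RV n) (x : RV n) : linC A (toC x) = toC (A x) := by
  conv_rhs => rw [← sum_stdE x]
  rw [toC, map_sum, map_sum, toC_sum]
  apply Finset.sum_congr rfl; intro i _
  rw [map_smul, map_smul, linC_cE, toC_smul, inner_stdE]

/-- two complex linear maps agreeing on real vectors are equal -/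
theorem ext_real {W : Type*} [AddCommGroup W] [Module ℂ W] {f g : EC n →ₗ[ℂ] W}
    (h : ∀ x : RV n, f (toC x) = g (toC x)) : f = g := by
  apply (cB n).toBasis.ext
  intro i
  have : (cB n).toBasis i = toC (stdE i) := by rw [toC_stdE]; simp [cB, cE]
  rw [this, h]

/-- complexification of a bracket -/
noncomputable def brC (μ : Br n) : EC n →ₗ[ℂ] EC n →ₗ[ℂ] EC n :=
  (cB n).toBasis.constr ℂ (fun i => linC (μ (stdE i)))

theorem brC_cE (μ : Br n) (i : Fin n) : brC μ (cE i) = linC (μ (stdE i)) := by
  have : (cB n).toBasis i = cE i := by simp [cB, cE]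
  rw [brC, ← this, Basis.constr_basis]

theorem linC_add (A B : RV n →ₗ[ℝ] RV n) : linC (A + B) = linC A + linC B := by
  apply ext_real
  intro x
  simp only [LinearMap.add_apply, linC_toC, toC_add]

theorem linC_smul (c : ℝ) (A : RV n →ₗ[ℝ] RV n) : linC (c • A) = (c : ℂ) • linC A := by
  apply ext_real
  intro x
  simp only [LinearMap.smul_apply, linC_toC, toC_smul]

theorem linC_comp (A B : RV n →ₗ[ℝ] RV n) : linC (A ∘ₗ B) = linC A ∘ₗ linC B := by
  apply ext_real
  intro x
  simp only [LinearMap.comp_apply, linC_toC]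

theorem linC_sum {ι : Type*} (s : Finset ι) (f : ι → RV n →ₗ[ℝ] RV n) :
    linC (∑ i ∈ s, f i) = ∑ i ∈ s, linC (f i) := by
  apply ext_real
  intro x
  simp only [LinearMap.sum_apply, linC_toC, toC_sum]

theorem brC_toC (μ : Br n) (x : RV n) : brC μ (toC x) = linC (μ x) := by
  have e : μ x = ∑ i, x i • μ (stdE i) := by
    conv_lhs => rw [← sum_stdE x, map_sum]
    apply Finset.sum_congr rfl; intro i _
    rw [map_smul, inner_stdE]
  rw [e, toC, map_sum, linC_sum]
  apply Finset.sum_congr rfl; intro i _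
  rw [map_smul, brC_cE, linC_smul]

theorem brC_toC_toC (μ : Br n) (x y : RV n) : brC μ (toC x) (toC y) = toC (μ x y) := by
  rw [brC_toC, linC_toC]

theorem brC_anti {μ : Br n} (h : IsLie μ) (x y : EC n) : brC μ x y = - brC μ y x := by
  have e : brC μ = - (brC μ).flip := by
    apply ext_real; intro x
    apply ext_real; intro y
    rw [LinearMap.neg_apply, LinearMap.neg_apply, LinearMap.flip_apply, brC_toC_toC, brC_toC_toC,
      h.anti x y]
    ext i; simp [toC_apply]
  have := congrArg (fun f => f x y) e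
  simpa using this

theorem brC_jac {μ : Br n} (h : IsLie μ) (x y z : EC n) :
    brC μ x (brC μ y z) = brC μ (brC μ x y) z + brC μ y (brC μ x z) := by
  have e1 : ∀ (x y : RV n), brC μ (toC x) ∘ₗ brC μ (toC y) =
      brC μ (brC μ (toC x) (toC y)) + brC μ (toC y) ∘ₗ brC μ (toC x) := by
    intro x y
    apply ext_real; intro z
    simp only [LinearMap.comp_apply, LinearMap.add_apply, brC_toC_toC, ← toC_add]
    rw [h.jac x y z]
  have e2 : ∀ (x : RV n) (z : EC n), brC μ (toC x) ∘ₗ (brC μ).flip z =
      (brC μ).flip z ∘ₗ brC μ (toC x) + (brC μ).flip (brC μ (toC x) z) := by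
    intro x z
    apply ext_real; intro y
    have := congrArg (fun f => f z) (e1 x y)
    simpa using this
  have e3 : ∀ (y z : EC n), (brC μ).flip (brC μ y z) =
      (brC μ).flip z ∘ₗ (brC μ).flip y + brC μ y ∘ₗ (brC μ).flip z := by
    intro y z
    apply ext_real; intro x
    have := congrArg (fun f => f y) (e2 x z)
    simpa using this
  have := congrArg (fun f => f x) (e3 y z)
  simpa using this

theorem linC_der {μ : Br n} {D : RV n →ₗ[ℝ] RV n} (hD : IsDer μ D) (x y : EC n) :
    linC D (brC μ x y) = brC μ (linC D x) y + brC μ x (linC D y) := by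
  have e1 : ∀ (x : RV n), linC D ∘ₗ brC μ (toC x) =
      brC μ (linC D (toC x)) + brC μ (toC x) ∘ₗ linC D := by
    intro x
    apply ext_real; intro y
    simp only [LinearMap.comp_apply, LinearMap.add_apply, brC_toC_toC, linC_toC, ← toC_add]
    rw [hD]
  have e2 : ∀ (y : EC n), linC D ∘ₗ (brC μ).flip y =
      (brC μ).flip y ∘ₗ linC D + (brC μ).flip (linC D y) := by
    intro y
    apply ext_real; intro x
    have := congrArg (fun f => f y) (e1 x)
    simpa using this
  have := congrArg (fun f => f x) (e2 y)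
  simpa using this

/-- complexified derived series -/
noncomputable def dsC (μ : Br n) (k : ℕ) : Submodule ℂ (EC n) :=
  Submodule.span ℂ (toC '' (derSeries μ k : Set (RV n)))

theorem dsC_zero (μ : Br n) : dsC μ 0 = ⊤ := by
  rw [eq_top_iff, ← (cB n).toBasis.span_eq, Submodule.span_le]
  rintro _ ⟨i, rfl⟩
  have : (cB n).toBasis i = toC (stdE i) := by rw [toC_stdE]; simp [cB, cE]
  rw [this]
  exact Submodule.subset_span ⟨stdE i, by simp [derSeries], rfl⟩

theorem dsC_bot {μ : Br n} {k : ℕ} (h : derSeries μ k = ⊥) : dsC μ k = ⊥ := by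
  rw [dsC, h]
  simp [toC_zero]

theorem dsC_step (μ : Br n) (k : ℕ) (x : EC n) (hx : x ∈ dsC μ k) (y : EC n) (hy : y ∈ dsC μ k) :
    brC μ x y ∈ dsC μ (k + 1) := by
  refine Submodule.span_induction (p := fun x _ => brC μ x y ∈ dsC μ (k + 1)) ?_ (by simp) ?_ ?_ hx
  · rintro _ ⟨a, ha, rfl⟩
    refine Submodule.span_induction (p := fun y _ => brC μ (toC a) y ∈ dsC μ (k + 1)) ?_ (by simp) ?_ ?_ hy
    · rintro _ ⟨b, hb, rfl⟩
      rw [brC_toC_toC]
      exact Submodule.subset_span ⟨μ a b, Submodule.subset_span ⟨a, ha, b, hb, rfl⟩, rfl⟩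
    · intro u v _ _ hu hv
      rw [map_add]; exact add_mem hu hv
    · intro c u _ hu
      rw [map_smul]; exact Submodule.smul_mem _ _ hu
  · intro u v _ _ hu hv
    rw [map_add, LinearMap.add_apply]; exact add_mem hu hv
  · intro c u _ hu
    rw [map_smul, LinearMap.smul_apply]; exact Submodule.smul_mem _ _ hu

end Pool.Agent.H.MP_64d93e_gt
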