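import Pool.Agent.H.MP_64d93e_gt.Defs

open Module

namespace Pool.Agent.H.MP_64d93e_gt

variable {n : ℕ}

theorem sum_symm {f g : Fin n → Fin n → ℝ} (h : ∀ k p, f k p + f p k = g k p + g p k) :
    ∑ k, ∑ p, f k p = ∑ k, ∑ p, g k p := by
  have h1 : ∑ k, ∑ p, f k p + ∑ k, ∑ p, f k p = ∑ k, ∑ p, g k p + ∑ k, ∑ p, g k p := by
    conv_lhs => rw [← Finset.sum_add_distrib]
    conv_rhs => rw [← Finset.sum_add_distrib]
    have e1 : ∑ k, (∑ p, f k p + ∑ p, f k p) = ∑ k, ∑ p, (f k p + f p k) := by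
      simp only [Finset.sum_add_distrib]
      congr 1
      exact Finset.sum_comm
    have e2 : ∑ k, (∑ p, g k p + ∑ p, g k p) = ∑ k, ∑ p, (g k p + g p k) := by
      simp only [Finset.sum_add_distrib]
      congr 1
      exact Finset.sum_comm
    rw [e1, e2]
    exact Finset.sum_congr rfl fun k _ => Finset.sum_congr rfl fun p _ => h k p
  linarith

theorem inner_stdE (x : RV n) (k : Fin n) : inner ℝ x (stdE k) = x k := by
  simp [stdE, EuclideanSpace.inner_single_right]

theorem inner_stdE' (x : RV n) (k : Fin n) : inner ℝ (stdE k) x = x k := by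
  rw [real_inner_comm, inner_stdE]

theorem sum_stdE (x : RV n) : ∑ k, inner ℝ x (stdE k) • stdE k = x := by
  have := (EuclideanSpace.basisFun (Fin n) ℝ).sum_repr x
  simp only [EuclideanSpace.basisFun_apply, EuclideanSpace.basisFun_repr] at this
  simp only [inner_stdE]
  exact this

theorem inner_eq_sum (x y : RV n) :
    inner ℝ x y = ∑ k, inner ℝ x (stdE k) * inner ℝ y (stdE k) := by
  conv_lhs => rw [← sum_stdE x]
  rw [sum_inner]
  apply Finset.sum_congr rfl
  intro k _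
  rw [real_inner_smul_left, real_inner_comm y (stdE k)]

theorem trace_eq (A : RV n →ₗ[ℝ] RV n) :
    LinearMap.trace ℝ (RV n) A = ∑ k, inner ℝ (A (stdE k)) (stdE k) := by
  rw [LinearMap.trace_eq_sum_inner A (EuclideanSpace.basisFun (Fin n) ℝ)]
  apply Finset.sum_congr rfl
  intro k _
  rw [EuclideanSpace.basisFun_apply, real_inner_comm]

theorem IsLie.anti {μ : Br n} (h : IsLie μ) (x y : RV n) : μ x y = - μ y x := by
  have h1 := h.1 (x + y)
  simp only [map_add, LinearMap.add_apply, h.1, zero_add, add_zero] at h1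
  exact eq_neg_of_add_eq_zero_right h1

theorem IsLie.jac {μ : Br n} (h : IsLie μ) (x y z : RV n) :
    μ x (μ y z) = μ (μ x y) z + μ y (μ x z) := by
  have h1 := h.2 x y z
  rw [h.anti z (μ x y), h.anti z x, map_neg] at h1
  have h2 : μ x (μ y z) - μ y (μ x z) - μ (μ x y) z = 0 := by
    rw [← h1]; abel
  rw [sub_sub, sub_eq_zero] at h2
  rw [h2]; abel

/-- trace of `ad x` -/
noncomputable def trAd (μ : Br n) (x : RV n) : ℝ := LinearMap.trace ℝ (RV n) (μ x)

theorem trAd_eq (μ : Br n) (x : RV n) : trAd μ x = ∑ k, inner ℝ (μ x (stdE k)) (stdE k) := trace_eq _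

/-- the mean curvature vector -/
noncomputable def Hv (μ : Br n) : RV n := ∑ k, trAd μ (stdE k) • stdE k

theorem inner_Hv (μ : Br n) (x : RV n) : inner ℝ (Hv μ) x = trAd μ x := by
  have e1 : trAd μ x = ∑ k, inner ℝ x (stdE k) * trAd μ (stdE k) := by
    conv_lhs => rw [← sum_stdE x]
    simp only [trAd, map_sum, map_smul, smul_eq_mul]
  rw [e1, Hv, sum_inner]
  apply Finset.sum_congr rfl
  intro k _
  rw [real_inner_smul_left, mul_comm, real_inner_comm]

theorem trAd_lie {μ : Br n} (h : IsLie μ) (x y : RV n) : trAd μ (μ x y) = 0 := by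
  have e : μ (μ x y) = μ x ∘ₗ μ y - μ y ∘ₗ μ x := by
    ext1 z
    simp only [LinearMap.sub_apply, LinearMap.comp_apply]
    rw [h.jac x y z]
    abel
  rw [trAd, e, map_sub, LinearMap.trace_comp_comm', sub_self]

/-- moment map part of the Ricci curvature -/
noncomputable def Mf (μ : Br n) (x y : RV n) : ℝ :=
  -(1 / 2) * ∑ i, inner ℝ (μ x (stdE i)) (μ y (stdE i)) +
  1 / 4 * ∑ i, ∑ j, inner ℝ (μ (stdE i) (stdE j)) x * inner ℝ (μ (stdE i) (stdE j)) y

/-- Killing form -/
noncomputable def Bf (μ : Br n) (x y : RV n) : ℝ := LinearMap.trace ℝ (RV n) (μ x ∘ₗ μ y)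

/-- modified Ricci curvature -/
noncomputable def Rs (μ : Br n) (x y : RV n) : ℝ := Mf μ x y - 1 / 2 * Bf μ x y

/-- symmetric part of `ad H` -/
noncomputable def Sh (μ : Br n) (x y : RV n) : ℝ :=
  1 / 2 * (inner ℝ (μ (Hv μ) x) y + inner ℝ (μ (Hv μ) y) x)

theorem inner_nabla {μ : Br n} (x y w : RV n) :
    inner ℝ (nabla μ x y) w = 1 / 2 * (inner ℝ (μ x y) w - inner ℝ (μ y w) x + inner ℝ (μ w x) y) := by
  rw [nabla, sum_inner]
  conv_rhs => rw [← sum_stdE w]
  simp only [inner_sum, map_sum, LinearMap.sum_apply, sum_inner, map_smul, LinearMap.smul_apply,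
    real_inner_smul_left, real_inner_smul_right]
  rw [← Finset.sum_sub_distrib, ← Finset.sum_add_distrib, Finset.mul_sum]
  apply Finset.sum_congr rfl
  intro k _
  rw [real_inner_comm (stdE k) w]
  ring

theorem ric_eq {μ : Br n} (h : IsLie μ) (y z : RV n) : ric μ y z = Rs μ y z - Sh μ y z := by
  have T1 : ∑ k, inner ℝ (nabla μ (stdE k) (nabla μ y z)) (stdE k) = - Sh μ y z := by
    have e1 : ∀ w, ∑ k, inner ℝ (nabla μ (stdE k) w) (stdE k) = - trAd μ w := by
      intro w
      rw [trAd_eq, ← Finset.sum_neg_distrib]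
      apply Finset.sum_congr rfl
      intro k _
      rw [inner_nabla, h.1, inner_zero_left, h.anti (stdE k) w, inner_neg_left]
      ring
    rw [e1, ← inner_Hv, real_inner_comm, inner_nabla, real_inner_comm, inner_Hv, trAd_lie h, Sh,
      h.anti z (Hv μ), inner_neg_left]
    ring
  have T2 : ∑ k, inner ℝ (nabla μ y (nabla μ (stdE k) z)) (stdE k) =
      - ∑ k, ∑ p, (1 / 2 * (- inner ℝ (μ z (stdE k)) (stdE p) - inner ℝ (μ z (stdE p)) (stdE k)
        - inner ℝ (μ (stdE k) (stdE p)) z)) * (1 / 2 * (inner ℝ (μ y (stdE k)) (stdE p) -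
        inner ℝ (μ (stdE k) (stdE p)) y - inner ℝ (μ y (stdE p)) (stdE k))) := by
    rw [← Finset.sum_neg_distrib]
    apply Finset.sum_congr rfl
    intro k _
    have e1 : ∀ a b, inner ℝ (nabla μ y a) b = - inner ℝ a (nabla μ y b) := by
      intro a b
      rw [real_inner_comm (nabla μ y b) a, inner_nabla, inner_nabla, h.anti a b, h.anti b y,
        h.anti a y]
      simp only [inner_neg_left]
      ring
    rw [e1, inner_eq_sum]
    congr 1
    apply Finset.sum_congr rfl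
    intro p _
    rw [inner_nabla, inner_nabla, h.anti (stdE k) z, h.anti (stdE p) (stdE k), h.anti (stdE p) y]
    simp only [inner_neg_left]
    ring
  have T3 : ∑ k, inner ℝ (nabla μ (μ (stdE k) y) z) (stdE k) =
      ∑ k, ∑ p, 1 / 2 * (inner ℝ (μ y (stdE k)) (stdE p) * inner ℝ (μ z (stdE p)) (stdE k) +
        inner ℝ (μ z (stdE k)) (stdE p) * inner ℝ (μ y (stdE k)) (stdE p) -
        inner ℝ (μ y (stdE k)) (stdE p) * inner ℝ (μ (stdE k) (stdE p)) z) := by
    apply Finset.sum_congr rfl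
    intro k _
    rw [inner_nabla, h.anti (stdE k) y]
    have e1 : inner ℝ (μ (-μ y (stdE k)) z) (stdE k) =
        ∑ p, inner ℝ (μ y (stdE k)) (stdE p) * inner ℝ (μ z (stdE p)) (stdE k) := by
      conv_lhs => rw [← sum_stdE (μ y (stdE k)), h.anti, map_neg, neg_neg]
      simp only [map_sum, sum_inner, map_smul, real_inner_smul_left]
    have e2 : inner ℝ (μ z (stdE k)) (-μ y (stdE k)) =
        - ∑ p, inner ℝ (μ z (stdE k)) (stdE p) * inner ℝ (μ y (stdE k)) (stdE p) := by
      rw [inner_neg_right, inner_eq_sum]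
    have e3 : inner ℝ (μ (stdE k) (-μ y (stdE k))) z =
        - ∑ p, inner ℝ (μ y (stdE k)) (stdE p) * inner ℝ (μ (stdE k) (stdE p)) z := by
      conv_lhs => rw [← sum_stdE (μ y (stdE k))]
      simp only [map_neg, map_sum, sum_inner, map_smul, real_inner_smul_left, inner_neg_left]
    rw [e1, e2, e3, ← Finset.mul_sum, Finset.sum_sub_distrib, Finset.sum_add_distrib]
    ring
  have hM : Mf μ y z = ∑ k, ∑ p, (-(1 / 2) * (inner ℝ (μ y (stdE k)) (stdE p) *
      inner ℝ (μ z (stdE k)) (stdE p)) + 1 / 4 * (inner ℝ (μ (stdE k) (stdE p)) y *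
      inner ℝ (μ (stdE k) (stdE p)) z)) := by
    rw [Mf]
    simp only [Finset.sum_add_distrib, ← Finset.mul_sum]
    congr 2
    apply Finset.sum_congr rfl
    intro k _
    rw [inner_eq_sum]
  have hB : Bf μ y z = ∑ k, ∑ p, inner ℝ (μ z (stdE k)) (stdE p) * inner ℝ (μ y (stdE p)) (stdE k) := by
    rw [Bf, trace_eq]
    apply Finset.sum_congr rfl
    intro k _
    rw [LinearMap.comp_apply]
    conv_lhs => rw [← sum_stdE (μ z (stdE k))]
    simp only [map_sum, sum_inner, map_smul, real_inner_smul_left]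
  have hric : ric μ y z = ∑ k, inner ℝ (nabla μ (stdE k) (nabla μ y z)) (stdE k)
      - ∑ k, inner ℝ (nabla μ y (nabla μ (stdE k) z)) (stdE k)
      - ∑ k, inner ℝ (nabla μ (μ (stdE k) y) z) (stdE k) := by
    rw [ric, ← Finset.sum_sub_distrib, ← Finset.sum_sub_distrib]
    apply Finset.sum_congr rfl
    intro k _
    rw [riem, inner_sub_left, inner_sub_left]
  have hB' : 1 / 2 * Bf μ y z = ∑ k, ∑ p, 1 / 2 * (inner ℝ (μ z (stdE k)) (stdE p) *
      inner ℝ (μ y (stdE p)) (stdE k)) := by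
    rw [hB, Finset.mul_sum]
    exact Finset.sum_congr rfl fun k _ => Finset.mul_sum _ _ _
  rw [hric, T1, T2, T3, Rs, hM, hB']
  have key : ∑ k, ∑ p, ((1 / 2 * (- inner ℝ (μ z (stdE k)) (stdE p) - inner ℝ (μ z (stdE p)) (stdE k)
        - inner ℝ (μ (stdE k) (stdE p)) z)) * (1 / 2 * (inner ℝ (μ y (stdE k)) (stdE p) -
        inner ℝ (μ (stdE k) (stdE p)) y - inner ℝ (μ y (stdE p)) (stdE k))) -
        1 / 2 * (inner ℝ (μ y (stdE k)) (stdE p) * inner ℝ (μ z (stdE p)) (stdE k) +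
        inner ℝ (μ z (stdE k)) (stdE p) * inner ℝ (μ y (stdE k)) (stdE p) -
        inner ℝ (μ y (stdE k)) (stdE p) * inner ℝ (μ (stdE k) (stdE p)) z)) =
      ∑ k, ∑ p, ((-(1 / 2) * (inner ℝ (μ y (stdE k)) (stdE p) *
      inner ℝ (μ z (stdE k)) (stdE p)) + 1 / 4 * (inner ℝ (μ (stdE k) (stdE p)) y *
      inner ℝ (μ (stdE k) (stdE p)) z)) - 1 / 2 * (inner ℝ (μ z (stdE k)) (stdE p) *
      inner ℝ (μ y (stdE p)) (stdE k))) := by
    apply sum_symm
    intro k p
    rw [h.anti (stdE p) (stdE k)]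
    simp only [inner_neg_left]
    ring
  simp only [Finset.sum_sub_distrib] at key ⊢
  linarith

end Pool.Agent.H.MP_64d93e_gt
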