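import Pool.Agent.H.MP_64d93e_gt.Curv

open Module

namespace Pool.Agent.H.MP_64d93e_gt

variable {n : ℕ}

theorem Mf_symm (μ : Br n) (x y : RV n) : Mf μ x y = Mf μ y x := by
  unfold Mf
  congr 2
  · exact Finset.sum_congr rfl fun i _ => real_inner_comm _ _
  · exact Finset.sum_congr rfl fun i _ => Finset.sum_congr rfl fun j _ => mul_comm _ _

theorem Bf_symm (μ : Br n) (x y : RV n) : Bf μ x y = Bf μ y x := by
  unfold Bf
  exact LinearMap.trace_comp_comm' _ _

theorem Rs_symm (μ : Br n) (x y : RV n) : Rs μ x y = Rs μ y x := by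
  unfold Rs
  rw [Mf_symm, Bf_symm]

theorem Mf_add (μ : Br n) (x y z : RV n) : Mf μ x (y + z) = Mf μ x y + Mf μ x z := by
  unfold Mf
  simp only [map_add, LinearMap.add_apply, inner_add_right, mul_add, Finset.sum_add_distrib]
  ring

theorem Mf_smul (μ : Br n) (x y : RV n) (c : ℝ) : Mf μ x (c • y) = c * Mf μ x y := by
  unfold Mf
  simp only [map_smul, LinearMap.smul_apply, real_inner_smul_right]
  rw [mul_add, Finset.mul_sum, Finset.mul_sum, Finset.mul_sum, Finset.mul_sum, Finset.mul_sum,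
    Finset.mul_sum]
  congr 1
  · apply Finset.sum_congr rfl; intro i _; ring
  · apply Finset.sum_congr rfl; intro i _
    rw [Finset.mul_sum, Finset.mul_sum, Finset.mul_sum]
    apply Finset.sum_congr rfl; intro j _; ring

theorem Bf_add (μ : Br n) (x y z : RV n) : Bf μ x (y + z) = Bf μ x y + Bf μ x z := by
  unfold Bf
  rw [map_add, LinearMap.comp_add, map_add]

theorem Bf_smul (μ : Br n) (x y : RV n) (c : ℝ) : Bf μ x (c • y) = c * Bf μ x y := by
  unfold Bf
  rw [map_smul, LinearMap.comp_smul, map_smul, smul_eq_mul]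

/-- `Rs μ x` as a linear form -/
noncomputable def RsL (μ : Br n) (x : RV n) : RV n →ₗ[ℝ] ℝ where
  toFun y := Rs μ x y
  map_add' y z := by unfold Rs; rw [Mf_add, Bf_add]; ring
  map_smul' c y := by unfold Rs; rw [Mf_smul, Bf_smul]; simp only [RingHom.id_apply, smul_eq_mul]; ring

theorem Rs_expand (μ : Br n) (x y : RV n) :
    Rs μ x y = ∑ k, inner ℝ y (stdE k) * Rs μ x (stdE k) := by
  have : RsL μ x y = ∑ k, inner ℝ y (stdE k) * RsL μ x (stdE k) := by
    conv_lhs => rw [← sum_stdE y]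
    simp only [map_sum, map_smul, smul_eq_mul]
  exact this

theorem Sh_expand (μ : Br n) (x y : RV n) :
    Sh μ x y = ∑ k, inner ℝ y (stdE k) * Sh μ x (stdE k) := by
  unfold Sh
  conv_lhs => rw [← sum_stdE y]
  simp only [map_sum, map_smul, sum_inner, inner_sum, real_inner_smul_left, real_inner_smul_right]
  rw [← Finset.sum_add_distrib, Finset.mul_sum]
  apply Finset.sum_congr rfl
  intro k _
  ring

theorem Sh_symm (μ : Br n) (x y : RV n) : Sh μ x y = Sh μ y x := by
  unfold Sh; ring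

theorem IsLie.isDer_ad {μ : Br n} (h : IsLie μ) (x : RV n) : IsDer μ (μ x) := by
  intro y z
  rw [h.jac]

theorem inner_D_eq (D : RV n →ₗ[ℝ] RV n) (a : RV n) :
    ∑ y, inner ℝ a (D (stdE y)) * inner ℝ a (stdE y) = inner ℝ a (D a) := by
  conv_rhs => rw [← sum_stdE a, map_sum, inner_sum]
  apply Finset.sum_congr rfl
  intro k _
  rw [map_smul, real_inner_smul_right, sum_stdE]
  ring

/-- `tr (Ric* D) = 0` for derivations `D`. -/
theorem sum_Rs_der {μ : Br n} (h : IsLie μ) {D : RV n →ₗ[ℝ] RV n} (hD : IsDer μ D) :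
    ∑ y, Rs μ (D (stdE y)) (stdE y) = 0 := by
  have hM : ∑ y, Mf μ (D (stdE y)) (stdE y) = 0 := by
    simp only [Mf, Finset.sum_add_distrib, ← Finset.mul_sum]
    have e1 : ∑ y, ∑ i, ∑ j, inner ℝ (μ (stdE i) (stdE j)) (D (stdE y)) *
        inner ℝ (μ (stdE i) (stdE j)) (stdE y) =
        ∑ i, ∑ j, inner ℝ (μ (stdE i) (stdE j)) (D (μ (stdE i) (stdE j))) := by
      rw [Finset.sum_comm]
      apply Finset.sum_congr rfl; intro i _
      rw [Finset.sum_comm]
      apply Finset.sum_congr rfl; intro j _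
      exact inner_D_eq D _
    have e2 : ∑ i : Fin n, ∑ j : Fin n, inner ℝ (μ (stdE i) (stdE j)) (D (μ (stdE i) (stdE j))) =
        ∑ i : Fin n, ∑ j : Fin n, 2 * inner ℝ (μ (D (stdE i)) (stdE j)) (μ (stdE i) (stdE j)) := by
      apply sum_symm
      intro i j
      rw [h.anti (stdE j) (stdE i)]
      simp only [map_neg, inner_neg_left, inner_neg_right, neg_neg]
      rw [hD, inner_add_right, h.anti (stdE i) (D (stdE j)), inner_neg_right]
      rw [real_inner_comm (μ (stdE i) (stdE j)) (μ (D (stdE i)) (stdE j)),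
        real_inner_comm (μ (stdE i) (stdE j)) (μ (D (stdE j)) (stdE i))]
      ring
    rw [e1, e2]
    simp only [← Finset.mul_sum]
    ring
  have hB : ∑ y, Bf μ (D (stdE y)) (stdE y) = 0 := by
    apply Finset.sum_eq_zero
    intro y _
    have e : μ (D (stdE y)) = D ∘ₗ μ (stdE y) - μ (stdE y) ∘ₗ D := by
      ext1 z
      simp only [LinearMap.sub_apply, LinearMap.comp_apply]
      rw [hD]; abel
    rw [Bf, e, LinearMap.sub_comp, map_sub, LinearMap.comp_assoc, LinearMap.comp_assoc]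
    rw [LinearMap.trace_comp_comm' (D ∘ₗ μ (stdE y)) (μ (stdE y)), LinearMap.comp_assoc, sub_self]
  have : ∑ y, Rs μ (D (stdE y)) (stdE y) =
      ∑ y, Mf μ (D (stdE y)) (stdE y) - 1 / 2 * ∑ y, Bf μ (D (stdE y)) (stdE y) := by
    simp only [Rs, Finset.sum_sub_distrib, Finset.mul_sum]
  rw [this, hM, hB]; ring

theorem sum_Rs_Sh {μ : Br n} (h : IsLie μ) :
    ∑ i, ∑ j, Rs μ (stdE i) (stdE j) * Sh μ (stdE i) (stdE j) = 0 := by
  have e1 : ∑ i, ∑ j, Rs μ (stdE i) (stdE j) * Sh μ (stdE i) (stdE j) =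
      ∑ i, ∑ j, Rs μ (stdE i) (stdE j) * inner ℝ (μ (Hv μ) (stdE i)) (stdE j) := by
    apply sum_symm
    intro i j
    rw [Sh, Sh, Rs_symm μ (stdE j) (stdE i)]
    ring
  rw [e1, ← sum_Rs_der h (h.isDer_ad (Hv μ))]
  apply Finset.sum_congr rfl
  intro i _
  rw [Rs_symm, Rs_expand]
  apply Finset.sum_congr rfl
  intro j _
  ring

theorem ricSq_eq {μ : Br n} (h : IsLie μ) :
    ricSq μ = ∑ i, ∑ j, Rs μ (stdE i) (stdE j) ^ 2 + ∑ i, ∑ j, Sh μ (stdE i) (stdE j) ^ 2 := by
  have h0 := sum_Rs_Sh h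
  have : ricSq μ = ∑ i, ∑ j, Rs μ (stdE i) (stdE j) ^ 2 + ∑ i, ∑ j, Sh μ (stdE i) (stdE j) ^ 2
      - 2 * ∑ i, ∑ j, Rs μ (stdE i) (stdE j) * Sh μ (stdE i) (stdE j) := by
    rw [ricSq, Finset.mul_sum, ← Finset.sum_add_distrib, ← Finset.sum_sub_distrib]
    apply Finset.sum_congr rfl; intro i _
    rw [Finset.mul_sum, ← Finset.sum_add_distrib, ← Finset.sum_sub_distrib]
    apply Finset.sum_congr rfl; intro j _
    rw [ric_eq h]; ring
  rw [this, h0]; ring

theorem scal_eq {μ : Br n} (h : IsLie μ) :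
    scal μ = ∑ i, Rs μ (stdE i) (stdE i) - inner ℝ (Hv μ) (Hv μ) := by
  rw [scal, inner_Hv, trAd_eq, ← Finset.sum_sub_distrib]
  apply Finset.sum_congr rfl; intro i _
  rw [ric_eq h, Sh]; ring

theorem inner_ricOp {μ : Br n} (h : IsLie μ) (x y : RV n) : inner ℝ (ricOp μ x) y = ric μ x y := by
  rw [ricOp, sum_inner, ric_eq h, Rs_expand, Sh_expand, ← Finset.sum_sub_distrib]
  apply Finset.sum_congr rfl; intro k _
  rw [real_inner_smul_left, ric_eq h, real_inner_comm y (stdE k)]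
  ring

theorem ric_symm {μ : Br n} (h : IsLie μ) (x y : RV n) : ric μ x y = ric μ y x := by
  rw [ric_eq h, ric_eq h, Rs_symm, Sh_symm]

section Soliton

variable {μ : Br n} (h : IsLie μ) {c : ℝ} {D : RV n →ₗ[ℝ] RV n} (hD : IsDer μ D)
  (hs : ∀ x, ricOp μ x = c • x + D x)

include h hs in
theorem sol_ric (x y : RV n) : ric μ x y = c * inner ℝ x y + inner ℝ (D x) y := by
  rw [← inner_ricOp h, hs, inner_add_left, real_inner_smul_left]

include h hs in
theorem sol_symm (x y : RV n) : inner ℝ (D x) y = inner ℝ x (D y) := by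
  have h1 := sol_ric h hs x y
  have h2 := sol_ric h hs y x
  rw [ric_symm h] at h1
  rw [real_inner_comm x y] at h2
  rw [real_inner_comm (D y) x]
  linarith

include hD in
theorem trAd_der (x : RV n) : trAd μ (D x) = 0 := by
  have e : μ (D x) = D ∘ₗ μ x - μ x ∘ₗ D := by
    ext1 z
    simp only [LinearMap.sub_apply, LinearMap.comp_apply]
    rw [hD]; abel
  rw [trAd, e, map_sub, LinearMap.trace_comp_comm', sub_self]

include h hD hs in
theorem sol_DH : D (Hv μ) = 0 := by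
  have h1 : ∀ x, inner ℝ (D (Hv μ)) x = 0 := by
    intro x
    rw [sol_symm h hs, inner_Hv, trAd_der hD]
  exact inner_self_eq_zero.1 (h1 _)

include h hD hs in
/-- `tr (D ad x) = 0` -/
theorem sol_trace_D_ad (x : RV n) : LinearMap.trace ℝ (RV n) (D ∘ₗ μ x) = 0 := by
  -- first identity
  have h1 : c * trAd μ x = - ∑ k, Sh μ (μ x (stdE k)) (stdE k) := by
    have e1 := sol_ric h hs x (Hv μ)
    rw [sol_symm h hs, sol_DH h hD hs, inner_zero_right, add_zero, real_inner_comm, inner_Hv] at e1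
    rw [← e1, ric_eq h]
    have e2 : Sh μ x (Hv μ) = 0 := by
      rw [Sh, h.1, inner_zero_left, real_inner_comm, inner_Hv, trAd_lie h]; ring
    have e3 : Mf μ x (Hv μ) = -(1 / 2) * ∑ i, inner ℝ (μ x (stdE i)) (μ (Hv μ) (stdE i)) := by
      rw [Mf]
      have : ∑ i, ∑ j, inner ℝ (μ (stdE i) (stdE j)) x * inner ℝ (μ (stdE i) (stdE j)) (Hv μ) = 0 := by
        apply Finset.sum_eq_zero; intro i _
        apply Finset.sum_eq_zero; intro j _
        rw [real_inner_comm (Hv μ), inner_Hv, trAd_lie h, mul_zero]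
      rw [this]; ring
    have e4 : Bf μ x (Hv μ) = ∑ k, inner ℝ (μ (Hv μ) (μ x (stdE k))) (stdE k) := by
      rw [Bf_symm, Bf, trace_eq]
      rfl
    rw [e2, Rs, e3, e4, sub_zero, ← Finset.sum_neg_distrib, Finset.mul_sum, Finset.mul_sum,
      ← Finset.sum_sub_distrib]
    apply Finset.sum_congr rfl; intro k _
    rw [Sh, real_inner_comm (μ x (stdE k)) (μ (Hv μ) (stdE k))]
    ring
  have h2 : ∑ k, ric μ (μ x (stdE k)) (stdE k) = - ∑ k, Sh μ (μ x (stdE k)) (stdE k) := by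
    have e := sum_Rs_der h (h.isDer_ad x)
    have : ∑ k, ric μ (μ x (stdE k)) (stdE k) =
        ∑ k, Rs μ (μ x (stdE k)) (stdE k) - ∑ k, Sh μ (μ x (stdE k)) (stdE k) := by
      rw [← Finset.sum_sub_distrib]
      exact Finset.sum_congr rfl fun k _ => ric_eq h _ _
    rw [this, e]; ring
  have h3 : ∑ k, ric μ (μ x (stdE k)) (stdE k) = c * trAd μ x + LinearMap.trace ℝ (RV n) (D ∘ₗ μ x) := by
    rw [trAd_eq, trace_eq, Finset.mul_sum, ← Finset.sum_add_distrib]
    apply Finset.sum_congr rfl; intro k _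
    rw [sol_ric h hs]
    rfl
  linarith

include h hs in
theorem sol_scal : scal μ = c * n + LinearMap.trace ℝ (RV n) D := by
  rw [scal, trace_eq]
  have : ∀ k : Fin n, ric μ (stdE k) (stdE k) = c + inner ℝ (D (stdE k)) (stdE k) := by
    intro k
    rw [sol_ric h hs]
    simp [stdE]
  simp only [this, Finset.sum_add_distrib, Finset.sum_const, Finset.card_univ, Fintype.card_fin]
  simp; ring

include h hD hs in
theorem sol_trace_ric_D : ∑ k, ric μ (D (stdE k)) (stdE k) = 0 := by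
  have e := sum_Rs_der h hD
  have h1 : ∑ k, ric μ (D (stdE k)) (stdE k) =
      ∑ k, Rs μ (D (stdE k)) (stdE k) - ∑ k, Sh μ (D (stdE k)) (stdE k) := by
    rw [← Finset.sum_sub_distrib]
    exact Finset.sum_congr rfl fun k _ => ric_eq h _ _
  have h2 : ∑ k, Sh μ (D (stdE k)) (stdE k) = LinearMap.trace ℝ (RV n) (D ∘ₗ μ (Hv μ)) := by
    have e1 : ∑ k, inner ℝ (μ (Hv μ) (D (stdE k))) (stdE k) = LinearMap.trace ℝ (RV n) (D ∘ₗ μ (Hv μ)) := by
      rw [LinearMap.trace_comp_comm', trace_eq]; rfl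
    have e2 : ∑ k, inner ℝ (μ (Hv μ) (stdE k)) (D (stdE k)) = LinearMap.trace ℝ (RV n) (D ∘ₗ μ (Hv μ)) := by
      rw [trace_eq]
      apply Finset.sum_congr rfl; intro k _
      rw [← sol_symm h hs]; rfl
    simp only [Sh]
    rw [← Finset.mul_sum, Finset.sum_add_distrib, e1, e2]; ring
  rw [h1, e, h2, sol_trace_D_ad h hD hs]; ring

include h hD hs in
theorem sol_trace_D_sq : LinearMap.trace ℝ (RV n) (D ∘ₗ D) = - c * LinearMap.trace ℝ (RV n) D := by
  have h1 := sol_trace_ric_D h hD hs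
  have h2 : ∑ k, ric μ (D (stdE k)) (stdE k) = c * LinearMap.trace ℝ (RV n) D +
      LinearMap.trace ℝ (RV n) (D ∘ₗ D) := by
    rw [trace_eq, trace_eq, Finset.mul_sum, ← Finset.sum_add_distrib]
    apply Finset.sum_congr rfl; intro k _
    rw [sol_ric h hs]; rfl
  linarith

include h hD hs in
theorem sol_ricSq : ricSq μ = c * scal μ := by
  have h1 : ricSq μ = ∑ j, ric μ (stdE j) (ricOp μ (stdE j)) := by
    rw [ricSq]
    apply Finset.sum_congr rfl; intro j _
    rw [← inner_ricOp h, inner_eq_sum]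
    apply Finset.sum_congr rfl; intro k _
    rw [inner_ricOp h]; ring
  have h2 : ∀ j, ric μ (stdE j) (ricOp μ (stdE j)) = c * ric μ (stdE j) (stdE j) + ric μ (D (stdE j)) (stdE j) := by
    intro j
    rw [hs, ← inner_ricOp h, inner_add_right, real_inner_smul_right, inner_ricOp h, inner_ricOp h,
      ric_symm h _ (D (stdE j))]
  rw [h1]
  simp only [h2, Finset.sum_add_distrib, ← Finset.mul_sum]
  rw [sol_trace_ric_D h hD hs, scal, add_zero]

end Soliton

end Pool.Agent.H.MP_64d93e_gt
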