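import Mathlib

/-!
Left-invariant metrics on solvable Lie groups, encoded by brackets on `ℝⁿ`,
and left-invariant closed `G₂`-structures on `ℝ⁷`.
-/

namespace Pool.Agent.H.MP_64d93e_gt

variable {n : ℕ}

/-- `ℝⁿ` with its standard inner product. -/
abbrev RV (n : ℕ) := EuclideanSpace ℝ (Fin n)

/-- The `i`-th vector of the standard orthonormal basis of `ℝⁿ`. -/
noncomputable abbrev stdE (i : Fin n) : RV n := EuclideanSpace.single i (1 : ℝ)

/-- Bilinear maps `ℝⁿ × ℝⁿ → ℝⁿ`. -/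
abbrev Br (n : ℕ) := RV n →ₗ[ℝ] RV n →ₗ[ℝ] RV n

/-- `μ` is a Lie bracket: alternating and satisfying the Jacobi identity. -/
def IsLie (μ : Br n) : Prop :=
  (∀ x, μ x x = 0) ∧ ∀ x y z, μ x (μ y z) + μ y (μ z x) + μ z (μ x y) = 0

/-- The derived series of `(ℝⁿ, μ)`. -/
def derSeries (μ : Br n) : ℕ → Submodule ℝ (RV n)
  | 0 => ⊤
  | k + 1 => Submodule.span ℝ {z | ∃ x ∈ derSeries μ k, ∃ y ∈ derSeries μ k, z = μ x y}

/-- The set of solvable Lie brackets on `ℝⁿ`. -/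
def SolvBr (n : ℕ) : Set (Br n) := {μ | IsLie μ ∧ ∃ k, derSeries μ k = ⊥}

/-- The action of `GLₙ(ℝ)` on brackets, `(h · μ)(x, y) = h μ(h⁻¹ x, h⁻¹ y)`. -/
noncomputable def act (h : RV n ≃ₗ[ℝ] RV n) (μ : Br n) : Br n :=
  (μ.compl₁₂ h.symm.toLinearMap h.symm.toLinearMap).compr₂ h.toLinearMap

/-- The `GLₙ(ℝ)`-orbit of a bracket. -/
def orbit (μ : Br n) : Set (Br n) := {ν | ∃ h : RV n ≃ₗ[ℝ] RV n, ν = act h μ}

/-- `D` is a derivation of `μ`. -/
def IsDer (μ : Br n) (D : RV n →ₗ[ℝ] RV n) : Prop :=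
  ∀ x y, D (μ x y) = μ (D x) y + μ x (D y)

/-- The Levi-Civita connection of the left-invariant metric given by the standard inner product
on the Lie group with Lie algebra `(ℝⁿ, μ)`, by Koszul's formula. -/
noncomputable def nabla (μ : Br n) (x y : RV n) : RV n :=
  ∑ k, (1 / 2 * (inner ℝ (μ x y) (stdE k) - inner ℝ (μ y (stdE k)) x
    + inner ℝ (μ (stdE k) x) y)) • stdE k

/-- The Riemann curvature `R(x, y) z`. -/
noncomputable def riem (μ : Br n) (x y z : RV n) : RV n :=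
  nabla μ x (nabla μ y z) - nabla μ y (nabla μ x z) - nabla μ (μ x y) z

/-- The Ricci curvature as a bilinear form, `ric(y, z) = tr (x ↦ R(x, y) z)`. -/
noncomputable def ric (μ : Br n) (y z : RV n) : ℝ :=
  ∑ k, inner ℝ (riem μ (stdE k) y z) (stdE k)

/-- The Ricci operator. -/
noncomputable def ricOp (μ : Br n) (y : RV n) : RV n := ∑ k, ric μ y (stdE k) • stdE k

/-- The scalar curvature. -/
noncomputable def scal (μ : Br n) : ℝ := ∑ k, ric μ (stdE k) (stdE k)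

/-- The squared norm of the Ricci operator. -/
noncomputable def ricSq (μ : Br n) : ℝ := ∑ j, ∑ k, ric μ (stdE j) (stdE k) ^ 2

/-- The Ricci pinching functional `F = scal² / |Ric|²`. -/
noncomputable def pinch (μ : Br n) : ℝ := scal μ ^ 2 / ricSq μ

/-- `μ` is a solvsoliton: a solvable Lie bracket with `Ric = c I + D`, `D` a derivation. -/
def IsSolvsoliton (μ : Br n) : Prop :=
  μ ∈ SolvBr n ∧ ∃ (c : ℝ) (D : RV n →ₗ[ℝ] RV n), IsDer μ D ∧ ∀ x, ricOp μ x = c • x + D x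

/-- The Chevalley-Eilenberg differential of `μ`,
`dω(v₀, …, v_{p+1}) = ∑_{i<j} (-1)^{i+j} ω(μ(v_i, v_j), …, omit v_i, …, omit v_j, …)`. -/
noncomputable def ceD {p : ℕ} (μ : Br n) (ω : (Fin (p + 1) → RV n) → ℝ)
    (v : Fin (p + 2) → RV n) : ℝ :=
  ∑ j : Fin (p + 2), ∑ i : Fin (p + 1), if i.castSucc < j then
    (-1) ^ ((i : ℕ) + (j : ℕ)) *
      ω (Fin.cons (μ (v i.castSucc) (v j)) (fun k : Fin p => v (j.succAbove (i.succAbove k))))
    else 0

/-- The form `e^{ijk}` on `ℝ⁷`. -/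
noncomputable def e3 (i j k : Fin 7) (v : Fin 3 → RV 7) : ℝ :=
  Matrix.det (Matrix.of fun a b : Fin 3 => v a (![i, j, k] b))

/-- The positive 3-form
`φ = e^{127} + e^{347} + e^{567} + e^{135} - e^{146} - e^{236} - e^{245}` (indices shifted by
one). -/
noncomputable def phi (v : Fin 3 → RV 7) : ℝ :=
  e3 0 1 6 v + e3 2 3 6 v + e3 4 5 6 v + e3 0 2 4 v - e3 0 3 5 v - e3 1 2 5 v - e3 1 3 4 v

/-- The Hodge star of a 3-form on `ℝ⁷` for the standard inner product and orientation. -/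
noncomputable def hodge3 (ω : (Fin 3 → RV 7) → ℝ) (v : Fin 4 → RV 7) : ℝ :=
  1 / 6 * ∑ i : Fin 7, ∑ j : Fin 7, ∑ k : Fin 7, ω ![stdE i, stdE j, stdE k] *
    Matrix.det (Matrix.of fun a b : Fin 7 =>
      (![stdE i, stdE j, stdE k, v 0, v 1, v 2, v 3] : Fin 7 → RV 7) a b)

/-- Solvable brackets for which `φ` is closed. -/
def Sclosed : Set (Br 7) := {μ | μ ∈ SolvBr 7 ∧ ∀ v : Fin 4 → RV 7, ceD μ phi v = 0}

/-- Solvable brackets for which `φ` is torsion-free, that is closed and coclosed. -/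
def Stf : Set (Br 7) := {μ | μ ∈ Sclosed ∧ ∀ v : Fin 5 → RV 7, ceD μ (hodge3 phi) v = 0}

/-- `N_μ`, the supremum of the Ricci pinching functional over the closed non-torsion-free
`G₂`-structures on `S_μ`. -/
noncomputable def pinchSup (μ : Br 7) : ℝ := sSup (pinch '' ((orbit μ ∩ Sclosed) \ Stf))

end Pool.Agent.H.MP_64d93e_gt
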