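import Pool.Agent.H.MP_64d93e_gt.Flags

open Module Submodule

namespace Pool.Agent.H.MP_64d93e_gt

variable {n : ℕ} {V : Type*} [AddCommGroup V] [Module ℂ V]

/-- The filtration attached to a weighted basis. -/
def Filt (b : Basis (Fin n) ℂ V) (w : Fin n → ℝ) (t : ℝ) : Submodule ℂ V :=
  span ℂ (b '' {k | t ≤ w k})

theorem mem_filt {b : Basis (Fin n) ℂ V} {w : Fin n → ℝ} {t : ℝ} {x : V} :
    x ∈ Filt b w t ↔ ∀ k, b.repr x k ≠ 0 → t ≤ w k := by
  rw [Filt, Basis.mem_span_image]
  constructor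
  · intro h k hk
    exact h (by simpa using hk)
  · intro h k hk
    exact h k (by simpa using hk)

theorem self_mem_filt (b : Basis (Fin n) ℂ V) (w : Fin n → ℝ) (k : Fin n) :
    b k ∈ Filt b w (w k) := subset_span ⟨k, by simp, rfl⟩

theorem filt_anti (b : Basis (Fin n) ℂ V) (w : Fin n → ℝ) {s t : ℝ} (h : s ≤ t) :
    Filt b w t ≤ Filt b w s := by
  apply span_mono
  rintro _ ⟨k, hk, rfl⟩
  exact ⟨k, le_trans h hk, rfl⟩

/-- Compatibility of a weighted basis with a bilinear bracket. -/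
def Compat (β : V →ₗ[ℂ] V →ₗ[ℂ] V) (b : Basis (Fin n) ℂ V) (w : Fin n → ℝ) : Prop :=
  ∀ i j k, b.repr (β (b i) (b j)) k ≠ 0 → w i + w j ≤ w k

theorem compat_iff {β : V →ₗ[ℂ] V →ₗ[ℂ] V} {b : Basis (Fin n) ℂ V} {w : Fin n → ℝ} :
    Compat β b w ↔ ∀ i j, β (b i) (b j) ∈ Filt b w (w i + w j) := by
  simp only [Compat, mem_filt]

theorem Compat.mem {β : V →ₗ[ℂ] V →ₗ[ℂ] V} {b : Basis (Fin n) ℂ V} {w : Fin n → ℝ}
    (h : Compat β b w) {s t : ℝ} {x y : V} (hx : x ∈ Filt b w s) (hy : y ∈ Filt b w t) :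
    β x y ∈ Filt b w (s + t) := by
  rw [compat_iff] at h
  refine span_induction (p := fun x _ => β x y ∈ Filt b w (s + t)) ?_ (by simp) ?_ ?_ hx
  · rintro _ ⟨i, hi, rfl⟩
    refine span_induction (p := fun y _ => β (b i) y ∈ Filt b w (s + t)) ?_ (by simp) ?_ ?_ hy
    · rintro _ ⟨j, hj, rfl⟩
      exact filt_anti b w (add_le_add hi hj) (h i j)
    · intro a c _ _ ha hc
      rw [map_add]
      exact add_mem ha hc
    · intro r a _ ha
      rw [map_smul]
      exact Submodule.smul_mem _ _ ha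
  · intro a c _ _ ha hc
    rw [map_add, LinearMap.add_apply]
    exact add_mem ha hc
  · intro r a _ ha
    rw [map_smul, LinearMap.smul_apply]
    exact Submodule.smul_mem _ _ ha

theorem finrank_filt (b : Basis (Fin n) ℂ V) (w : Fin n → ℝ) (t : ℝ) :
    finrank ℂ (Filt b w t) = (Finset.univ.filter fun k => t ≤ w k).card := by
  classical
  have hinj : Function.Injective b := b.injective
  have h1 : b '' {k | t ≤ w k} = ↑((Finset.univ.filter fun k => t ≤ w k).image b) := by
    ext; simp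
  rw [Filt, h1, finrank_span_finset_eq_card]
  · rw [Finset.card_image_of_injective _ hinj]
  · have : LinearIndependent ℂ (fun x : (Set.range b) => (x : V)) := b.linearIndependent.linearIndepOn_id
    refine this.comp (fun x : ((Finset.univ.filter fun k => t ≤ w k).image b : Finset V) =>
      (⟨x.1, ?_⟩ : Set.range b)) ?_
    · have := x.2
      simp only [Finset.mem_image] at this
      obtain ⟨k, _, hk⟩ := this
      exact ⟨k, hk⟩
    · intro x y hxy
      have : x.1 = y.1 := by simpa using hxy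
      exact Subtype.ext this

/-- For antitone weights the filtration only depends on the flag of the basis. -/
theorem filt_eq_of_flag {b c : Basis (Fin n) ℂ V} {w : Fin n → ℝ} (hw : Antitone w)
    (h : ∀ i, c i ∈ span ℂ (b '' Set.Iic i)) (t : ℝ) : Filt c w t = Filt b w t := by
  have : FiniteDimensional ℂ V := b.finiteDimensional_of_finite
  apply Submodule.eq_of_le_of_finrank_eq
  · refine span_le.2 ?_
    rintro _ ⟨k, hk, rfl⟩
    refine span_mono ?_ (h k)
    rintro _ ⟨l, hl, rfl⟩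
    exact ⟨l, le_trans hk (hw hl), rfl⟩
  · rw [finrank_filt, finrank_filt]

theorem Compat.of_filt_eq {β : V →ₗ[ℂ] V →ₗ[ℂ] V} {b c : Basis (Fin n) ℂ V} {w w' : Fin n → ℝ}
    (h : Compat β b w) (hF : ∀ t, Filt c w' t = Filt b w t) : Compat β c w' := by
  rw [compat_iff]
  intro i j
  rw [hF]
  apply h.mem
  · rw [← hF]; exact self_mem_filt c w' i
  · rw [← hF]; exact self_mem_filt c w' j

theorem filt_reindex (b : Basis (Fin n) ℂ V) (w : Fin n → ℝ) (σ : Equiv.Perm (Fin n)) (t : ℝ) :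
    Filt (b.reindex σ.symm) (w ∘ σ) t = Filt b w t := by
  rw [Filt, Filt]
  congr 1
  ext x
  constructor
  · rintro ⟨k, hk, rfl⟩
    exact ⟨σ k, hk, by simp⟩
  · rintro ⟨k, hk, rfl⟩
    refine ⟨σ.symm k, by simpa using hk, by simp⟩

theorem exists_antitone (w : Fin n → ℝ) : ∃ σ : Equiv.Perm (Fin n), Antitone (w ∘ σ) := by
  refine ⟨Tuple.sort (fun i => - w i), ?_⟩
  have h := Tuple.monotone_sort (fun i => - w i)
  intro i j hij
  have := h hij
  simpa using this

end Pool.Agent.H.MP_64d93e_gt
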