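import Mathlib

open Module Submodule

namespace Pool.Agent.H.MP_64d93e_gt

universe u v

/-- Two full flags (given by bases) have a common adapted basis. -/
theorem bruhat {K : Type u} [Field K] : ∀ (n : ℕ) {V : Type v} [AddCommGroup V] [Module K V]
    (b b' : Basis (Fin n) K V),
    ∃ (c : Basis (Fin n) K V) (σ : Equiv.Perm (Fin n)),
      (∀ i, c i ∈ span K (b '' Set.Iic i)) ∧ (∀ i, c (σ i) ∈ span K (b' '' Set.Iic i)) := by
  intro n
  induction n with
  | zero =>
    intro V _ _ b b'
    exact ⟨b, 1, fun i => i.elim0, fun i => i.elim0⟩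
  | succ n ih =>
    intro V _ _ b b'
    classical
    set x : V := b 0 with hx
    have hx0 : x ≠ 0 := b.ne_zero 0
    obtain ⟨j, hj, hjmax⟩ : ∃ j, b'.repr x j ≠ 0 ∧ ∀ k, b'.repr x k ≠ 0 → k ≤ j := by
      have hne : (b'.repr x).support.Nonempty := by
        rw [Finsupp.support_nonempty_iff]
        simpa using hx0
      refine ⟨(b'.repr x).support.max' hne, ?_, ?_⟩
      · exact Finsupp.mem_support_iff.1 (Finset.max'_mem _ hne)
      · intro k hk
        exact Finset.le_max' _ _ (Finsupp.mem_support_iff.2 hk)
    -- hyperplane
    let W : Submodule K V := LinearMap.ker (b'.coord j)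
    have memW : ∀ v, v ∈ W ↔ b'.repr v j = 0 := fun v => by
      simp [W, LinearMap.mem_ker, Basis.coord_apply]
    -- projection along x
    let π : V → V := fun v => v - (b'.repr v j / b'.repr x j) • x
    have hπW : ∀ v, π v ∈ W := by
      intro v
      rw [memW]
      simp [π, div_mul_cancel₀ _ hj]
    -- basis of W from b'
    have hW'mem : ∀ i : Fin n, b' (j.succAbove i) ∈ W := by
      intro i
      rw [memW]
      simp [Basis.repr_self]
    let fW' : Fin n → W := fun i => ⟨b' (j.succAbove i), hW'mem i⟩
    have liW' : LinearIndependent K fW' := by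
      apply LinearIndependent.of_comp W.subtype
      exact b'.linearIndependent.comp j.succAbove Fin.succAbove_right_injective
    have spW' : ⊤ ≤ span K (Set.range fW') := by
      rintro ⟨w, hw⟩ -
      have hw' := (memW w).1 hw
      have h1 : (⟨w, hw⟩ : W) = ∑ i : Fin n, b'.repr w (j.succAbove i) • fW' i := by
        apply Subtype.ext
        simp only [fW', AddSubmonoidClass.coe_finsetSum, SetLike.mk_smul_mk]
        conv_lhs => rw [← b'.sum_repr w, Fin.sum_univ_succAbove _ j, hw', zero_smul, zero_add]
      rw [h1]
      exact Submodule.sum_mem _ fun i _ => Submodule.smul_mem _ _ (subset_span ⟨i, rfl⟩)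
    let bW' : Basis (Fin n) K W := Basis.mk liW' spW'
    have bW'_apply : ∀ i, (bW' i : V) = b' (j.succAbove i) := fun i => by simp [bW', fW']
    -- basis of W from b
    let fW : Fin n → W := fun i => ⟨π (b i.succ), hπW _⟩
    have liW : LinearIndependent K fW := by
      rw [Fintype.linearIndependent_iff]
      intro g hg i
      have h1 : ∑ i : Fin n, g i • π (b i.succ) = 0 := by
        have := congrArg (Subtype.val) hg
        simpa [fW] using this
      have h2 : ∑ k : Fin (n + 1), (Fin.cons (-∑ i : Fin n, g i * (b'.repr (b i.succ) j / b'.repr x j)) g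
          : Fin (n + 1) → K) k • b k = 0 := by
        rw [Fin.sum_univ_succ]
        simp only [Fin.cons_zero, Fin.cons_succ]
        rw [← hx]
        rw [← h1]
        simp only [π, smul_sub, Finset.sum_sub_distrib, neg_smul, Finset.sum_smul, smul_smul]
        abel
      have h3 := Fintype.linearIndependent_iff.1 b.linearIndependent _ h2 i.succ
      simpa using h3
    have spW : ⊤ ≤ span K (Set.range fW) := by
      rintro ⟨w, hw⟩ -
      have hw' := (memW w).1 hw
      have h1 : (⟨w, hw⟩ : W) = ∑ i : Fin n, b.repr w i.succ • fW i := by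
        apply Subtype.ext
        simp only [fW, AddSubmonoidClass.coe_finsetSum, SetLike.mk_smul_mk]
        have e1 : w = b.repr w 0 • x + ∑ i : Fin n, b.repr w i.succ • b i.succ := by
          conv_lhs => rw [← b.sum_repr w, Fin.sum_univ_succ]
        have e2 : b'.repr w j = b.repr w 0 * b'.repr x j
            + ∑ i : Fin n, b.repr w i.succ * b'.repr (b i.succ) j := by
          conv_lhs => rw [e1]
          simp [map_add, map_sum, map_smul]
        rw [hw'] at e2
        have e3 : b.repr w 0 = - ∑ i : Fin n, b.repr w i.succ * (b'.repr (b i.succ) j / b'.repr x j) := by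
          have : b.repr w 0 * b'.repr x j = -(∑ i : Fin n, b.repr w i.succ * b'.repr (b i.succ) j) :=
            by linear_combination -e2
          have h4 : b.repr w 0 = -(∑ i : Fin n, b.repr w i.succ * b'.repr (b i.succ) j) / b'.repr x j :=
            by rw [eq_div_iff hj]; exact this
          rw [h4, neg_div, Finset.sum_div]
          congr 1
          apply Finset.sum_congr rfl
          intro i _
          rw [mul_div_assoc]
        conv_lhs => rw [e1, e3]
        simp only [π, smul_sub, Finset.sum_sub_distrib, neg_smul, Finset.sum_smul, smul_smul]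
        abel
      rw [h1]
      exact Submodule.sum_mem _ fun i _ => Submodule.smul_mem _ _ (subset_span ⟨i, rfl⟩)
    let bW : Basis (Fin n) K W := Basis.mk liW spW
    have bW_apply : ∀ i, (bW i : V) = π (b i.succ) := fun i => by simp [bW, fW]
    obtain ⟨cW, σW, hc1, hc2⟩ := ih bW bW'
    -- new basis
    have hli : ∀ (a : K), ∀ y ∈ W, a • x + y = 0 → a = 0 := by
      intro a y hy h
      have h1 := congrArg (fun v => b'.repr v j) h
      simp only [map_add, map_smul, Finsupp.coe_add, Pi.add_apply, Finsupp.coe_smul, Pi.smul_apply,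
        smul_eq_mul, map_zero, Finsupp.coe_zero, Pi.zero_apply] at h1
      rw [(memW y).1 hy, add_zero] at h1
      exact (mul_eq_zero.1 h1).resolve_right hj
    have hsp : ∀ z : V, ∃ a : K, z + a • x ∈ W := by
      intro z
      refine ⟨-(b'.repr z j / b'.repr x j), ?_⟩
      have := hπW z
      simpa [π, sub_eq_add_neg] using this
    let c : Basis (Fin (n + 1)) K V := Basis.mkFinCons x cW hli hsp
    have c0 : c 0 = x := by simp [c]
    have cs : ∀ i : Fin n, c i.succ = (cW i : V) := fun i => by simp [c]
    let σ : Equiv.Perm (Fin (n + 1)) :=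
      (finSuccEquiv' j).trans ((Equiv.optionCongr σW).trans (finSuccEquiv' 0).symm)
    have σj : σ j = 0 := by simp [σ]
    have σs : ∀ i : Fin n, σ (j.succAbove i) = (σW i).succ := by
      intro i
      simp [σ]
    refine ⟨c, σ, ?_, ?_⟩
    · intro i
      refine Fin.cases ?_ (fun i => ?_) i
      · rw [c0, hx]
        exact subset_span ⟨0, by simp, rfl⟩
      · rw [cs]
        have h1 := hc1 i
        have h2 : (cW i : V) ∈ Submodule.map W.subtype (span K (bW '' Set.Iic i)) :=
          ⟨cW i, h1, rfl⟩
        rw [Submodule.map_span] at h2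
        refine Submodule.span_le.2 ?_ h2
        rintro _ ⟨_, ⟨k, hk, rfl⟩, rfl⟩
        simp only [Submodule.subtype_apply, bW_apply, π]
        refine Submodule.sub_mem _ (subset_span ⟨k.succ, ?_, rfl⟩) (Submodule.smul_mem _ _ (subset_span ⟨0, ?_, rfl⟩))
        · simpa using hk
        · simp
    · intro i
      by_cases hij : i = j
      · subst hij
        rw [σj, c0]
        rw [Basis.mem_span_image]
        intro k hk
        simp only [Finset.mem_coe, Finsupp.mem_support_iff] at hk
        exact hjmax k hk
      · obtain ⟨i', rfl⟩ := Fin.exists_succAbove_eq hij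
        rw [σs, cs]
        have h1 := hc2 i'
        have h2 : (cW (σW i') : V) ∈ Submodule.map W.subtype (span K (bW' '' Set.Iic i')) :=
          ⟨cW (σW i'), h1, rfl⟩
        rw [Submodule.map_span] at h2
        refine Submodule.span_mono ?_ h2
        rintro _ ⟨_, ⟨k, hk, rfl⟩, rfl⟩
        simp only [Submodule.subtype_apply, bW'_apply]
        refine ⟨j.succAbove k, ?_, rfl⟩
        exact (Fin.strictMono_succAbove j).monotone hk

end Pool.Agent.H.MP_64d93e_gt
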