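import Pool.Agent.H.MP_64d93e_gt.Hodge
import Pool.Agent.H.MP_64d93e_gt.Curv

namespace Pool.Agent.H.MP_64d93e_gt

/-- `*φ` as a function of four vectors -/
noncomputable def W (x y z w : RV 7) : ℝ :=
  m4 2 3 4 5 x y z w + m4 0 1 4 5 x y z w + m4 0 1 2 3 x y z w - m4 1 3 5 6 x y z w
  + m4 1 2 4 6 x y z w + m4 0 3 4 6 x y z w + m4 0 2 5 6 x y z w

theorem hodge3_phi_W (v : Fin 4 → RV 7) : hodge3 phi v = W (v 0) (v 1) (v 2) (v 3) :=
  hodge3_phi_eq v

theorem W_add (x x' y z w : RV 7) : W (x + x') y z w = W x y z w + W x' y z w := by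
  simp only [W, m4, PiLp.add_apply]; ring

theorem W_smul (r : ℝ) (x y z w : RV 7) : W (r • x) y z w = r * W x y z w := by
  simp only [W, m4, PiLp.smul_apply, smul_eq_mul]; ring

theorem W_add2 (x y y' z w : RV 7) : W x (y + y') z w = W x y z w + W x y' z w := by
  simp only [W, m4, PiLp.add_apply]; ring

theorem W_smul2 (r : ℝ) (x y z w : RV 7) : W x (r • y) z w = r * W x y z w := by
  simp only [W, m4, PiLp.smul_apply, smul_eq_mul]; ring

theorem W_swap1 (x y z w : RV 7) : W x y z w = - W x z y w := by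
  simp only [W, m4]; ring

theorem W_swap2 (x y z w : RV 7) : W x y z w = - W x y w z := by
  simp only [W, m4]; ring

theorem W_neg (x y z w : RV 7) : W (-x) y z w = - W x y z w := by
  rw [← neg_one_smul ℝ x, W_smul, neg_one_mul]

/-- `d(*φ)` as a function of five vectors -/
noncomputable def F (μ : Br 7) (a b c d e : RV 7) : ℝ :=
  - W (μ a b) c d e + W (μ a c) b d e - W (μ a d) b c e + W (μ a e) b c d - W (μ b c) a d e
  + W (μ b d) a c e - W (μ b e) a c d - W (μ c d) a b e + W (μ c e) a b d - W (μ d e) a b c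

theorem hodge3_cons (x : RV 7) (f : Fin 3 → RV 7) :
    hodge3 phi (Fin.cons x f) = W x (f 0) (f 1) (f 2) := by
  rw [hodge3_phi_W]; rfl

theorem ceD_hodge3_phi (μ : Br 7) (v : Fin 5 → RV 7) :
    ceD μ (hodge3 phi) v = F μ (v 0) (v 1) (v 2) (v 3) (v 4) := by
  have e : ceD μ (hodge3 phi) v = ∑ j : Fin 5, ∑ i : Fin 4, if i.castSucc < j then
      (-1) ^ ((i : ℕ) + (j : ℕ)) * W (μ (v i.castSucc) (v j)) (v (j.succAbove (i.succAbove 0)))
      (v (j.succAbove (i.succAbove 1))) (v (j.succAbove (i.succAbove 2))) else 0 := by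
    rw [ceD]
    apply Finset.sum_congr rfl; intro j _
    apply Finset.sum_congr rfl; intro i _
    rw [hodge3_cons]
  rw [e]
  simp only [Fin.sum_univ_five, Fin.sum_univ_four]
  simp [Fin.succAbove, F]
  ring

theorem F_swap1 {μ : Br 7} (h : IsLie μ) (a b c d e : RV 7) :
    F μ a b c d e = - F μ b a c d e := by
  rw [F, F, h.anti b a, W_neg, W_swap1 (μ c d) b a e, W_swap1 (μ c e) b a d,
    W_swap1 (μ d e) b a c]
  ring

theorem F_swap2 {μ : Br 7} (h : IsLie μ) (a b c d e : RV 7) :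
    F μ a b c d e = - F μ a c b d e := by
  rw [F, F, h.anti c b, W_neg, W_swap1 (μ a d) c b e, W_swap1 (μ a e) c b d,
    W_swap2 (μ d e) a c b]
  ring

theorem F_swap3 {μ : Br 7} (h : IsLie μ) (a b c d e : RV 7) :
    F μ a b c d e = - F μ a b d c e := by
  rw [F, F, h.anti d c, W_neg, W_swap1 (μ a b) d c e, W_swap2 (μ a e) b d c,
    W_swap2 (μ b e) a d c]
  ring

theorem F_swap4 {μ : Br 7} (h : IsLie μ) (a b c d e : RV 7) :
    F μ a b c d e = - F μ a b c e d := by
  rw [F, F, h.anti e d, W_neg, W_swap2 (μ a b) c e d, W_swap2 (μ a c) b e d,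
    W_swap2 (μ b c) a e d]
  ring

theorem F_add (μ : Br 7) (a a' b c d e : RV 7) :
    F μ (a + a') b c d e = F μ a b c d e + F μ a' b c d e := by
  simp only [F, map_add, LinearMap.add_apply, W_add, W_add2]
  ring

theorem F_smul (μ : Br 7) (r : ℝ) (a b c d e : RV 7) :
    F μ (r • a) b c d e = r * F μ a b c d e := by
  simp only [F, map_smul, LinearMap.smul_apply, W_smul, W_smul2]
  ring

/-- `F` as a linear map in the first argument -/
noncomputable def FL (μ : Br 7) (b c d e : RV 7) : RV 7 →ₗ[ℝ] ℝ where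
  toFun a := F μ a b c d e
  map_add' _ _ := F_add μ _ _ _ _ _ _
  map_smul' _ _ := F_smul μ _ _ _ _ _ _

theorem F_lin1 (μ : Br 7) (b c d e : RV 7) (h0 : ∀ i, F μ (stdE i) b c d e = 0) (a : RV 7) :
    F μ a b c d e = 0 := by
  change FL μ b c d e a = 0
  rw [← sum_stdE a, map_sum]
  apply Finset.sum_eq_zero
  intro k _
  rw [map_smul]
  change _ • F μ (stdE k) b c d e = 0
  rw [h0, smul_zero]

theorem F_lin2 {μ : Br 7} (h : IsLie μ) (a c d e : RV 7) (h0 : ∀ i, F μ a (stdE i) c d e = 0)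
    (b : RV 7) : F μ a b c d e = 0 := by
  rw [F_swap1 h, neg_eq_zero]
  apply F_lin1
  intro i
  rw [F_swap1 h, h0, neg_zero]

theorem F_lin3 {μ : Br 7} (h : IsLie μ) (a b d e : RV 7) (h0 : ∀ i, F μ a b (stdE i) d e = 0)
    (c : RV 7) : F μ a b c d e = 0 := by
  rw [F_swap2 h, neg_eq_zero]
  apply F_lin2 h
  intro i
  rw [F_swap2 h, h0, neg_zero]

theorem F_lin4 {μ : Br 7} (h : IsLie μ) (a b c e : RV 7) (h0 : ∀ i, F μ a b c (stdE i) e = 0)
    (d : RV 7) : F μ a b c d e = 0 := by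
  rw [F_swap3 h, neg_eq_zero]
  apply F_lin3 h
  intro i
  rw [F_swap3 h, h0, neg_zero]

theorem F_lin5 {μ : Br 7} (h : IsLie μ) (a b c d : RV 7) (h0 : ∀ i, F μ a b c d (stdE i) = 0)
    (e : RV 7) : F μ a b c d e = 0 := by
  rw [F_swap4 h, neg_eq_zero]
  apply F_lin4 h
  intro i
  rw [F_swap4 h, h0, neg_zero]

theorem F_zero_of_basis {μ : Br 7} (h : IsLie μ)
    (h0 : ∀ i j k l m, F μ (stdE i) (stdE j) (stdE k) (stdE l) (stdE m) = 0) (a b c d e : RV 7) :
    F μ a b c d e = 0 := by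
  apply F_lin5 h; intro m
  apply F_lin4 h; intro l
  apply F_lin3 h; intro k
  apply F_lin2 h; intro j
  apply F_lin1; intro i
  exact h0 i j k l m

section sort

variable {P : Fin 7 → Fin 7 → Fin 7 → Fin 7 → Fin 7 → Prop}

theorem sort2 (s1 : ∀ i j k l m, P i j k l m → P j i k l m)
    (h : ∀ i j k l m, i ≤ j → P i j k l m) : ∀ i j k l m, P i j k l m := by
  intro i j k l m
  rcases le_total i j with h1 | h1
  · exact h _ _ _ _ _ h1
  · exact s1 _ _ _ _ _ (h _ _ _ _ _ h1)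

theorem sort3 (s1 : ∀ i j k l m, P i j k l m → P j i k l m)
    (s2 : ∀ i j k l m, P i j k l m → P i k j l m)
    (h : ∀ i j k l m, i ≤ j → j ≤ k → P i j k l m) : ∀ i j k l m, P i j k l m := by
  apply sort2 s1
  intro i j k l m hij
  rcases le_total j k with h1 | h1
  · exact h _ _ _ _ _ hij h1
  · apply s2
    rcases le_total i k with h2 | h2
    · exact h _ _ _ _ _ h2 h1
    · apply s1
      exact h _ _ _ _ _ h2 hij

theorem sort4 (s1 : ∀ i j k l m, P i j k l m → P j i k l m)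
    (s2 : ∀ i j k l m, P i j k l m → P i k j l m)
    (s3 : ∀ i j k l m, P i j k l m → P i j l k m)
    (h : ∀ i j k l m, i ≤ j → j ≤ k → k ≤ l → P i j k l m) : ∀ i j k l m, P i j k l m := by
  apply sort3 s1 s2
  intro i j k l m hij hjk
  rcases le_total k l with h1 | h1
  · exact h _ _ _ _ _ hij hjk h1
  · apply s3
    rcases le_total j l with h2 | h2
    · exact h _ _ _ _ _ hij h2 h1
    · apply s2
      rcases le_total i l with h3 | h3
      · exact h _ _ _ _ _ h3 h2 hjk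
      · apply s1
        exact h _ _ _ _ _ h3 hij hjk

theorem sort5 (s1 : ∀ i j k l m, P i j k l m → P j i k l m)
    (s2 : ∀ i j k l m, P i j k l m → P i k j l m)
    (s3 : ∀ i j k l m, P i j k l m → P i j l k m)
    (s4 : ∀ i j k l m, P i j k l m → P i j k m l)
    (h : ∀ i j k l m, i ≤ j → j ≤ k → k ≤ l → l ≤ m → P i j k l m) :
    ∀ i j k l m, P i j k l m := by
  apply sort4 s1 s2 s3
  intro i j k l m hij hjk hkl
  rcases le_total l m with h1 | h1
  · exact h _ _ _ _ _ hij hjk hkl h1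
  · apply s4
    rcases le_total k m with h2 | h2
    · exact h _ _ _ _ _ hij hjk h2 h1
    · apply s3
      rcases le_total j m with h3 | h3
      · exact h _ _ _ _ _ hij h3 h2 hkl
      · apply s2
        rcases le_total i m with h4 | h4
        · exact h _ _ _ _ _ h4 h3 hjk hkl
        · apply s1
          exact h _ _ _ _ _ h4 hij hjk hkl

end sort


/-- the strictly increasing 5-tuples -/
def L21 : List (Fin 7 × Fin 7 × Fin 7 × Fin 7 × Fin 7) :=
  [(0, 1, 2, 3, 4), (0, 1, 2, 3, 5), (0, 1, 2, 3, 6), (0, 1, 2, 4, 5), (0, 1, 2, 4, 6), (0, 1, 2, 5, 6), (0, 1, 3, 4, 5), (0, 1, 3, 4, 6), (0, 1, 3, 5, 6), (0, 1, 4, 5, 6), (0, 2, 3, 4, 5), (0, 2, 3, 4, 6), (0, 2, 3, 5, 6), (0, 2, 4, 5, 6), (0, 3, 4, 5, 6), (1, 2, 3, 4, 5), (1, 2, 3, 4, 6), (1, 2, 3, 5, 6), (1, 2, 4, 5, 6), (1, 3, 4, 5, 6), (2, 3, 4, 5, 6)]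

theorem mem_L21 : ∀ i j k l m : Fin 7, i < j → j < k → k < l → l < m → (i, j, k, l, m) ∈ L21 := by
  decide +kernel


theorem F_zero {μ : Br 7} (h : IsLie μ)
    (h0 : ∀ i j k l m, (i, j, k, l, m) ∈ L21 →
      F μ (stdE i) (stdE j) (stdE k) (stdE l) (stdE m) = 0) (a b c d e : RV 7) : F μ a b c d e = 0 := by
  apply F_zero_of_basis h
  have hd : ∀ x : ℝ, x = -x → x = 0 := fun x hx => by linarith
  apply sort5
  · intro i j k l m hp
    rw [F_swap1 h, hp, neg_zero]
  · intro i j k l m hp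
    rw [F_swap2 h, hp, neg_zero]
  · intro i j k l m hp
    rw [F_swap3 h, hp, neg_zero]
  · intro i j k l m hp
    rw [F_swap4 h, hp, neg_zero]
  · intro i j k l m hij hjk hkl hlm
    rcases hij.eq_or_lt with h1 | h1
    · subst h1; exact hd _ (F_swap1 h _ _ _ _ _)
    rcases hjk.eq_or_lt with h2 | h2
    · subst h2; exact hd _ (F_swap2 h _ _ _ _ _)
    rcases hkl.eq_or_lt with h3 | h3
    · subst h3; exact hd _ (F_swap3 h _ _ _ _ _)
    rcases hlm.eq_or_lt with h4 | h4
    · subst h4; exact hd _ (F_swap4 h _ _ _ _ _)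
    exact h0 i j k l m (mem_L21 i j k l m h1 h2 h3 h4)

theorem W_012 (x : RV 7) : W x (stdE 0) (stdE 1) (stdE 2) = - x 3 := by
  simp (decide := true) [W, m4]

theorem W_013 (x : RV 7) : W x (stdE 0) (stdE 1) (stdE 3) = x 2 := by
  simp (decide := true) [W, m4]

theorem W_014 (x : RV 7) : W x (stdE 0) (stdE 1) (stdE 4) = - x 5 := by
  simp (decide := true) [W, m4]

theorem W_015 (x : RV 7) : W x (stdE 0) (stdE 1) (stdE 5) = x 4 := by
  simp (decide := true) [W, m4]

theorem W_016 (x : RV 7) : W x (stdE 0) (stdE 1) (stdE 6) = 0 := by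
  simp (decide := true) [W, m4]

theorem W_023 (x : RV 7) : W x (stdE 0) (stdE 2) (stdE 3) = - x 1 := by
  simp (decide := true) [W, m4]

theorem W_024 (x : RV 7) : W x (stdE 0) (stdE 2) (stdE 4) = 0 := by
  simp (decide := true) [W, m4]

theorem W_025 (x : RV 7) : W x (stdE 0) (stdE 2) (stdE 5) = - x 6 := by
  simp (decide := true) [W, m4]

theorem W_026 (x : RV 7) : W x (stdE 0) (stdE 2) (stdE 6) = x 5 := by
  simp (decide := true) [W, m4]

theorem W_034 (x : RV 7) : W x (stdE 0) (stdE 3) (stdE 4) = - x 6 := by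
  simp (decide := true) [W, m4]

theorem W_035 (x : RV 7) : W x (stdE 0) (stdE 3) (stdE 5) = 0 := by
  simp (decide := true) [W, m4]

theorem W_036 (x : RV 7) : W x (stdE 0) (stdE 3) (stdE 6) = x 4 := by
  simp (decide := true) [W, m4]

theorem W_045 (x : RV 7) : W x (stdE 0) (stdE 4) (stdE 5) = - x 1 := by
  simp (decide := true) [W, m4]

theorem W_046 (x : RV 7) : W x (stdE 0) (stdE 4) (stdE 6) = - x 3 := by
  simp (decide := true) [W, m4]

theorem W_056 (x : RV 7) : W x (stdE 0) (stdE 5) (stdE 6) = - x 2 := by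
  simp (decide := true) [W, m4]

theorem W_123 (x : RV 7) : W x (stdE 1) (stdE 2) (stdE 3) = x 0 := by
  simp (decide := true) [W, m4]

theorem W_124 (x : RV 7) : W x (stdE 1) (stdE 2) (stdE 4) = - x 6 := by
  simp (decide := true) [W, m4]

theorem W_125 (x : RV 7) : W x (stdE 1) (stdE 2) (stdE 5) = 0 := by
  simp (decide := true) [W, m4]

theorem W_126 (x : RV 7) : W x (stdE 1) (stdE 2) (stdE 6) = x 4 := by
  simp (decide := true) [W, m4]

theorem W_134 (x : RV 7) : W x (stdE 1) (stdE 3) (stdE 4) = 0 := by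
  simp (decide := true) [W, m4]

theorem W_135 (x : RV 7) : W x (stdE 1) (stdE 3) (stdE 5) = x 6 := by
  simp (decide := true) [W, m4]

theorem W_136 (x : RV 7) : W x (stdE 1) (stdE 3) (stdE 6) = - x 5 := by
  simp (decide := true) [W, m4]

theorem W_145 (x : RV 7) : W x (stdE 1) (stdE 4) (stdE 5) = x 0 := by
  simp (decide := true) [W, m4]

theorem W_146 (x : RV 7) : W x (stdE 1) (stdE 4) (stdE 6) = - x 2 := by
  simp (decide := true) [W, m4]

theorem W_156 (x : RV 7) : W x (stdE 1) (stdE 5) (stdE 6) = x 3 := by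
  simp (decide := true) [W, m4]

theorem W_234 (x : RV 7) : W x (stdE 2) (stdE 3) (stdE 4) = - x 5 := by
  simp (decide := true) [W, m4]

theorem W_235 (x : RV 7) : W x (stdE 2) (stdE 3) (stdE 5) = x 4 := by
  simp (decide := true) [W, m4]

theorem W_236 (x : RV 7) : W x (stdE 2) (stdE 3) (stdE 6) = 0 := by
  simp (decide := true) [W, m4]

theorem W_245 (x : RV 7) : W x (stdE 2) (stdE 4) (stdE 5) = - x 3 := by
  simp (decide := true) [W, m4]

theorem W_246 (x : RV 7) : W x (stdE 2) (stdE 4) (stdE 6) = x 1 := by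
  simp (decide := true) [W, m4]

theorem W_256 (x : RV 7) : W x (stdE 2) (stdE 5) (stdE 6) = x 0 := by
  simp (decide := true) [W, m4]

theorem W_345 (x : RV 7) : W x (stdE 3) (stdE 4) (stdE 5) = x 2 := by
  simp (decide := true) [W, m4]

theorem W_346 (x : RV 7) : W x (stdE 3) (stdE 4) (stdE 6) = x 0 := by
  simp (decide := true) [W, m4]

theorem W_356 (x : RV 7) : W x (stdE 3) (stdE 5) (stdE 6) = - x 1 := by
  simp (decide := true) [W, m4]

theorem W_456 (x : RV 7) : W x (stdE 4) (stdE 5) (stdE 6) = 0 := by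
  simp (decide := true) [W, m4]


end Pool.Agent.H.MP_64d93e_gt
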