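import Pool.Agent.H.MP_64d93e_gt.Bryant1
import Pool.Agent.H.MP_64d93e_gt.G2a
import Pool.Agent.H.MP_64d93e_gt.Curv2

namespace Pool.Agent.H.MP_64d93e_gt

/-- `φ` as a function of three vectors -/
noncomputable def V3 (x y z : RV 7) : ℝ :=
  (x 0 * (y 1 * z 6 - y 6 * z 1) - x 1 * (y 0 * z 6 - y 6 * z 0) + x 6 * (y 0 * z 1 - y 1 * z 0))
  + (x 2 * (y 3 * z 6 - y 6 * z 3) - x 3 * (y 2 * z 6 - y 6 * z 2) + x 6 * (y 2 * z 3 - y 3 * z 2))
  + (x 4 * (y 5 * z 6 - y 6 * z 5) - x 5 * (y 4 * z 6 - y 6 * z 4) + x 6 * (y 4 * z 5 - y 5 * z 4))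
  + (x 0 * (y 2 * z 4 - y 4 * z 2) - x 2 * (y 0 * z 4 - y 4 * z 0) + x 4 * (y 0 * z 2 - y 2 * z 0))
  - (x 0 * (y 3 * z 5 - y 5 * z 3) - x 3 * (y 0 * z 5 - y 5 * z 0) + x 5 * (y 0 * z 3 - y 3 * z 0))
  - (x 1 * (y 2 * z 5 - y 5 * z 2) - x 2 * (y 1 * z 5 - y 5 * z 1) + x 5 * (y 1 * z 2 - y 2 * z 1))
  - (x 1 * (y 3 * z 4 - y 4 * z 3) - x 3 * (y 1 * z 4 - y 4 * z 1) + x 4 * (y 1 * z 3 - y 3 * z 1))

theorem phi_V3 (v : Fin 3 → RV 7) : phi v = V3 (v 0) (v 1) (v 2) := by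
  simp only [phi, e3, Matrix.det_fin_three, Matrix.of_apply, Matrix.cons_val_zero,
    Matrix.cons_val_one, Matrix.cons_val, V3]
  ring

theorem phi_cons (x : RV 7) (f : Fin 2 → RV 7) : phi (Fin.cons x f) = V3 x (f 0) (f 1) := by
  rw [phi_V3]; rfl

theorem ceD_phi (μ : Br 7) (v : Fin 4 → RV 7) :
    ceD μ phi v = - V3 (μ (v 0) (v 1)) (v 2) (v 3) + V3 (μ (v 0) (v 2)) (v 1) (v 3)
      - V3 (μ (v 0) (v 3)) (v 1) (v 2) - V3 (μ (v 1) (v 2)) (v 0) (v 3)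
      + V3 (μ (v 1) (v 3)) (v 0) (v 2) - V3 (μ (v 2) (v 3)) (v 0) (v 1) := by
  have e : ceD μ phi v = ∑ j : Fin 4, ∑ i : Fin 3, if i.castSucc < j then
      (-1) ^ ((i : ℕ) + (j : ℕ)) * V3 (μ (v i.castSucc) (v j)) (v (j.succAbove (i.succAbove 0)))
      (v (j.succAbove (i.succAbove 1))) else 0 := by
    rw [ceD]
    apply Finset.sum_congr rfl; intro j _
    apply Finset.sum_congr rfl; intro i _
    rw [phi_cons]
  rw [e]
  simp only [Fin.sum_univ_four, Fin.sum_univ_three]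
  simp [Fin.succAbove]
  ring

/-- structure constants -/
noncomputable def cc (μ : Br 7) (i j k : Fin 7) : ℝ := μ (stdE i) (stdE j) k

theorem cc_anti {μ : Br 7} (h : IsLie μ) (i j k : Fin 7) : cc μ i j k = - cc μ j i k := by
  rw [cc, cc, h.anti, PiLp.neg_apply]

theorem mu_expand (μ : Br 7) (i l : Fin 7) (x : RV 7) :
    μ (stdE i) x l = ∑ m, x m * cc μ i m l := by
  conv_lhs => rw [← sum_stdE x]
  simp only [map_sum, map_smul, inner_stdE, cc]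
  simp only [WithLp.ofLp_sum, Finset.sum_apply, PiLp.smul_apply, smul_eq_mul]

theorem V3_01 (x : RV 7) : V3 x (stdE 0) (stdE 1) = x 6 := by
  simp (decide := true) [V3]

theorem V3_02 (x : RV 7) : V3 x (stdE 0) (stdE 2) = x 4 := by
  simp (decide := true) [V3]

theorem V3_03 (x : RV 7) : V3 x (stdE 0) (stdE 3) = - x 5 := by
  simp (decide := true) [V3]

theorem V3_04 (x : RV 7) : V3 x (stdE 0) (stdE 4) = - x 2 := by
  simp (decide := true) [V3]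

theorem V3_05 (x : RV 7) : V3 x (stdE 0) (stdE 5) = x 3 := by
  simp (decide := true) [V3]

theorem V3_06 (x : RV 7) : V3 x (stdE 0) (stdE 6) = - x 1 := by
  simp (decide := true) [V3]

theorem V3_12 (x : RV 7) : V3 x (stdE 1) (stdE 2) = - x 5 := by
  simp (decide := true) [V3]

theorem V3_13 (x : RV 7) : V3 x (stdE 1) (stdE 3) = - x 4 := by
  simp (decide := true) [V3]

theorem V3_14 (x : RV 7) : V3 x (stdE 1) (stdE 4) = x 3 := by
  simp (decide := true) [V3]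

theorem V3_15 (x : RV 7) : V3 x (stdE 1) (stdE 5) = x 2 := by
  simp (decide := true) [V3]

theorem V3_16 (x : RV 7) : V3 x (stdE 1) (stdE 6) = x 0 := by
  simp (decide := true) [V3]

theorem V3_23 (x : RV 7) : V3 x (stdE 2) (stdE 3) = x 6 := by
  simp (decide := true) [V3]

theorem V3_24 (x : RV 7) : V3 x (stdE 2) (stdE 4) = x 0 := by
  simp (decide := true) [V3]

theorem V3_25 (x : RV 7) : V3 x (stdE 2) (stdE 5) = - x 1 := by
  simp (decide := true) [V3]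

theorem V3_26 (x : RV 7) : V3 x (stdE 2) (stdE 6) = - x 3 := by
  simp (decide := true) [V3]

theorem V3_34 (x : RV 7) : V3 x (stdE 3) (stdE 4) = - x 1 := by
  simp (decide := true) [V3]

theorem V3_35 (x : RV 7) : V3 x (stdE 3) (stdE 5) = - x 0 := by
  simp (decide := true) [V3]

theorem V3_36 (x : RV 7) : V3 x (stdE 3) (stdE 6) = x 2 := by
  simp (decide := true) [V3]

theorem V3_45 (x : RV 7) : V3 x (stdE 4) (stdE 5) = x 6 := by
  simp (decide := true) [V3]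

theorem V3_46 (x : RV 7) : V3 x (stdE 4) (stdE 6) = - x 5 := by
  simp (decide := true) [V3]

theorem V3_56 (x : RV 7) : V3 x (stdE 5) (stdE 6) = x 4 := by
  simp (decide := true) [V3]

theorem closed_0123 {μ : Br 7} (h : ∀ v : Fin 4 → RV 7, ceD μ phi v = 0) :
    -cc μ 0 1 6 - cc μ 0 2 4 + cc μ 0 3 5 + cc μ 1 2 5 + cc μ 1 3 4 - cc μ 2 3 6 = 0 := by
  have h1 := h ![stdE 0, stdE 1, stdE 2, stdE 3]
  rw [ceD_phi] at h1
  simp only [Matrix.cons_val_zero, Matrix.cons_val_one, Matrix.cons_val, V3_01, V3_02, V3_03, V3_12, V3_13, V3_23] at h1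
  simp only [cc]
  linarith

theorem closed_0124 {μ : Br 7} (h : ∀ v : Fin 4 → RV 7, ceD μ phi v = 0) :
    -cc μ 0 1 0 + cc μ 0 2 3 + cc μ 0 4 5 + cc μ 1 2 2 + cc μ 1 4 4 - cc μ 2 4 6 = 0 := by
  have h1 := h ![stdE 0, stdE 1, stdE 2, stdE 4]
  rw [ceD_phi] at h1
  simp only [Matrix.cons_val_zero, Matrix.cons_val_one, Matrix.cons_val, V3_01, V3_02, V3_04, V3_12, V3_14, V3_24] at h1
  simp only [cc]
  linarith

theorem closed_0125 {μ : Br 7} (h : ∀ v : Fin 4 → RV 7, ceD μ phi v = 0) :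
    cc μ 0 1 1 + cc μ 0 2 2 + cc μ 0 5 5 - cc μ 1 2 3 + cc μ 1 5 4 - cc μ 2 5 6 = 0 := by
  have h1 := h ![stdE 0, stdE 1, stdE 2, stdE 5]
  rw [ceD_phi] at h1
  simp only [Matrix.cons_val_zero, Matrix.cons_val_one, Matrix.cons_val, V3_01, V3_02, V3_05, V3_12, V3_15, V3_25] at h1
  simp only [cc]
  linarith

theorem closed_0126 {μ : Br 7} (h : ∀ v : Fin 4 → RV 7, ceD μ phi v = 0) :
    cc μ 0 1 3 + cc μ 0 2 0 + cc μ 0 6 5 + cc μ 1 2 1 + cc μ 1 6 4 - cc μ 2 6 6 = 0 := by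
  have h1 := h ![stdE 0, stdE 1, stdE 2, stdE 6]
  rw [ceD_phi] at h1
  simp only [Matrix.cons_val_zero, Matrix.cons_val_one, Matrix.cons_val, V3_01, V3_02, V3_06, V3_12, V3_16, V3_26] at h1
  simp only [cc]
  linarith

theorem closed_0134 {μ : Br 7} (h : ∀ v : Fin 4 → RV 7, ceD μ phi v = 0) :
    cc μ 0 1 1 + cc μ 0 3 3 + cc μ 0 4 4 + cc μ 1 3 2 - cc μ 1 4 5 - cc μ 3 4 6 = 0 := by
  have h1 := h ![stdE 0, stdE 1, stdE 3, stdE 4]
  rw [ceD_phi] at h1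
  simp only [Matrix.cons_val_zero, Matrix.cons_val_one, Matrix.cons_val, V3_01, V3_03, V3_04, V3_13, V3_14, V3_34] at h1
  simp only [cc]
  linarith

theorem closed_0135 {μ : Br 7} (h : ∀ v : Fin 4 → RV 7, ceD μ phi v = 0) :
    cc μ 0 1 0 + cc μ 0 3 2 + cc μ 0 5 4 - cc μ 1 3 3 - cc μ 1 5 5 - cc μ 3 5 6 = 0 := by
  have h1 := h ![stdE 0, stdE 1, stdE 3, stdE 5]
  rw [ceD_phi] at h1
  simp only [Matrix.cons_val_zero, Matrix.cons_val_one, Matrix.cons_val, V3_01, V3_03, V3_05, V3_13, V3_15, V3_35] at h1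
  simp only [cc]
  linarith

theorem closed_0136 {μ : Br 7} (h : ∀ v : Fin 4 → RV 7, ceD μ phi v = 0) :
    -cc μ 0 1 2 + cc μ 0 3 0 + cc μ 0 6 4 + cc μ 1 3 1 - cc μ 1 6 5 - cc μ 3 6 6 = 0 := by
  have h1 := h ![stdE 0, stdE 1, stdE 3, stdE 6]
  rw [ceD_phi] at h1
  simp only [Matrix.cons_val_zero, Matrix.cons_val_one, Matrix.cons_val, V3_01, V3_03, V3_06, V3_13, V3_16, V3_36] at h1
  simp only [cc]
  linarith

theorem closed_0145 {μ : Br 7} (h : ∀ v : Fin 4 → RV 7, ceD μ phi v = 0) :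
    -cc μ 0 1 6 + cc μ 0 4 2 - cc μ 0 5 3 - cc μ 1 4 3 - cc μ 1 5 2 - cc μ 4 5 6 = 0 := by
  have h1 := h ![stdE 0, stdE 1, stdE 4, stdE 5]
  rw [ceD_phi] at h1
  simp only [Matrix.cons_val_zero, Matrix.cons_val_one, Matrix.cons_val, V3_01, V3_04, V3_05, V3_14, V3_15, V3_45] at h1
  simp only [cc]
  linarith

theorem closed_0146 {μ : Br 7} (h : ∀ v : Fin 4 → RV 7, ceD μ phi v = 0) :
    cc μ 0 1 5 + cc μ 0 4 0 - cc μ 0 6 3 + cc μ 1 4 1 - cc μ 1 6 2 - cc μ 4 6 6 = 0 := by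
  have h1 := h ![stdE 0, stdE 1, stdE 4, stdE 6]
  rw [ceD_phi] at h1
  simp only [Matrix.cons_val_zero, Matrix.cons_val_one, Matrix.cons_val, V3_01, V3_04, V3_06, V3_14, V3_16, V3_46] at h1
  simp only [cc]
  linarith

theorem closed_0156 {μ : Br 7} (h : ∀ v : Fin 4 → RV 7, ceD μ phi v = 0) :
    -cc μ 0 1 4 + cc μ 0 5 0 - cc μ 0 6 2 + cc μ 1 5 1 + cc μ 1 6 3 - cc μ 5 6 6 = 0 := by
  have h1 := h ![stdE 0, stdE 1, stdE 5, stdE 6]
  rw [ceD_phi] at h1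
  simp only [Matrix.cons_val_zero, Matrix.cons_val_one, Matrix.cons_val, V3_01, V3_05, V3_06, V3_15, V3_16, V3_56] at h1
  simp only [cc]
  linarith

theorem closed_0234 {μ : Br 7} (h : ∀ v : Fin 4 → RV 7, ceD μ phi v = 0) :
    cc μ 0 2 1 + cc μ 0 3 0 - cc μ 0 4 6 + cc μ 2 3 2 - cc μ 2 4 5 - cc μ 3 4 4 = 0 := by
  have h1 := h ![stdE 0, stdE 2, stdE 3, stdE 4]
  rw [ceD_phi] at h1
  simp only [Matrix.cons_val_zero, Matrix.cons_val_one, Matrix.cons_val, V3_02, V3_03, V3_04, V3_23, V3_24, V3_34] at h1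
  simp only [cc]
  linarith

theorem closed_0235 {μ : Br 7} (h : ∀ v : Fin 4 → RV 7, ceD μ phi v = 0) :
    cc μ 0 2 0 - cc μ 0 3 1 - cc μ 0 5 6 - cc μ 2 3 3 - cc μ 2 5 5 - cc μ 3 5 4 = 0 := by
  have h1 := h ![stdE 0, stdE 2, stdE 3, stdE 5]
  rw [ceD_phi] at h1
  simp only [Matrix.cons_val_zero, Matrix.cons_val_one, Matrix.cons_val, V3_02, V3_03, V3_05, V3_23, V3_25, V3_35] at h1
  simp only [cc]
  linarith

theorem closed_0236 {μ : Br 7} (h : ∀ v : Fin 4 → RV 7, ceD μ phi v = 0) :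
    -cc μ 0 2 2 - cc μ 0 3 3 - cc μ 0 6 6 + cc μ 2 3 1 - cc μ 2 6 5 - cc μ 3 6 4 = 0 := by
  have h1 := h ![stdE 0, stdE 2, stdE 3, stdE 6]
  rw [ceD_phi] at h1
  simp only [Matrix.cons_val_zero, Matrix.cons_val_one, Matrix.cons_val, V3_02, V3_03, V3_06, V3_23, V3_26, V3_36] at h1
  simp only [cc]
  linarith

theorem closed_0245 {μ : Br 7} (h : ∀ v : Fin 4 → RV 7, ceD μ phi v = 0) :
    -cc μ 0 2 6 - cc μ 0 4 1 - cc μ 0 5 0 - cc μ 2 4 3 - cc μ 2 5 2 - cc μ 4 5 4 = 0 := by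
  have h1 := h ![stdE 0, stdE 2, stdE 4, stdE 5]
  rw [ceD_phi] at h1
  simp only [Matrix.cons_val_zero, Matrix.cons_val_one, Matrix.cons_val, V3_02, V3_04, V3_05, V3_24, V3_25, V3_45] at h1
  simp only [cc]
  linarith

theorem closed_0246 {μ : Br 7} (h : ∀ v : Fin 4 → RV 7, ceD μ phi v = 0) :
    cc μ 0 2 5 - cc μ 0 4 3 - cc μ 0 6 0 + cc μ 2 4 1 - cc μ 2 6 2 - cc μ 4 6 4 = 0 := by
  have h1 := h ![stdE 0, stdE 2, stdE 4, stdE 6]
  rw [ceD_phi] at h1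
  simp only [Matrix.cons_val_zero, Matrix.cons_val_one, Matrix.cons_val, V3_02, V3_04, V3_06, V3_24, V3_26, V3_46] at h1
  simp only [cc]
  linarith

theorem closed_0256 {μ : Br 7} (h : ∀ v : Fin 4 → RV 7, ceD μ phi v = 0) :
    -cc μ 0 2 4 - cc μ 0 5 3 + cc μ 0 6 1 + cc μ 2 5 1 + cc μ 2 6 3 - cc μ 5 6 4 = 0 := by
  have h1 := h ![stdE 0, stdE 2, stdE 5, stdE 6]
  rw [ceD_phi] at h1
  simp only [Matrix.cons_val_zero, Matrix.cons_val_one, Matrix.cons_val, V3_02, V3_05, V3_06, V3_25, V3_26, V3_56] at h1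
  simp only [cc]
  linarith

theorem closed_0345 {μ : Br 7} (h : ∀ v : Fin 4 → RV 7, ceD μ phi v = 0) :
    -cc μ 0 3 6 - cc μ 0 4 0 + cc μ 0 5 1 - cc μ 3 4 3 - cc μ 3 5 2 + cc μ 4 5 5 = 0 := by
  have h1 := h ![stdE 0, stdE 3, stdE 4, stdE 5]
  rw [ceD_phi] at h1
  simp only [Matrix.cons_val_zero, Matrix.cons_val_one, Matrix.cons_val, V3_03, V3_04, V3_05, V3_34, V3_35, V3_45] at h1
  simp only [cc]
  linarith

theorem closed_0346 {μ : Br 7} (h : ∀ v : Fin 4 → RV 7, ceD μ phi v = 0) :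
    cc μ 0 3 5 + cc μ 0 4 2 + cc μ 0 6 1 + cc μ 3 4 1 - cc μ 3 6 2 + cc μ 4 6 5 = 0 := by
  have h1 := h ![stdE 0, stdE 3, stdE 4, stdE 6]
  rw [ceD_phi] at h1
  simp only [Matrix.cons_val_zero, Matrix.cons_val_one, Matrix.cons_val, V3_03, V3_04, V3_06, V3_34, V3_36, V3_46] at h1
  simp only [cc]
  linarith

theorem closed_0356 {μ : Br 7} (h : ∀ v : Fin 4 → RV 7, ceD μ phi v = 0) :
    -cc μ 0 3 4 + cc μ 0 5 2 + cc μ 0 6 0 + cc μ 3 5 1 + cc μ 3 6 3 + cc μ 5 6 5 = 0 := by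
  have h1 := h ![stdE 0, stdE 3, stdE 5, stdE 6]
  rw [ceD_phi] at h1
  simp only [Matrix.cons_val_zero, Matrix.cons_val_one, Matrix.cons_val, V3_03, V3_05, V3_06, V3_35, V3_36, V3_56] at h1
  simp only [cc]
  linarith

theorem closed_0456 {μ : Br 7} (h : ∀ v : Fin 4 → RV 7, ceD μ phi v = 0) :
    -cc μ 0 4 4 - cc μ 0 5 5 - cc μ 0 6 6 + cc μ 4 5 1 + cc μ 4 6 3 + cc μ 5 6 2 = 0 := by
  have h1 := h ![stdE 0, stdE 4, stdE 5, stdE 6]
  rw [ceD_phi] at h1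
  simp only [Matrix.cons_val_zero, Matrix.cons_val_one, Matrix.cons_val, V3_04, V3_05, V3_06, V3_45, V3_46, V3_56] at h1
  simp only [cc]
  linarith

theorem closed_1234 {μ : Br 7} (h : ∀ v : Fin 4 → RV 7, ceD μ phi v = 0) :
    cc μ 1 2 1 + cc μ 1 3 0 - cc μ 1 4 6 - cc μ 2 3 3 - cc μ 2 4 4 + cc μ 3 4 5 = 0 := by
  have h1 := h ![stdE 1, stdE 2, stdE 3, stdE 4]
  rw [ceD_phi] at h1
  simp only [Matrix.cons_val_zero, Matrix.cons_val_one, Matrix.cons_val, V3_12, V3_13, V3_14, V3_23, V3_24, V3_34] at h1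
  simp only [cc]
  linarith

theorem closed_1235 {μ : Br 7} (h : ∀ v : Fin 4 → RV 7, ceD μ phi v = 0) :
    cc μ 1 2 0 - cc μ 1 3 1 - cc μ 1 5 6 - cc μ 2 3 2 - cc μ 2 5 4 + cc μ 3 5 5 = 0 := by
  have h1 := h ![stdE 1, stdE 2, stdE 3, stdE 5]
  rw [ceD_phi] at h1
  simp only [Matrix.cons_val_zero, Matrix.cons_val_one, Matrix.cons_val, V3_12, V3_13, V3_15, V3_23, V3_25, V3_35] at h1
  simp only [cc]
  linarith

theorem closed_1236 {μ : Br 7} (h : ∀ v : Fin 4 → RV 7, ceD μ phi v = 0) :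
    -cc μ 1 2 2 - cc μ 1 3 3 - cc μ 1 6 6 - cc μ 2 3 0 - cc μ 2 6 4 + cc μ 3 6 5 = 0 := by
  have h1 := h ![stdE 1, stdE 2, stdE 3, stdE 6]
  rw [ceD_phi] at h1
  simp only [Matrix.cons_val_zero, Matrix.cons_val_one, Matrix.cons_val, V3_12, V3_13, V3_16, V3_23, V3_26, V3_36] at h1
  simp only [cc]
  linarith

theorem closed_1245 {μ : Br 7} (h : ∀ v : Fin 4 → RV 7, ceD μ phi v = 0) :
    -cc μ 1 2 6 - cc μ 1 4 1 - cc μ 1 5 0 - cc μ 2 4 2 + cc μ 2 5 3 + cc μ 4 5 5 = 0 := by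
  have h1 := h ![stdE 1, stdE 2, stdE 4, stdE 5]
  rw [ceD_phi] at h1
  simp only [Matrix.cons_val_zero, Matrix.cons_val_one, Matrix.cons_val, V3_12, V3_14, V3_15, V3_24, V3_25, V3_45] at h1
  simp only [cc]
  linarith

theorem closed_1246 {μ : Br 7} (h : ∀ v : Fin 4 → RV 7, ceD μ phi v = 0) :
    cc μ 1 2 5 - cc μ 1 4 3 - cc μ 1 6 0 - cc μ 2 4 0 + cc μ 2 6 3 + cc μ 4 6 5 = 0 := by
  have h1 := h ![stdE 1, stdE 2, stdE 4, stdE 6]
  rw [ceD_phi] at h1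
  simp only [Matrix.cons_val_zero, Matrix.cons_val_one, Matrix.cons_val, V3_12, V3_14, V3_16, V3_24, V3_26, V3_46] at h1
  simp only [cc]
  linarith

theorem closed_1256 {μ : Br 7} (h : ∀ v : Fin 4 → RV 7, ceD μ phi v = 0) :
    -cc μ 1 2 4 - cc μ 1 5 3 + cc μ 1 6 1 - cc μ 2 5 0 + cc μ 2 6 2 + cc μ 5 6 5 = 0 := by
  have h1 := h ![stdE 1, stdE 2, stdE 5, stdE 6]
  rw [ceD_phi] at h1
  simp only [Matrix.cons_val_zero, Matrix.cons_val_one, Matrix.cons_val, V3_12, V3_15, V3_16, V3_25, V3_26, V3_56] at h1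
  simp only [cc]
  linarith

theorem closed_1345 {μ : Br 7} (h : ∀ v : Fin 4 → RV 7, ceD μ phi v = 0) :
    -cc μ 1 3 6 - cc μ 1 4 0 + cc μ 1 5 1 - cc μ 3 4 2 + cc μ 3 5 3 + cc μ 4 5 4 = 0 := by
  have h1 := h ![stdE 1, stdE 3, stdE 4, stdE 5]
  rw [ceD_phi] at h1
  simp only [Matrix.cons_val_zero, Matrix.cons_val_one, Matrix.cons_val, V3_13, V3_14, V3_15, V3_34, V3_35, V3_45] at h1
  simp only [cc]
  linarith

theorem closed_1346 {μ : Br 7} (h : ∀ v : Fin 4 → RV 7, ceD μ phi v = 0) :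
    cc μ 1 3 5 + cc μ 1 4 2 + cc μ 1 6 1 - cc μ 3 4 0 + cc μ 3 6 3 + cc μ 4 6 4 = 0 := by
  have h1 := h ![stdE 1, stdE 3, stdE 4, stdE 6]
  rw [ceD_phi] at h1
  simp only [Matrix.cons_val_zero, Matrix.cons_val_one, Matrix.cons_val, V3_13, V3_14, V3_16, V3_34, V3_36, V3_46] at h1
  simp only [cc]
  linarith

theorem closed_1356 {μ : Br 7} (h : ∀ v : Fin 4 → RV 7, ceD μ phi v = 0) :
    -cc μ 1 3 4 + cc μ 1 5 2 + cc μ 1 6 0 - cc μ 3 5 0 + cc μ 3 6 2 + cc μ 5 6 4 = 0 := by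
  have h1 := h ![stdE 1, stdE 3, stdE 5, stdE 6]
  rw [ceD_phi] at h1
  simp only [Matrix.cons_val_zero, Matrix.cons_val_one, Matrix.cons_val, V3_13, V3_15, V3_16, V3_35, V3_36, V3_56] at h1
  simp only [cc]
  linarith

theorem closed_1456 {μ : Br 7} (h : ∀ v : Fin 4 → RV 7, ceD μ phi v = 0) :
    -cc μ 1 4 4 - cc μ 1 5 5 - cc μ 1 6 6 - cc μ 4 5 0 + cc μ 4 6 2 - cc μ 5 6 3 = 0 := by
  have h1 := h ![stdE 1, stdE 4, stdE 5, stdE 6]
  rw [ceD_phi] at h1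
  simp only [Matrix.cons_val_zero, Matrix.cons_val_one, Matrix.cons_val, V3_14, V3_15, V3_16, V3_45, V3_46, V3_56] at h1
  simp only [cc]
  linarith

theorem closed_2345 {μ : Br 7} (h : ∀ v : Fin 4 → RV 7, ceD μ phi v = 0) :
    -cc μ 2 3 6 - cc μ 2 4 0 + cc μ 2 5 1 + cc μ 3 4 1 + cc μ 3 5 0 - cc μ 4 5 6 = 0 := by
  have h1 := h ![stdE 2, stdE 3, stdE 4, stdE 5]
  rw [ceD_phi] at h1
  simp only [Matrix.cons_val_zero, Matrix.cons_val_one, Matrix.cons_val, V3_23, V3_24, V3_25, V3_34, V3_35, V3_45] at h1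
  simp only [cc]
  linarith

theorem closed_2346 {μ : Br 7} (h : ∀ v : Fin 4 → RV 7, ceD μ phi v = 0) :
    cc μ 2 3 5 + cc μ 2 4 2 + cc μ 2 6 1 + cc μ 3 4 3 + cc μ 3 6 0 - cc μ 4 6 6 = 0 := by
  have h1 := h ![stdE 2, stdE 3, stdE 4, stdE 6]
  rw [ceD_phi] at h1
  simp only [Matrix.cons_val_zero, Matrix.cons_val_one, Matrix.cons_val, V3_23, V3_24, V3_26, V3_34, V3_36, V3_46] at h1
  simp only [cc]
  linarith

theorem closed_2356 {μ : Br 7} (h : ∀ v : Fin 4 → RV 7, ceD μ phi v = 0) :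
    -cc μ 2 3 4 + cc μ 2 5 2 + cc μ 2 6 0 + cc μ 3 5 3 - cc μ 3 6 1 - cc μ 5 6 6 = 0 := by
  have h1 := h ![stdE 2, stdE 3, stdE 5, stdE 6]
  rw [ceD_phi] at h1
  simp only [Matrix.cons_val_zero, Matrix.cons_val_one, Matrix.cons_val, V3_23, V3_25, V3_26, V3_35, V3_36, V3_56] at h1
  simp only [cc]
  linarith

theorem closed_2456 {μ : Br 7} (h : ∀ v : Fin 4 → RV 7, ceD μ phi v = 0) :
    -cc μ 2 4 4 - cc μ 2 5 5 - cc μ 2 6 6 + cc μ 4 5 3 - cc μ 4 6 1 - cc μ 5 6 0 = 0 := by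
  have h1 := h ![stdE 2, stdE 4, stdE 5, stdE 6]
  rw [ceD_phi] at h1
  simp only [Matrix.cons_val_zero, Matrix.cons_val_one, Matrix.cons_val, V3_24, V3_25, V3_26, V3_45, V3_46, V3_56] at h1
  simp only [cc]
  linarith

theorem closed_3456 {μ : Br 7} (h : ∀ v : Fin 4 → RV 7, ceD μ phi v = 0) :
    -cc μ 3 4 4 - cc μ 3 5 5 - cc μ 3 6 6 - cc μ 4 5 2 - cc μ 4 6 0 + cc μ 5 6 1 = 0 := by
  have h1 := h ![stdE 3, stdE 4, stdE 5, stdE 6]
  rw [ceD_phi] at h1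
  simp only [Matrix.cons_val_zero, Matrix.cons_val_one, Matrix.cons_val, V3_34, V3_35, V3_36, V3_45, V3_46, V3_56] at h1
  simp only [cc]
  linarith

theorem F_01234 (μ : Br 7) :
    F μ (stdE 0) (stdE 1) (stdE 2) (stdE 3) (stdE 4) = u01234 (cc μ) := by
  simp only [F, u01234, cc,
    W_012, W_013, W_014, W_023, W_024, W_034, W_123, W_124, W_134, W_234]
  ring

theorem F_01235 (μ : Br 7) :
    F μ (stdE 0) (stdE 1) (stdE 2) (stdE 3) (stdE 5) = u01235 (cc μ) := by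
  simp only [F, u01235, cc,
    W_012, W_013, W_015, W_023, W_025, W_035, W_123, W_125, W_135, W_235]
  ring

theorem F_01236 (μ : Br 7) :
    F μ (stdE 0) (stdE 1) (stdE 2) (stdE 3) (stdE 6) = u01236 (cc μ) := by
  simp only [F, u01236, cc,
    W_012, W_013, W_016, W_023, W_026, W_036, W_123, W_126, W_136, W_236]
  ring

theorem F_01245 (μ : Br 7) :
    F μ (stdE 0) (stdE 1) (stdE 2) (stdE 4) (stdE 5) = u01245 (cc μ) := by
  simp only [F, u01245, cc,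
    W_012, W_014, W_015, W_024, W_025, W_045, W_124, W_125, W_145, W_245]
  ring

theorem F_01246 (μ : Br 7) :
    F μ (stdE 0) (stdE 1) (stdE 2) (stdE 4) (stdE 6) = u01246 (cc μ) := by
  simp only [F, u01246, cc,
    W_012, W_014, W_016, W_024, W_026, W_046, W_124, W_126, W_146, W_246]
  ring

theorem F_01256 (μ : Br 7) :
    F μ (stdE 0) (stdE 1) (stdE 2) (stdE 5) (stdE 6) = u01256 (cc μ) := by
  simp only [F, u01256, cc,
    W_012, W_015, W_016, W_025, W_026, W_056, W_125, W_126, W_156, W_256]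
  ring

theorem F_01345 (μ : Br 7) :
    F μ (stdE 0) (stdE 1) (stdE 3) (stdE 4) (stdE 5) = u01345 (cc μ) := by
  simp only [F, u01345, cc,
    W_013, W_014, W_015, W_034, W_035, W_045, W_134, W_135, W_145, W_345]
  ring

theorem F_01346 (μ : Br 7) :
    F μ (stdE 0) (stdE 1) (stdE 3) (stdE 4) (stdE 6) = u01346 (cc μ) := by
  simp only [F, u01346, cc,
    W_013, W_014, W_016, W_034, W_036, W_046, W_134, W_136, W_146, W_346]
  ring

theorem F_01356 (μ : Br 7) :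
    F μ (stdE 0) (stdE 1) (stdE 3) (stdE 5) (stdE 6) = u01356 (cc μ) := by
  simp only [F, u01356, cc,
    W_013, W_015, W_016, W_035, W_036, W_056, W_135, W_136, W_156, W_356]
  ring

theorem F_01456 (μ : Br 7) :
    F μ (stdE 0) (stdE 1) (stdE 4) (stdE 5) (stdE 6) = u01456 (cc μ) := by
  simp only [F, u01456, cc,
    W_014, W_015, W_016, W_045, W_046, W_056, W_145, W_146, W_156, W_456]
  ring

theorem F_02345 (μ : Br 7) :
    F μ (stdE 0) (stdE 2) (stdE 3) (stdE 4) (stdE 5) = u02345 (cc μ) := by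
  simp only [F, u02345, cc,
    W_023, W_024, W_025, W_034, W_035, W_045, W_234, W_235, W_245, W_345]
  ring

theorem F_02346 (μ : Br 7) :
    F μ (stdE 0) (stdE 2) (stdE 3) (stdE 4) (stdE 6) = u02346 (cc μ) := by
  simp only [F, u02346, cc,
    W_023, W_024, W_026, W_034, W_036, W_046, W_234, W_236, W_246, W_346]
  ring

theorem F_02356 (μ : Br 7) :
    F μ (stdE 0) (stdE 2) (stdE 3) (stdE 5) (stdE 6) = u02356 (cc μ) := by
  simp only [F, u02356, cc,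
    W_023, W_025, W_026, W_035, W_036, W_056, W_235, W_236, W_256, W_356]
  ring

theorem F_02456 (μ : Br 7) :
    F μ (stdE 0) (stdE 2) (stdE 4) (stdE 5) (stdE 6) = u02456 (cc μ) := by
  simp only [F, u02456, cc,
    W_024, W_025, W_026, W_045, W_046, W_056, W_245, W_246, W_256, W_456]
  ring

theorem F_03456 (μ : Br 7) :
    F μ (stdE 0) (stdE 3) (stdE 4) (stdE 5) (stdE 6) = u03456 (cc μ) := by
  simp only [F, u03456, cc,
    W_034, W_035, W_036, W_045, W_046, W_056, W_345, W_346, W_356, W_456]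
  ring

theorem F_12345 (μ : Br 7) :
    F μ (stdE 1) (stdE 2) (stdE 3) (stdE 4) (stdE 5) = u12345 (cc μ) := by
  simp only [F, u12345, cc,
    W_123, W_124, W_125, W_134, W_135, W_145, W_234, W_235, W_245, W_345]
  ring

theorem F_12346 (μ : Br 7) :
    F μ (stdE 1) (stdE 2) (stdE 3) (stdE 4) (stdE 6) = u12346 (cc μ) := by
  simp only [F, u12346, cc,
    W_123, W_124, W_126, W_134, W_136, W_146, W_234, W_236, W_246, W_346]
  ring

theorem F_12356 (μ : Br 7) :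
    F μ (stdE 1) (stdE 2) (stdE 3) (stdE 5) (stdE 6) = u12356 (cc μ) := by
  simp only [F, u12356, cc,
    W_123, W_125, W_126, W_135, W_136, W_156, W_235, W_236, W_256, W_356]
  ring

theorem F_12456 (μ : Br 7) :
    F μ (stdE 1) (stdE 2) (stdE 4) (stdE 5) (stdE 6) = u12456 (cc μ) := by
  simp only [F, u12456, cc,
    W_124, W_125, W_126, W_145, W_146, W_156, W_245, W_246, W_256, W_456]
  ring

theorem F_13456 (μ : Br 7) :
    F μ (stdE 1) (stdE 3) (stdE 4) (stdE 5) (stdE 6) = u13456 (cc μ) := by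
  simp only [F, u13456, cc,
    W_134, W_135, W_136, W_145, W_146, W_156, W_345, W_346, W_356, W_456]
  ring

theorem F_23456 (μ : Br 7) :
    F μ (stdE 2) (stdE 3) (stdE 4) (stdE 5) (stdE 6) = u23456 (cc μ) := by
  simp only [F, u23456, cc,
    W_234, W_235, W_236, W_245, W_246, W_256, W_345, W_346, W_356, W_456]
  ring

end Pool.Agent.H.MP_64d93e_gt
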