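import Pool.Agent.H.MP_64d93e_gt.Cplx

open Module

namespace Pool.Agent.H.MP_64d93e_gt

variable {n : ℕ}

theorem functional_invariance (l : EC n →ₗ[ℂ] ℂ) (u v : OrthonormalBasis (Fin n) ℂ (EC n)) :
    ∑ i, ‖l (u i)‖ ^ 2 = ∑ i, ‖l (v i)‖ ^ 2 := by
  let L : EC n →L[ℂ] ℂ := LinearMap.toContinuousLinearMap l
  let w : EC n := (InnerProductSpace.toDual ℂ (EC n)).symm L
  have hw : ∀ x, inner ℂ w x = l x := by
    intro x
    simp only [w, InnerProductSpace.toDual_symm_apply]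
    rfl
  have key : ∀ b : OrthonormalBasis (Fin n) ℂ (EC n), ∑ i, ‖l (b i)‖ ^ 2 = ‖w‖ ^ 2 := by
    intro b
    rw [← b.sum_sq_norm_inner_left w]
    exact Finset.sum_congr rfl fun i _ => by rw [hw]
  rw [key u, key v]

theorem hs_invariance (T : EC n →ₗ[ℂ] EC n) (u v : OrthonormalBasis (Fin n) ℂ (EC n)) :
    ∑ i, ‖T (u i)‖ ^ 2 = ∑ i, ‖T (v i)‖ ^ 2 := by
  have key : ∀ b : OrthonormalBasis (Fin n) ℂ (EC n), ∑ i, ‖T (b i)‖ ^ 2 =
      ∑ j, ∑ i, ‖inner ℂ (u j) (T (b i))‖ ^ 2 := by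
    intro b
    rw [Finset.sum_comm]
    exact Finset.sum_congr rfl fun i _ => (u.sum_sq_norm_inner_right (T (b i))).symm
  rw [key u, key v]
  apply Finset.sum_congr rfl
  intro j _
  let l : EC n →ₗ[ℂ] ℂ := (innerₛₗ ℂ (u j)) ∘ₗ T
  exact functional_invariance l u v

theorem inner_toC (x y : RV n) : inner ℂ (toC x) (toC y) = ((inner ℝ x y : ℝ) : ℂ) := by
  simp only [PiLp.inner_apply, toC_apply]
  push_cast
  apply Finset.sum_congr rfl; intro i _
  simp

/-- real part vector -/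
noncomputable def reV (u : EC n) : RV n := ∑ i, (u i).re • stdE i
/-- imaginary part vector -/
noncomputable def imV (u : EC n) : RV n := ∑ i, (u i).im • stdE i

theorem reV_apply (u : EC n) (i : Fin n) : reV u i = (u i).re := by
  simp [reV, stdE, Pi.single_apply]

theorem imV_apply (u : EC n) (i : Fin n) : imV u i = (u i).im := by
  simp [imV, stdE, Pi.single_apply]

theorem decomp (u : EC n) : toC (reV u) + Complex.I • toC (imV u) = u := by
  ext i
  simp only [PiLp.add_apply, PiLp.smul_apply, toC_apply, reV_apply, imV_apply, smul_eq_mul]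
  rw [mul_comm]
  exact Complex.re_add_im _

/-- conjugate vector -/
noncomputable def cj (u : EC n) : EC n := toC (reV u) - Complex.I • toC (imV u)

theorem inner_re_linC (A : RV n →ₗ[ℝ] RV n) (u : EC n) :
    (inner ℂ u (linC A u)).re = inner ℝ (reV u) (A (reV u)) + inner ℝ (imV u) (A (imV u)) := by
  conv_lhs => rw [← decomp u]
  simp only [map_add, map_smul, linC_toC, inner_add_left, inner_add_right, inner_smul_left,
    inner_smul_right, inner_toC]
  simp

theorem norm_sq_decomp (a b : RV n) : ‖toC a + Complex.I • toC b‖ ^ 2 = ‖a‖ ^ 2 + ‖b‖ ^ 2 := by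
  have h1 : ((‖toC a + Complex.I • toC b‖ ^ 2 : ℝ) : ℂ) = ((‖a‖ ^ 2 + ‖b‖ ^ 2 : ℝ) : ℂ) := by
    have e := inner_self_eq_norm_sq_to_K (𝕜 := ℂ) (toC a + Complex.I • toC b)
    push_cast
    refine e.symm.trans ?_
    simp only [inner_add_left, inner_add_right, inner_smul_left,
      inner_smul_right, inner_toC, real_inner_self_eq_norm_sq, Complex.conj_I]
    rw [real_inner_comm b a]
    push_cast
    ring_nf
    simp
  exact_mod_cast h1

theorem hs1 (A : RV n →ₗ[ℝ] RV n) (u : OrthonormalBasis (Fin n) ℂ (EC n)) :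
    ∑ k, (inner ℂ (u k) (linC A (u k))).re ^ 2 ≤ ∑ i, ∑ j, inner ℝ (A (stdE i)) (stdE j) ^ 2 := by
  have e1 : ∑ i, ∑ j, inner ℝ (A (stdE i)) (stdE j) ^ 2 = ∑ i, ‖linC A (cB n i)‖ ^ 2 := by
    apply Finset.sum_congr rfl; intro i _
    rw [cB_apply, linC_cE]
    have := norm_sq_decomp (A (stdE i)) 0
    rw [toC_zero, smul_zero, add_zero, norm_zero] at this
    rw [this, ← real_inner_self_eq_norm_sq, inner_eq_sum]
    simp only [ne_eq, OfNat.ofNat_ne_zero, not_false_eq_true, zero_pow, add_zero]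
    apply Finset.sum_congr rfl; intro j _; ring
  rw [e1, ← hs_invariance (linC A) u (cB n)]
  apply Finset.sum_le_sum; intro k _
  have h1 : ‖inner ℂ (u k) (linC A (u k))‖ ≤ ‖u k‖ * ‖linC A (u k)‖ := norm_inner_le_norm _ _
  rw [u.norm_eq_one k, one_mul] at h1
  have h2 : |(inner ℂ (u k) (linC A (u k))).re| ≤ ‖inner ℂ (u k) (linC A (u k))‖ := Complex.abs_re_le_norm _
  have h3 := le_trans h2 h1
  have h4 : (inner ℂ (u k) (linC A (u k))).re ^ 2 = |(inner ℂ (u k) (linC A (u k))).re| ^ 2 := (sq_abs _).symm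
  rw [h4]
  exact pow_le_pow_left₀ (abs_nonneg _) h3 2

theorem trace_linC (A : RV n →ₗ[ℝ] RV n) :
    LinearMap.trace ℂ (EC n) (linC A) = ((LinearMap.trace ℝ (RV n) A : ℝ) : ℂ) := by
  rw [LinearMap.trace_eq_sum_inner (linC A) (cB n), trace_eq]
  push_cast
  apply Finset.sum_congr rfl; intro i _
  rw [cB_apply, linC_cE, ← toC_stdE, inner_toC, real_inner_comm]

theorem trace_re (A : RV n →ₗ[ℝ] RV n) (u : OrthonormalBasis (Fin n) ℂ (EC n)) :
    ∑ k, (inner ℂ (u k) (linC A (u k))).re = LinearMap.trace ℝ (RV n) A := by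
  have h := LinearMap.trace_eq_sum_inner (linC A) u
  rw [trace_linC] at h
  have := congrArg Complex.re h
  rw [Complex.ofReal_re, Complex.re_sum] at this
  exact this.symm

/-- operator of `Rs` -/
noncomputable def RsOp (μ : Br n) : RV n →ₗ[ℝ] RV n :=
  ∑ k, (RsL μ (stdE k)).smulRight (stdE k)

theorem inner_RsOp (μ : Br n) (x y : RV n) : inner ℝ (RsOp μ x) y = Rs μ x y := by
  have : RsOp μ x = ∑ k, Rs μ (stdE k) x • stdE k := by
    simp only [RsOp, LinearMap.sum_apply, LinearMap.smulRight_apply]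
    rfl
  rw [this, sum_inner, Rs_expand]
  apply Finset.sum_congr rfl; intro k _
  rw [real_inner_smul_left, real_inner_comm y, Rs_symm]
  ring

/-- operator of `Sh` -/
noncomputable def ShOp (μ : Br n) : RV n →ₗ[ℝ] RV n :=
  (1 / 2 : ℝ) • (μ (Hv μ) + LinearMap.adjoint (μ (Hv μ)))

theorem inner_ShOp (μ : Br n) (x y : RV n) : inner ℝ (ShOp μ x) y = Sh μ x y := by
  simp only [ShOp, LinearMap.smul_apply, LinearMap.add_apply, real_inner_smul_left, inner_add_left,
    LinearMap.adjoint_inner_left, Sh]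
  rw [real_inner_comm x (μ (Hv μ) y)]

theorem re_inner_Rs (μ : Br n) (u : EC n) :
    (inner ℂ u (linC (RsOp μ) u)).re = Rs μ (reV u) (reV u) + Rs μ (imV u) (imV u) := by
  rw [inner_re_linC, real_inner_comm, inner_RsOp, real_inner_comm, inner_RsOp]

theorem re_inner_Sh (μ : Br n) (u : EC n) :
    (inner ℂ u (linC (ShOp μ) u)).re = (inner ℂ u (brC μ (toC (Hv μ)) u)).re := by
  rw [brC_toC, inner_re_linC, inner_re_linC, real_inner_comm, inner_ShOp,
    real_inner_comm (ShOp μ (imV u)), inner_ShOp, Sh, Sh, real_inner_comm (reV u), real_inner_comm (imV u)]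
  ring

end Pool.Agent.H.MP_64d93e_gt
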