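import Pool.Agent.H.MP_64d93e_gt.Defs

namespace Pool.Agent.H.MP_64d93e_gt

theorem stdE_apply {n : ℕ} (i a : Fin n) : (stdE i : RV n) a = if a = i then 1 else 0 := by
  simp [stdE]

theorem e3_basis (a b c i j k : Fin 7) : e3 a b c ![stdE i, stdE j, stdE k] =
      (if a = i then 1 else 0) * ((if b = j then 1 else 0) * (if c = k then 1 else 0)
      - (if c = j then 1 else 0) * (if b = k then 1 else 0))
      - (if b = i then 1 else 0) * ((if a = j then 1 else 0) * (if c = k then 1 else 0)
      - (if c = j then 1 else 0) * (if a = k then 1 else 0))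
      + (if c = i then 1 else 0) * ((if a = j then 1 else 0) * (if b = k then 1 else 0)
      - (if b = j then 1 else 0) * (if a = k then 1 else 0)) := by
  simp only [e3, Matrix.det_fin_three, Matrix.of_apply, Matrix.cons_val_zero, Matrix.cons_val_one,
    Matrix.cons_val, stdE_apply]
  ring

/-- `∑ e^{abc}(e_i, e_j, e_k) D(i,j,k) = 6 D(a,b,c)` for alternating `D`. -/
theorem sum_e3 (a b c : Fin 7) (D : Fin 7 → Fin 7 → Fin 7 → ℝ) (h1 : ∀ i j k, D i j k = - D j i k)
    (h2 : ∀ i j k, D i j k = - D i k j) :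
    ∑ i : Fin 7, ∑ j : Fin 7, ∑ k : Fin 7, e3 a b c ![stdE i, stdE j, stdE k] * D i j k =
      6 * D a b c := by
  simp only [e3_basis]
  simp only [add_mul, sub_mul, mul_sub, mul_assoc]
  simp only [Finset.sum_add_distrib, Finset.sum_sub_distrib, ite_mul, one_mul, zero_mul, mul_ite,
    mul_zero, Finset.sum_ite_eq, Finset.mem_univ, if_true, mul_one, Finset.sum_ite_irrel,
    Finset.sum_const_zero]
  have q1 := h1 a b c
  have q2 := h2 a b c
  have q3 := h1 a c b
  have q4 := h2 b a c
  have q5 := h2 c a b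
  linarith

/-- rows `e_i, e_j, e_k, v₀, v₁, v₂, v₃` -/
noncomputable def D7 (v : Fin 4 → RV 7) (i j k : Fin 7) : ℝ :=
  Matrix.det (Matrix.of fun a b : Fin 7 =>
      (![stdE i, stdE j, stdE k, v 0, v 1, v 2, v 3] : Fin 7 → RV 7) a b)

theorem D7_swap1 (v : Fin 4 → RV 7) (i j k : Fin 7) : D7 v i j k = - D7 v j i k := by
  have h := Matrix.det_permute (Equiv.swap (0 : Fin 7) 1) (Matrix.of fun a b : Fin 7 =>
      (![stdE j, stdE i, stdE k, v 0, v 1, v 2, v 3] : Fin 7 → RV 7) a b)
  rw [Equiv.Perm.sign_swap (by decide)] at h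
  simp only [Units.val_neg, Units.val_one, Int.cast_neg, Int.cast_one, neg_mul, one_mul] at h
  rw [D7, D7, ← h]
  congr 1
  ext a b
  fin_cases a <;> rfl

theorem D7_swap2 (v : Fin 4 → RV 7) (i j k : Fin 7) : D7 v i j k = - D7 v i k j := by
  have h := Matrix.det_permute (Equiv.swap (1 : Fin 7) 2) (Matrix.of fun a b : Fin 7 =>
      (![stdE i, stdE k, stdE j, v 0, v 1, v 2, v 3] : Fin 7 → RV 7) a b)
  rw [Equiv.Perm.sign_swap (by decide)] at h
  simp only [Units.val_neg, Units.val_one, Int.cast_neg, Int.cast_one, neg_mul, one_mul] at h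
  rw [D7, D7, ← h]
  congr 1
  ext a b
  fin_cases a <;> rfl

theorem hodge3_phi (v : Fin 4 → RV 7) : hodge3 phi v = D7 v 0 1 6 + D7 v 2 3 6 + D7 v 4 5 6 +
    D7 v 0 2 4 - D7 v 0 3 5 - D7 v 1 2 5 - D7 v 1 3 4 := by
  rw [hodge3]
  change 1 / 6 * ∑ i : Fin 7, ∑ j : Fin 7, ∑ k : Fin 7, phi ![stdE i, stdE j, stdE k] *
    D7 v i j k = _
  simp only [phi, add_mul, sub_mul, Finset.sum_add_distrib, Finset.sum_sub_distrib]
  simp only [sum_e3 _ _ _ (D7 v) (D7_swap1 v) (D7_swap2 v)]
  ring

/-- 4 by 4 determinant, expanded -/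
noncomputable def m4 (a b c d : Fin 7) (x y z w : RV 7) : ℝ :=
  x a * (y b * (z c * w d - z d * w c) - y c * (z b * w d - z d * w b) + y d * (z b * w c - z c * w b))
  - x b * (y a * (z c * w d - z d * w c) - y c * (z a * w d - z d * w a) + y d * (z a * w c - z c * w a))
  + x c * (y a * (z b * w d - z d * w b) - y b * (z a * w d - z d * w a) + y d * (z a * w b - z b * w a))
  - x d * (y a * (z b * w c - z c * w b) - y b * (z a * w c - z c * w a) + y c * (z a * w b - z b * w a))

theorem D7_016 (v : Fin 4 → RV 7) : D7 v 0 1 6 =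
    m4 2 3 4 5 (v 0) (v 1) (v 2) (v 3) := by
  rw [D7, Matrix.det_succ_row_zero, Fin.sum_univ_seven]
  simp only [Matrix.of_apply, Matrix.cons_val_zero, stdE_apply]
  simp (decide := true) only [if_true, if_false, mul_zero, zero_mul, add_zero, zero_add, mul_one]
  rw [Matrix.det_succ_row_zero, Fin.sum_univ_six]
  simp only [Matrix.of_apply, Matrix.submatrix_apply, Matrix.cons_val_zero, Matrix.cons_val_succ,
    stdE_apply]
  simp (decide := true) only [if_true, if_false, mul_zero, zero_mul, add_zero, zero_add, mul_one]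
  rw [Matrix.det_succ_row_zero, Fin.sum_univ_five]
  simp only [Matrix.of_apply, Matrix.submatrix_apply, Matrix.cons_val_zero, Matrix.cons_val_succ,
    stdE_apply]
  simp (decide := true) only [if_true, if_false, mul_zero, zero_mul, add_zero, zero_add, mul_one]
  rw [Matrix.det_succ_row_zero, Fin.sum_univ_four]
  simp only [Matrix.det_fin_three]
  simp only [Matrix.of_apply, Matrix.submatrix_apply, Matrix.cons_val_zero, Matrix.cons_val_succ]
  simp [Fin.succAbove, m4]
  ring

theorem D7_236 (v : Fin 4 → RV 7) : D7 v 2 3 6 =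
    m4 0 1 4 5 (v 0) (v 1) (v 2) (v 3) := by
  rw [D7, Matrix.det_succ_row_zero, Fin.sum_univ_seven]
  simp only [Matrix.of_apply, Matrix.cons_val_zero, stdE_apply]
  simp (decide := true) only [if_true, if_false, mul_zero, zero_mul, add_zero, zero_add, mul_one]
  rw [Matrix.det_succ_row_zero, Fin.sum_univ_six]
  simp only [Matrix.of_apply, Matrix.submatrix_apply, Matrix.cons_val_zero, Matrix.cons_val_succ,
    stdE_apply]
  simp (decide := true) only [if_true, if_false, mul_zero, zero_mul, add_zero, zero_add, mul_one]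
  rw [Matrix.det_succ_row_zero, Fin.sum_univ_five]
  simp only [Matrix.of_apply, Matrix.submatrix_apply, Matrix.cons_val_zero, Matrix.cons_val_succ,
    stdE_apply]
  simp (decide := true) only [if_true, if_false, mul_zero, zero_mul, add_zero, zero_add, mul_one]
  rw [Matrix.det_succ_row_zero, Fin.sum_univ_four]
  simp only [Matrix.det_fin_three]
  simp only [Matrix.of_apply, Matrix.submatrix_apply, Matrix.cons_val_zero, Matrix.cons_val_succ]
  simp [Fin.succAbove, m4]
  ring

theorem D7_456 (v : Fin 4 → RV 7) : D7 v 4 5 6 =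
    m4 0 1 2 3 (v 0) (v 1) (v 2) (v 3) := by
  rw [D7, Matrix.det_succ_row_zero, Fin.sum_univ_seven]
  simp only [Matrix.of_apply, Matrix.cons_val_zero, stdE_apply]
  simp (decide := true) only [if_true, if_false, mul_zero, zero_mul, add_zero, zero_add, mul_one]
  rw [Matrix.det_succ_row_zero, Fin.sum_univ_six]
  simp only [Matrix.of_apply, Matrix.submatrix_apply, Matrix.cons_val_zero, Matrix.cons_val_succ,
    stdE_apply]
  simp (decide := true) only [if_true, if_false, mul_zero, zero_mul, add_zero, zero_add, mul_one]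
  rw [Matrix.det_succ_row_zero, Fin.sum_univ_five]
  simp only [Matrix.of_apply, Matrix.submatrix_apply, Matrix.cons_val_zero, Matrix.cons_val_succ,
    stdE_apply]
  simp (decide := true) only [if_true, if_false, mul_zero, zero_mul, add_zero, zero_add, mul_one]
  rw [Matrix.det_succ_row_zero, Fin.sum_univ_four]
  simp only [Matrix.det_fin_three]
  simp only [Matrix.of_apply, Matrix.submatrix_apply, Matrix.cons_val_zero, Matrix.cons_val_succ]
  simp [Fin.succAbove, m4]
  ring

theorem D7_024 (v : Fin 4 → RV 7) : D7 v 0 2 4 =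
    - m4 1 3 5 6 (v 0) (v 1) (v 2) (v 3) := by
  rw [D7, Matrix.det_succ_row_zero, Fin.sum_univ_seven]
  simp only [Matrix.of_apply, Matrix.cons_val_zero, stdE_apply]
  simp (decide := true) only [if_true, if_false, mul_zero, zero_mul, add_zero, zero_add, mul_one]
  rw [Matrix.det_succ_row_zero, Fin.sum_univ_six]
  simp only [Matrix.of_apply, Matrix.submatrix_apply, Matrix.cons_val_zero, Matrix.cons_val_succ,
    stdE_apply]
  simp (decide := true) only [if_true, if_false, mul_zero, zero_mul, add_zero, zero_add, mul_one]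
  rw [Matrix.det_succ_row_zero, Fin.sum_univ_five]
  simp only [Matrix.of_apply, Matrix.submatrix_apply, Matrix.cons_val_zero, Matrix.cons_val_succ,
    stdE_apply]
  simp (decide := true) only [if_true, if_false, mul_zero, zero_mul, add_zero, zero_add, mul_one]
  rw [Matrix.det_succ_row_zero, Fin.sum_univ_four]
  simp only [Matrix.det_fin_three]
  simp only [Matrix.of_apply, Matrix.submatrix_apply, Matrix.cons_val_zero, Matrix.cons_val_succ]
  simp [Fin.succAbove, m4]
  ring

theorem D7_035 (v : Fin 4 → RV 7) : D7 v 0 3 5 =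
    - m4 1 2 4 6 (v 0) (v 1) (v 2) (v 3) := by
  rw [D7, Matrix.det_succ_row_zero, Fin.sum_univ_seven]
  simp only [Matrix.of_apply, Matrix.cons_val_zero, stdE_apply]
  simp (decide := true) only [if_true, if_false, mul_zero, zero_mul, add_zero, zero_add, mul_one]
  rw [Matrix.det_succ_row_zero, Fin.sum_univ_six]
  simp only [Matrix.of_apply, Matrix.submatrix_apply, Matrix.cons_val_zero, Matrix.cons_val_succ,
    stdE_apply]
  simp (decide := true) only [if_true, if_false, mul_zero, zero_mul, add_zero, zero_add, mul_one]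
  rw [Matrix.det_succ_row_zero, Fin.sum_univ_five]
  simp only [Matrix.of_apply, Matrix.submatrix_apply, Matrix.cons_val_zero, Matrix.cons_val_succ,
    stdE_apply]
  simp (decide := true) only [if_true, if_false, mul_zero, zero_mul, add_zero, zero_add, mul_one]
  rw [Matrix.det_succ_row_zero, Fin.sum_univ_four]
  simp only [Matrix.det_fin_three]
  simp only [Matrix.of_apply, Matrix.submatrix_apply, Matrix.cons_val_zero, Matrix.cons_val_succ]
  simp [Fin.succAbove, m4]
  ring

theorem D7_125 (v : Fin 4 → RV 7) : D7 v 1 2 5 =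
    - m4 0 3 4 6 (v 0) (v 1) (v 2) (v 3) := by
  rw [D7, Matrix.det_succ_row_zero, Fin.sum_univ_seven]
  simp only [Matrix.of_apply, Matrix.cons_val_zero, stdE_apply]
  simp (decide := true) only [if_true, if_false, mul_zero, zero_mul, add_zero, zero_add, mul_one]
  rw [Matrix.det_succ_row_zero, Fin.sum_univ_six]
  simp only [Matrix.of_apply, Matrix.submatrix_apply, Matrix.cons_val_zero, Matrix.cons_val_succ,
    stdE_apply]
  simp (decide := true) only [if_true, if_false, mul_zero, zero_mul, add_zero, zero_add, mul_one]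
  rw [Matrix.det_succ_row_zero, Fin.sum_univ_five]
  simp only [Matrix.of_apply, Matrix.submatrix_apply, Matrix.cons_val_zero, Matrix.cons_val_succ,
    stdE_apply]
  simp (decide := true) only [if_true, if_false, mul_zero, zero_mul, add_zero, zero_add, mul_one]
  rw [Matrix.det_succ_row_zero, Fin.sum_univ_four]
  simp only [Matrix.det_fin_three]
  simp only [Matrix.of_apply, Matrix.submatrix_apply, Matrix.cons_val_zero, Matrix.cons_val_succ]
  simp [Fin.succAbove, m4]
  ring

theorem D7_134 (v : Fin 4 → RV 7) : D7 v 1 3 4 =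
    - m4 0 2 5 6 (v 0) (v 1) (v 2) (v 3) := by
  rw [D7, Matrix.det_succ_row_zero, Fin.sum_univ_seven]
  simp only [Matrix.of_apply, Matrix.cons_val_zero, stdE_apply]
  simp (decide := true) only [if_true, if_false, mul_zero, zero_mul, add_zero, zero_add, mul_one]
  rw [Matrix.det_succ_row_zero, Fin.sum_univ_six]
  simp only [Matrix.of_apply, Matrix.submatrix_apply, Matrix.cons_val_zero, Matrix.cons_val_succ,
    stdE_apply]
  simp (decide := true) only [if_true, if_false, mul_zero, zero_mul, add_zero, zero_add, mul_one]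
  rw [Matrix.det_succ_row_zero, Fin.sum_univ_five]
  simp only [Matrix.of_apply, Matrix.submatrix_apply, Matrix.cons_val_zero, Matrix.cons_val_succ,
    stdE_apply]
  simp (decide := true) only [if_true, if_false, mul_zero, zero_mul, add_zero, zero_add, mul_one]
  rw [Matrix.det_succ_row_zero, Fin.sum_univ_four]
  simp only [Matrix.det_fin_three]
  simp only [Matrix.of_apply, Matrix.submatrix_apply, Matrix.cons_val_zero, Matrix.cons_val_succ]
  simp [Fin.succAbove, m4]
  ring

/-- `*φ = e^{3456} + e^{1256} + e^{1234} - e^{2467} + e^{2357} + e^{1457} + e^{1367}`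
(indices shifted by one). -/
theorem hodge3_phi_eq (v : Fin 4 → RV 7) : hodge3 phi v = m4 2 3 4 5 (v 0) (v 1) (v 2) (v 3) + m4 0 1 4 5 (v 0) (v 1) (v 2) (v 3) + m4 0 1 2 3 (v 0) (v 1) (v 2) (v 3) - m4 1 3 5 6 (v 0) (v 1) (v 2) (v 3) + m4 1 2 4 6 (v 0) (v 1) (v 2) (v 3) + m4 0 3 4 6 (v 0) (v 1) (v 2) (v 3) + m4 0 2 5 6 (v 0) (v 1) (v 2) (v 3) := by
  rw [hodge3_phi, D7_016, D7_236, D7_456, D7_024, D7_035, D7_125, D7_134]
  ring

end Pool.Agent.H.MP_64d93e_gt
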