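import Pool.Agent.H.MP_64d93e_gt.Filt

open Module Submodule

namespace Pool.Agent.H.MP_64d93e_gt

variable {n : ℕ}

/-- Complex Euclidean space. -/
abbrev EC (n : ℕ) := EuclideanSpace ℂ (Fin n)

theorem exists_onb (b : Basis (Fin n) ℂ (EC n)) :
    ∃ u : OrthonormalBasis (Fin n) ℂ (EC n), ∀ i, u i ∈ span ℂ (b '' Set.Iic i) := by
  have hfr : finrank ℂ (EC n) = Fintype.card (Fin n) := by simp
  refine ⟨InnerProductSpace.gramSchmidtOrthonormalBasis hfr b, fun i => ?_⟩
  have hne : InnerProductSpace.gramSchmidtNormed ℂ b i ≠ 0 := by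
    have := InnerProductSpace.gramSchmidtNormed_unit_length (𝕜 := ℂ) i b.linearIndependent
    intro h
    rw [h] at this
    simp at this
  rw [InnerProductSpace.gramSchmidtOrthonormalBasis_apply hfr hne]
  rw [InnerProductSpace.gramSchmidtNormed]
  exact Submodule.smul_mem _ _ (InnerProductSpace.gramSchmidt_mem_span ℂ b le_rfl)

/-- The cost of a weight vector. -/
def cost (w : Fin n → ℝ) : ℝ := ∑ i, (1 - w i) ^ 2

theorem continuous_bil (β : EC n →ₗ[ℂ] EC n →ₗ[ℂ] EC n) :
    Continuous (fun p : EC n × EC n => β p.1 p.2) := by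
  have h : (fun p : EC n × EC n => β p.1 p.2) = fun p => ∑ i, ∑ j,
      (p.1 i * p.2 j) • β (EuclideanSpace.basisFun (Fin n) ℂ i) (EuclideanSpace.basisFun (Fin n) ℂ j) := by
    funext p
    have h1 := (EuclideanSpace.basisFun (Fin n) ℂ).sum_repr p.1
    have h2 := (EuclideanSpace.basisFun (Fin n) ℂ).sum_repr p.2
    conv_lhs => rw [← h1, ← h2]
    simp only [map_sum, LinearMap.sum_apply, map_smul, LinearMap.smul_apply, Finset.smul_sum,
      smul_smul, EuclideanSpace.basisFun_repr]
    rw [Finset.sum_comm]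
    apply Finset.sum_congr rfl; intro i _
    apply Finset.sum_congr rfl; intro j _
    rw [mul_comm]
  rw [h]
  fun_prop

theorem cost_sort (w : Fin n → ℝ) (σ : Equiv.Perm (Fin n)) : cost (w ∘ σ) = cost w := by
  unfold cost
  exact Equiv.sum_comp σ (fun i => (1 - w i) ^ 2)

/-- Any compatible weighted basis can be replaced by an orthonormal one with antitone weights. -/
theorem Compat.exists_orthonormal {β : EC n →ₗ[ℂ] EC n →ₗ[ℂ] EC n} {b : Basis (Fin n) ℂ (EC n)}
    {w : Fin n → ℝ} (h : Compat β b w) :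
    ∃ (u : OrthonormalBasis (Fin n) ℂ (EC n)) (σ : Equiv.Perm (Fin n)), Antitone (w ∘ σ) ∧
      Compat β u.toBasis (w ∘ σ) ∧ ∀ t, Filt u.toBasis (w ∘ σ) t = Filt b w t := by
  obtain ⟨σ, hσ⟩ := exists_antitone w
  obtain ⟨u, hu⟩ := exists_onb (b.reindex σ.symm)
  have hF : ∀ t, Filt u.toBasis (w ∘ σ) t = Filt b w t := by
    intro t
    rw [← filt_reindex b w σ]
    apply filt_eq_of_flag hσ
    intro i
    simpa using hu i
  exact ⟨u, σ, hσ, h.of_filt_eq hF, hF⟩

theorem exists_min (β : EC n →ₗ[ℂ] EC n →ₗ[ℂ] EC n) {b₀ : Basis (Fin n) ℂ (EC n)}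
    {w₀ : Fin n → ℝ} (h₀ : Compat β b₀ w₀) :
    ∃ (u : OrthonormalBasis (Fin n) ℂ (EC n)) (w : Fin n → ℝ), Antitone w ∧
      Compat β u.toBasis w ∧ cost w ≤ cost w₀ ∧
      ∀ (b' : Basis (Fin n) ℂ (EC n)) (w' : Fin n → ℝ), Compat β b' w' → cost w ≤ cost w' := by
  classical
  let K : Set ((Fin n → EC n) × (Fin n → ℝ)) :=
    {p | Orthonormal ℂ p.1 ∧ Antitone p.2 ∧
      (∀ i j k, inner ℂ (p.1 k) (β (p.1 i) (p.1 j)) = 0 ∨ p.2 i + p.2 j ≤ p.2 k) ∧
      cost p.2 ≤ cost w₀}
  have hcostc : Continuous (fun p : (Fin n → EC n) × (Fin n → ℝ) => cost p.2) := by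
    unfold cost
    fun_prop
  have hK : IsCompact K := by
    apply Metric.isCompact_of_isClosed_isBounded
    · have e1 : IsClosed {p : (Fin n → EC n) × (Fin n → ℝ) | Orthonormal ℂ p.1} := by
        simp only [orthonormal_iff_ite, Set.ofPred_forall]
        refine isClosed_iInter fun i => isClosed_iInter fun j => ?_
        apply isClosed_eq
        · apply Continuous.inner <;> fun_prop
        · exact continuous_const
      have e2 : IsClosed {p : (Fin n → EC n) × (Fin n → ℝ) | Antitone p.2} := by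
        simp only [Antitone, Set.ofPred_forall]
        refine isClosed_iInter fun i => isClosed_iInter fun j => isClosed_iInter fun _ => ?_
        apply isClosed_le <;> fun_prop
      have e3 : IsClosed {p : (Fin n → EC n) × (Fin n → ℝ) | ∀ i j k,
          inner ℂ (p.1 k) (β (p.1 i) (p.1 j)) = 0 ∨ p.2 i + p.2 j ≤ p.2 k} := by
        simp only [Set.ofPred_forall]
        refine isClosed_iInter fun i => isClosed_iInter fun j => isClosed_iInter fun k => ?_
        rw [Set.ofPred_or]
        apply IsClosed.union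
        · apply isClosed_eq _ continuous_const
          apply Continuous.inner
          · fun_prop
          · exact (continuous_bil β).comp (by fun_prop : Continuous
              (fun p : (Fin n → EC n) × (Fin n → ℝ) => (p.1 i, p.1 j)))
        · apply isClosed_le <;> fun_prop
      have e4 : IsClosed {p : (Fin n → EC n) × (Fin n → ℝ) | cost p.2 ≤ cost w₀} :=
        isClosed_le hcostc continuous_const
      exact e1.inter (e2.inter (e3.inter e4))
    · rw [isBounded_iff_forall_norm_le]
      refine ⟨max 1 (1 + Real.sqrt (cost w₀)), ?_⟩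
      rintro ⟨u, w⟩ ⟨h1, _, _, h4⟩
      rw [Prod.norm_def, max_le_iff]
      simp only at h1 h4
      constructor
      · refine le_trans ?_ (le_max_left _ _)
        rw [pi_norm_le_iff_of_nonneg zero_le_one]
        intro i
        rw [h1.1 i]
      · refine le_trans ?_ (le_max_right _ _)
        rw [pi_norm_le_iff_of_nonneg (by positivity)]
        intro i
        have h5 : (1 - w i) ^ 2 ≤ cost w₀ := by
          refine le_trans ?_ h4
          exact Finset.single_le_sum (f := fun i => (1 - w i) ^ 2) (fun _ _ => sq_nonneg _) (Finset.mem_univ i)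
        have h6 : |1 - w i| ≤ Real.sqrt (cost w₀) := Real.abs_le_sqrt h5
        rw [Real.norm_eq_abs]
        have h7 : |w i| ≤ |1| + |1 - w i| := by
          have := abs_sub (1 : ℝ) (1 - w i)
          have e : (1 : ℝ) - (1 - w i) = w i := by ring
          rw [e] at this
          exact this
        rw [abs_one] at h7
        linarith
  have key : ∀ (b' : Basis (Fin n) ℂ (EC n)) (w' : Fin n → ℝ), Compat β b' w' →
      cost w' ≤ cost w₀ → ∃ p ∈ K, cost p.2 = cost w' := by
    intro b' w' hc hle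
    obtain ⟨u, σ, ha, hcu, _⟩ := hc.exists_orthonormal
    refine ⟨(u, w' ∘ σ), ⟨u.orthonormal, ha, ?_, ?_⟩, cost_sort _ _⟩
    · intro i j k
      by_cases h : inner ℂ (u k) (β (u i) (u j)) = 0
      · exact Or.inl h
      · right
        apply hcu i j k
        simpa [OrthonormalBasis.repr_apply_apply] using h
    · simp only [cost_sort]
      exact hle
  obtain ⟨p₀, hp₀, _⟩ := key b₀ w₀ h₀ le_rfl
  obtain ⟨⟨u, w⟩, hp, hmin⟩ := hK.exists_isMinOn ⟨p₀, hp₀⟩ hcostc.continuousOn
  obtain ⟨h1, h2, h3, h4⟩ := hp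
  simp only at h1 h2 h3 h4
  have hsp : ⊤ ≤ span ℂ (Set.range u) := by
    rw [top_le_iff]
    apply LinearIndependent.span_eq_top_of_card_eq_finrank'  h1.linearIndependent
    simp
  let ub : OrthonormalBasis (Fin n) ℂ (EC n) := OrthonormalBasis.mk h1 hsp
  have hub : ∀ i, ub i = u i := fun i => by simp [ub]
  refine ⟨ub, w, h2, ?_, h4, ?_⟩
  · intro i j k hne
    rcases h3 i j k with h | h
    · exfalso
      apply hne
      simpa [OrthonormalBasis.repr_apply_apply, hub] using h
    · exact h
  · intro b' w' hc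
    by_cases hle : cost w' ≤ cost w₀
    · obtain ⟨p, hpK, hpc⟩ := key b' w' hc hle
      rw [← hpc]
      exact hmin hpK
    · push Not at hle
      exact h4.trans hle.le

end Pool.Agent.H.MP_64d93e_gt
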