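import Mathlib

open Module Submodule

namespace Pool.Agent.H.MP_64d93e_gt

universe u v

/-- Lie's theorem in flag form. -/
theorem lie_flag {L : Type u} [LieRing L] [LieAlgebra ℂ L] [LieAlgebra.IsSolvable L] :
    ∀ (n : ℕ) {V : Type v} [AddCommGroup V] [Module ℂ V] [LieRingModule L V] [LieModule ℂ L V]
    [FiniteDimensional ℂ V], finrank ℂ V = n →
    ∃ b : Basis (Fin n) ℂ V, ∀ (x : L) i, ⁅x, b i⁆ ∈ span ℂ (b '' Set.Iic i) := by
  intro n
  induction n with
  | zero =>
    intro V _ _ _ _ _ h
    exact ⟨finBasisOfFinrankEq ℂ V h, fun x i => i.elim0⟩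
  | succ n ih =>
    intro V _ _ _ _ _ h
    have hnt : Nontrivial V := nontrivial_of_finrank_pos (R := ℂ) (by omega)
    obtain ⟨χ, hχ⟩ := LieModule.exists_nontrivial_weightSpace_of_isSolvable ℂ L V
    obtain ⟨⟨v, hv⟩, hv0⟩ := exists_ne (0 : LieModule.weightSpace V χ)
    have hv0' : v ≠ 0 := fun h => hv0 (Subtype.ext h)
    rw [LieModule.mem_weightSpace] at hv
    let N : LieSubmodule ℂ L V :=
      { toSubmodule := span ℂ {v}
        lie_mem := by
          intro x m hm
          obtain ⟨a, rfl⟩ := mem_span_singleton.1 hm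
          rw [lie_smul, hv]
          exact Submodule.smul_mem _ _ (Submodule.smul_mem _ _ (mem_span_singleton_self v)) }
    have hN : N.toSubmodule = span ℂ {v} := rfl
    have hq : finrank ℂ (V ⧸ N) = n := by
      have h1 := N.toSubmodule.finrank_quotient_add_finrank
      rw [hN, finrank_span_singleton hv0', h] at h1
      have h2 : finrank ℂ (V ⧸ N) = finrank ℂ (V ⧸ N.toSubmodule) := rfl
      rw [h2, hN]
      omega
    have hfd : FiniteDimensional ℂ (V ⧸ N) :=
      inferInstanceAs (FiniteDimensional ℂ (V ⧸ N.toSubmodule))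
    obtain ⟨bq, hbq⟩ := ih hq
    have hlift : ∀ i, ∃ x : V, N.toSubmodule.mkQ x = bq i := fun i => N.toSubmodule.mkQ_surjective (bq i)
    choose f hf using hlift
    have hfli : LinearIndependent ℂ f := by
      apply LinearIndependent.of_comp N.toSubmodule.mkQ
      have : (N.toSubmodule.mkQ ∘ f) = bq := funext hf
      rw [this]
      exact bq.linearIndependent
    have hli : LinearIndependent ℂ (Fin.cons v f : Fin (n + 1) → V) := by
      rw [linearIndependent_finCons]
      refine ⟨hfli, fun hmem => ?_⟩
      rw [Submodule.mem_span_range_iff_exists_fun] at hmem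
      obtain ⟨c, hc⟩ := hmem
      have h1 : ∑ i, c i • bq i = 0 := by
        have := congrArg N.toSubmodule.mkQ hc
        rw [map_sum] at this
        simp only [map_smul, hf] at this
        rw [this]
        have hvN : v ∈ N.toSubmodule := mem_span_singleton_self v
        exact (Submodule.Quotient.mk_eq_zero _).2 hvN
      have h2 := Fintype.linearIndependent_iff.1 bq.linearIndependent c h1
      apply hv0'
      rw [← hc]
      simp [h2]
    let b : Basis (Fin (n + 1)) ℂ V := basisOfLinearIndependentOfCardEqFinrank hli (by simp [h])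
    have hb0 : b 0 = v := by simp [b]
    have hbs : ∀ i : Fin n, b i.succ = f i := fun i => by simp [b]
    refine ⟨b, fun x i => ?_⟩
    refine Fin.cases ?_ (fun i => ?_) i
    · rw [hb0, hv, ← hb0]
      exact Submodule.smul_mem _ _ (subset_span ⟨0, by simp, rfl⟩)
    · rw [hbs]
      have h1 := hbq x i
      have h2 : N.toSubmodule.mkQ ⁅x, f i⁆ = ⁅x, bq i⁆ := by
        rw [← hf]
        rfl
      rw [← h2] at h1
      rw [← Submodule.mem_comap] at h1
      have h3 : span ℂ (bq '' Set.Iic i) = Submodule.map N.toSubmodule.mkQ (span ℂ (f '' Set.Iic i)) := by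
        rw [Submodule.map_span]
        congr 1
        ext y
        simp only [Set.mem_image, Set.mem_Iic]
        constructor
        · rintro ⟨k, hk, rfl⟩
          exact ⟨f k, ⟨k, hk, rfl⟩, hf k⟩
        · rintro ⟨_, ⟨k, hk, rfl⟩, rfl⟩
          exact ⟨k, hk, (hf k).symm⟩
      rw [h3, Submodule.comap_map_eq, Submodule.ker_mkQ] at h1
      refine (sup_le ?_ ?_ : _ ≤ span ℂ (b '' Set.Iic i.succ)) h1
      · rw [span_le]
        rintro _ ⟨k, hk, rfl⟩
        rw [← hbs]
        exact subset_span ⟨k.succ, by simpa using hk, rfl⟩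
      · rw [hN, span_le, Set.singleton_subset_iff, ← hb0]
        exact subset_span ⟨0, by simp, rfl⟩

end Pool.Agent.H.MP_64d93e_gt
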