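import Pool.Agent.H.MP_64d93e_gt.LieFlag
import Pool.Agent.H.MP_64d93e_gt.Kempf2

open Module Submodule

namespace Pool.Agent.H.MP_64d93e_gt

variable {n : ℕ}

attribute [local instance 100] LieRing.ofAssociativeRing
attribute [local instance] LieRingModule.ofAssociativeModule LieModule.ofAssociativeModule

theorem flag_of_solvable {β : EC n →ₗ[ℂ] EC n →ₗ[ℂ] EC n}
    (hJ : ∀ x y z, β x (β y z) = β (β x y) z + β y (β x z))
    (D : EC n →ₗ[ℂ] EC n) (hD : ∀ x y, D (β x y) = β (D x) y + β x (D y))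
    (S : ℕ → Submodule ℂ (EC n)) (hS0 : S 0 = ⊤) (hS : ∀ k, ∀ x ∈ S k, ∀ y ∈ S k, β x y ∈ S (k + 1))
    {K : ℕ} (hK : S K = ⊥) :
    ∃ b : Basis (Fin n) ℂ (EC n), (∀ x i, β x (b i) ∈ span ℂ (b '' Set.Iic i)) ∧
      (∀ i, D (b i) ∈ span ℂ (b '' Set.Iic i)) := by
  have hββ : ∀ x y, ⁅(β x : Module.End ℂ (EC n)), (β y : Module.End ℂ (EC n))⁆ = β (β x y) := by
    intro x y
    ext1 z
    rw [LieRing.of_associative_ring_bracket]
    simp only [LinearMap.sub_apply, Module.End.mul_apply]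
    rw [hJ x y z]
    abel
  have hDβ : ∀ x, ⁅(D : Module.End ℂ (EC n)), (β x : Module.End ℂ (EC n))⁆ = β (D x) := by
    intro x
    ext1 z
    rw [LieRing.of_associative_ring_bracket]
    simp only [LinearMap.sub_apply, Module.End.mul_apply]
    rw [hD x z]
    abel
  have hbr : ∀ x y (z w : ℂ), ⁅(β x + z • D : Module.End ℂ (EC n)), (β y + w • D : Module.End ℂ (EC n))⁆ =
      β (β x y + z • D y - w • D x) := by
    intro x y z w
    rw [add_lie, lie_add, lie_add, hββ, smul_lie, lie_smul, smul_lie, lie_smul, lie_self, hDβ,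
      ← lie_skew (β x) D, hDβ]
    simp only [map_sub, map_add, map_smul, smul_neg, smul_zero]
    abel
  let g : LieSubalgebra ℂ (Module.End ℂ (EC n)) :=
    { carrier := {T | ∃ (x : EC n) (z : ℂ), T = β x + z • D}
      add_mem' := by
        rintro _ _ ⟨x, z, rfl⟩ ⟨y, w, rfl⟩
        exact ⟨x + y, z + w, by rw [map_add, add_smul]; abel⟩
      zero_mem' := ⟨0, 0, by simp⟩
      smul_mem' := by
        rintro c _ ⟨x, z, rfl⟩
        exact ⟨c • x, c * z, by rw [map_smul, smul_add, smul_smul]⟩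
      lie_mem' := by
        rintro _ _ ⟨x, z, rfl⟩ ⟨y, w, rfl⟩
        refine ⟨β x y + z • D y - w • D x, 0, ?_⟩
        rw [hbr]
        simp }
  have memg : ∀ T, T ∈ g ↔ ∃ (x : EC n) (z : ℂ), T = β x + z • D := fun T => Iff.rfl
  have hsolv : LieAlgebra.IsSolvable g := by
    rw [LieAlgebra.isSolvable_iff ℂ g]
    refine ⟨K + 1, ?_⟩
    have key : ∀ k, ∀ T ∈ LieAlgebra.derivedSeries ℂ g (k + 1), ∃ x ∈ S k, (T : Module.End ℂ (EC n)) = β x := by
      intro k
      induction k with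
      | zero =>
        intro T hT
        rw [LieAlgebra.derivedSeries_def, LieAlgebra.derivedSeriesOfIdeal_succ] at hT
        have hT' := (LieSubmodule.mem_toSubmodule _).2 hT
        rw [LieSubmodule.lieIdeal_oper_eq_linear_span] at hT'
        refine span_induction (p := fun (T : g) _ => ∃ x ∈ S 0, (T : Module.End ℂ (EC n)) = β x) ?_ ?_ ?_ ?_ hT'
        · rintro _ ⟨⟨⟨A, hA⟩, _⟩, ⟨⟨B, hB⟩, _⟩, rfl⟩
          obtain ⟨x, z, rfl⟩ := (memg A).1 hA
          obtain ⟨y, w, rfl⟩ := (memg B).1 hB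
          refine ⟨β x y + z • D y - w • D x, by rw [hS0]; trivial, ?_⟩
          exact hbr x y z w
        · exact ⟨0, zero_mem _, by simp⟩
        · rintro A B _ _ ⟨x, hx, hxe⟩ ⟨y, hy, hye⟩
          exact ⟨x + y, add_mem hx hy, by rw [map_add, ← hxe, ← hye]; rfl⟩
        · rintro c A _ ⟨x, hx, hxe⟩
          exact ⟨c • x, Submodule.smul_mem _ _ hx, by rw [map_smul, ← hxe]; rfl⟩
      | succ k ih =>
        intro T hT
        rw [LieAlgebra.derivedSeries_def, LieAlgebra.derivedSeriesOfIdeal_succ] at hT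
        have hT' := (LieSubmodule.mem_toSubmodule _).2 hT
        rw [LieSubmodule.lieIdeal_oper_eq_linear_span] at hT'
        refine span_induction (p := fun (T : g) _ => ∃ x ∈ S (k + 1), (T : Module.End ℂ (EC n)) = β x) ?_ ?_ ?_ ?_ hT'
        · rintro _ ⟨⟨A, hA⟩, ⟨B, hB⟩, rfl⟩
          obtain ⟨x, hx, hxe⟩ := ih A hA
          obtain ⟨y, hy, hye⟩ := ih B hB
          refine ⟨β x y, hS k x hx y hy, ?_⟩
          rw [← hββ, ← hxe, ← hye]
          rfl
        · exact ⟨0, zero_mem _, by simp⟩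
        · rintro A B _ _ ⟨x, hx, hxe⟩ ⟨y, hy, hye⟩
          exact ⟨x + y, add_mem hx hy, by rw [map_add, ← hxe, ← hye]; rfl⟩
        · rintro c A _ ⟨x, hx, hxe⟩
          exact ⟨c • x, Submodule.smul_mem _ _ hx, by rw [map_smul, ← hxe]; rfl⟩
    rw [eq_bot_iff]
    intro T hT
    obtain ⟨x, hx, hxe⟩ := key K T hT
    rw [hK, mem_bot] at hx
    rw [hx, map_zero] at hxe
    rw [LieSubmodule.mem_bot]
    exact Subtype.ext hxe
  obtain ⟨b, hb⟩ := lie_flag (L := g) n (V := EC n) (by simp)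
  refine ⟨b, ?_, ?_⟩
  · intro x i
    exact hb ⟨β x, (memg _).2 ⟨x, 0, by simp⟩⟩ i
  · intro i
    exact hb ⟨D, (memg _).2 ⟨0, 1, by simp⟩⟩ i

end Pool.Agent.H.MP_64d93e_gt
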