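import Mathlib

/-!
Left-invariant metrics on solvable Lie groups, encoded by brackets on `ℝⁿ`,
and left-invariant closed `G₂`-structures on `ℝ⁷`. All vectors are coordinate vectors.
-/

namespace Pool.Agent.H.MP_64d93e_gt.P

variable {n : ℕ}

/-- The standard inner product of `ℝⁿ`. -/
def dot (x y : Fin n → ℝ) : ℝ := ∑ i, x i * y i

/-- The `i`-th vector of the standard basis of `ℝⁿ`. -/
def e (i : Fin n) : Fin n → ℝ := fun j => if j = i then 1 else 0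

/-- `μ` is a bilinear map `ℝⁿ × ℝⁿ → ℝⁿ`. -/
def IsBilin (μ : (Fin n → ℝ) → (Fin n → ℝ) → Fin n → ℝ) : Prop :=
  (∀ x y z, μ (x + y) z = μ x z + μ y z) ∧ (∀ (r : ℝ) (x y : Fin n → ℝ), μ (r • x) y = r • μ x y) ∧
  (∀ x y z, μ x (y + z) = μ x y + μ x z) ∧ ∀ (r : ℝ) (x y : Fin n → ℝ), μ x (r • y) = r • μ x y

/-- `μ` is a Lie bracket: bilinear, alternating, and satisfying the Jacobi identity. -/
def IsLie (μ : (Fin n → ℝ) → (Fin n → ℝ) → Fin n → ℝ) : Prop :=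
  IsBilin μ ∧ (∀ x, μ x x = 0) ∧ ∀ x y z, μ x (μ y z) + μ y (μ z x) + μ z (μ x y) = 0

/-- The set of solvable Lie brackets on `ℝⁿ`: the derived series `W` reaches zero. -/
def Solv (n : ℕ) : Set ((Fin n → ℝ) → (Fin n → ℝ) → Fin n → ℝ) :=
  {μ | IsLie μ ∧ ∃ (W : ℕ → Submodule ℝ (Fin n → ℝ)) (k : ℕ), W 0 = ⊤ ∧
    (∀ i, W (i + 1) = Submodule.span ℝ {z | ∃ x ∈ W i, ∃ y ∈ W i, z = μ x y}) ∧ W k = ⊥}

/-- The action of `GLₙ(ℝ)` on brackets, `(h · μ)(x, y) = h μ(h⁻¹ x, h⁻¹ y)`. -/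
def act (h : (Fin n → ℝ) ≃ₗ[ℝ] (Fin n → ℝ)) (μ : (Fin n → ℝ) → (Fin n → ℝ) → Fin n → ℝ)
    (x y : Fin n → ℝ) : Fin n → ℝ := h (μ (h.symm x) (h.symm y))

/-- The `GLₙ(ℝ)`-orbit of a bracket. -/
def orbit (μ : (Fin n → ℝ) → (Fin n → ℝ) → Fin n → ℝ) :
    Set ((Fin n → ℝ) → (Fin n → ℝ) → Fin n → ℝ) :=
  {ν | ∃ h : (Fin n → ℝ) ≃ₗ[ℝ] (Fin n → ℝ), ν = act h μ}

/-- The Levi-Civita connection of the left-invariant metric given by the standard inner product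
on the Lie group with Lie algebra `(ℝⁿ, μ)`, by Koszul's formula. -/
noncomputable def nabla (μ : (Fin n → ℝ) → (Fin n → ℝ) → Fin n → ℝ) (x y : Fin n → ℝ) :
    Fin n → ℝ :=
  fun k => 1 / 2 * (dot (μ x y) (e k) - dot (μ y (e k)) x + dot (μ (e k) x) y)

/-- The Riemann curvature `R(x, y) z`. -/
noncomputable def riem (μ : (Fin n → ℝ) → (Fin n → ℝ) → Fin n → ℝ) (x y z : Fin n → ℝ) :
    Fin n → ℝ :=
  nabla μ x (nabla μ y z) - nabla μ y (nabla μ x z) - nabla μ (μ x y) z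

/-- The Ricci curvature as a bilinear form, `ric(y, z) = tr (x ↦ R(x, y) z)`. -/
noncomputable def ric (μ : (Fin n → ℝ) → (Fin n → ℝ) → Fin n → ℝ) (y z : Fin n → ℝ) : ℝ :=
  ∑ k, dot (riem μ (e k) y z) (e k)

/-- The Ricci operator. -/
noncomputable def ricOp (μ : (Fin n → ℝ) → (Fin n → ℝ) → Fin n → ℝ) (y : Fin n → ℝ) :
    Fin n → ℝ := fun k => ric μ y (e k)

/-- The scalar curvature. -/
noncomputable def scal (μ : (Fin n → ℝ) → (Fin n → ℝ) → Fin n → ℝ) : ℝ :=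
  ∑ k, ric μ (e k) (e k)

/-- The squared norm of the Ricci operator. -/
noncomputable def ricSq (μ : (Fin n → ℝ) → (Fin n → ℝ) → Fin n → ℝ) : ℝ :=
  ∑ j, ∑ k, ric μ (e j) (e k) ^ 2

/-- The Ricci pinching functional `F = scal² / |Ric|²`. -/
noncomputable def pinch (μ : (Fin n → ℝ) → (Fin n → ℝ) → Fin n → ℝ) : ℝ :=
  scal μ ^ 2 / ricSq μ

/-- `μ` is a solvsoliton: a solvable Lie bracket with `Ric = c I + D`, `D` a derivation. -/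
def IsSolvsoliton (μ : (Fin n → ℝ) → (Fin n → ℝ) → Fin n → ℝ) : Prop :=
  μ ∈ Solv n ∧ ∃ (c : ℝ) (D : (Fin n → ℝ) →ₗ[ℝ] (Fin n → ℝ)),
    (∀ x y, D (μ x y) = μ (D x) y + μ x (D y)) ∧ ∀ x, ricOp μ x = c • x + D x

/-- The Chevalley-Eilenberg differential of `μ`,
`dω(v₀, …, v_{p+1}) = ∑_{i<j} (-1)^{i+j} ω(μ(v_i, v_j), …, omit v_i, …, omit v_j, …)`. -/
noncomputable def ceD {p : ℕ} (μ : (Fin n → ℝ) → (Fin n → ℝ) → Fin n → ℝ)
    (ω : (Fin (p + 1) → Fin n → ℝ) → ℝ) (v : Fin (p + 2) → Fin n → ℝ) : ℝ :=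
  ∑ j : Fin (p + 2), ∑ i : Fin (p + 1), if i.castSucc < j then
    (-1) ^ ((i : ℕ) + (j : ℕ)) *
      ω (Fin.cons (μ (v i.castSucc) (v j)) (fun k : Fin p => v (j.succAbove (i.succAbove k))))
    else 0

/-- The form `e^{ijk}` on `ℝ⁷`. -/
def e3 (i j k : Fin 7) (v : Fin 3 → Fin 7 → ℝ) : ℝ :=
  Matrix.det (Matrix.of fun a b : Fin 3 => v a (![i, j, k] b))

/-- The positive 3-form
`φ = e^{127} + e^{347} + e^{567} + e^{135} - e^{146} - e^{236} - e^{245}` (indices shifted by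
one). -/
def phi (v : Fin 3 → Fin 7 → ℝ) : ℝ :=
  e3 0 1 6 v + e3 2 3 6 v + e3 4 5 6 v + e3 0 2 4 v - e3 0 3 5 v - e3 1 2 5 v - e3 1 3 4 v

/-- The Hodge star of a 3-form on `ℝ⁷` for the standard inner product and orientation. -/
noncomputable def hodge3 (ω : (Fin 3 → Fin 7 → ℝ) → ℝ) (v : Fin 4 → Fin 7 → ℝ) : ℝ :=
  1 / 6 * ∑ i : Fin 7, ∑ j : Fin 7, ∑ k : Fin 7, ω ![e i, e j, e k] *
    Matrix.det (Matrix.of ![e i, e j, e k, v 0, v 1, v 2, v 3])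

/-- Solvable brackets for which `φ` is closed. -/
def Sclosed : Set ((Fin 7 → ℝ) → (Fin 7 → ℝ) → Fin 7 → ℝ) :=
  {μ | μ ∈ Solv 7 ∧ ∀ v : Fin 4 → Fin 7 → ℝ, ceD μ phi v = 0}

/-- Solvable brackets for which `φ` is torsion-free, that is closed and coclosed. -/
def Stf : Set ((Fin 7 → ℝ) → (Fin 7 → ℝ) → Fin 7 → ℝ) :=
  {μ | μ ∈ Sclosed ∧ ∀ v : Fin 5 → Fin 7 → ℝ, ceD μ (hodge3 phi) v = 0}

/-- `N_μ`, the supremum of the Ricci pinching functional over the closed non-torsion-free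
`G₂`-structures on `S_μ`. -/
noncomputable def pinchSup (μ : (Fin 7 → ℝ) → (Fin 7 → ℝ) → Fin 7 → ℝ) : ℝ :=
  sSup (pinch '' ((orbit μ ∩ Sclosed) \ Stf))

end Pool.Agent.H.MP_64d93e_gt.P
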