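import Pool.Agent.H.MP_64d93e_gt.HS

open Module

namespace Pool.Agent.H.MP_64d93e_gt

variable {n : ℕ}

/-- Hermitian extension of the moment map -/
noncomputable def MC (μ : Br n) (u : EC n) : ℝ :=
  -(1 / 2) * ∑ i, ‖brC μ u (cB n i)‖ ^ 2 +
    1 / 4 * ∑ i, ∑ j, ‖inner ℂ u (brC μ (cB n i) (cB n j))‖ ^ 2

theorem brC_decomp_left (μ : Br n) (u : EC n) (y : RV n) :
    brC μ u (toC y) = toC (μ (reV u) y) + Complex.I • toC (μ (imV u) y) := by
  conv_lhs => rw [← decomp u]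
  rw [map_add, map_smul, LinearMap.add_apply, LinearMap.smul_apply, brC_toC_toC, brC_toC_toC]

theorem norm_inner_decomp (u : EC n) (c : RV n) :
    ‖inner ℂ u (toC c)‖ ^ 2 = inner ℝ (reV u) c ^ 2 + inner ℝ (imV u) c ^ 2 := by
  conv_lhs => rw [← decomp u]
  rw [inner_add_left, inner_smul_left, inner_toC, inner_toC, Complex.conj_I, ← Complex.normSq_eq_norm_sq,
    Complex.normSq_apply]
  simp
  ring

theorem MC_eq (μ : Br n) (u : EC n) :
    MC μ u = Mf μ (reV u) (reV u) + Mf μ (imV u) (imV u) := by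
  have e1 : ∀ i, ‖brC μ u (cB n i)‖ ^ 2 =
      inner ℝ (μ (reV u) (stdE i)) (μ (reV u) (stdE i)) + inner ℝ (μ (imV u) (stdE i)) (μ (imV u) (stdE i)) := by
    intro i
    rw [cB_apply, ← toC_stdE, brC_decomp_left, norm_sq_decomp, real_inner_self_eq_norm_sq,
      real_inner_self_eq_norm_sq]
  have e2 : ∀ i j, ‖inner ℂ u (brC μ (cB n i) (cB n j))‖ ^ 2 =
      inner ℝ (μ (stdE i) (stdE j)) (reV u) * inner ℝ (μ (stdE i) (stdE j)) (reV u) +
      inner ℝ (μ (stdE i) (stdE j)) (imV u) * inner ℝ (μ (stdE i) (stdE j)) (imV u) := by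
    intro i j
    rw [cB_apply, cB_apply, ← toC_stdE, ← toC_stdE, brC_toC_toC, norm_inner_decomp,
      real_inner_comm _ (reV u), real_inner_comm _ (imV u)]
    ring
  simp only [MC, Mf, e1, e2, Finset.sum_add_distrib]
  ring

theorem BC_eq (μ : Br n) (u : EC n) :
    (LinearMap.trace ℂ (EC n) (brC μ (cj u) ∘ₗ brC μ u)).re =
      Bf μ (reV u) (reV u) + Bf μ (imV u) (imV u) := by
  have e1 : brC μ u = linC (μ (reV u)) + Complex.I • linC (μ (imV u)) := by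
    conv_lhs => rw [← decomp u]
    rw [map_add, map_smul, brC_toC, brC_toC]
  have e2 : brC μ (cj u) = linC (μ (reV u)) - Complex.I • linC (μ (imV u)) := by
    rw [cj, map_sub, map_smul, brC_toC, brC_toC]
  rw [e1, e2]
  simp only [LinearMap.comp_add, LinearMap.sub_comp, LinearMap.comp_smul, LinearMap.smul_comp,
    ← linC_comp, map_add, map_sub, map_smul, trace_linC, smul_smul, smul_sub]
  simp [Bf]

theorem MC_unitary (μ : Br n) (x : EC n) (u : OrthonormalBasis (Fin n) ℂ (EC n)) :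
    MC μ x = -(1 / 2) * ∑ i, ∑ j, ‖inner ℂ (u j) (brC μ x (u i))‖ ^ 2 +
      1 / 4 * ∑ i, ∑ j, ‖inner ℂ x (brC μ (u i) (u j))‖ ^ 2 := by
  have f1 : ∑ i, ‖brC μ x (u i)‖ ^ 2 = ∑ i, ∑ j, ‖inner ℂ (u j) (brC μ x (u i))‖ ^ 2 :=
    Finset.sum_congr rfl fun i _ => (u.sum_sq_norm_inner_right _).symm
  have f2 : ∑ i, ∑ j, ‖inner ℂ x (brC μ (cB n i) (cB n j))‖ ^ 2 =
      ∑ i, ∑ j, ‖inner ℂ x (brC μ (u i) (u j))‖ ^ 2 := by
    have e1 : ∀ i, ∑ j, ‖inner ℂ x (brC μ (cB n i) (cB n j))‖ ^ 2 =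
        ∑ j, ‖inner ℂ x (brC μ (cB n i) (u j))‖ ^ 2 := by
      intro i
      exact functional_invariance ((innerₛₗ ℂ x) ∘ₗ brC μ (cB n i)) (cB n) u
    have e2 : ∀ j, ∑ i, ‖inner ℂ x (brC μ (cB n i) (u j))‖ ^ 2 =
        ∑ i, ‖inner ℂ x (brC μ (u i) (u j))‖ ^ 2 := by
      intro j
      exact functional_invariance ((innerₛₗ ℂ x) ∘ₗ (brC μ).flip (u j)) (cB n) u
    rw [Finset.sum_congr rfl fun i _ => e1 i, Finset.sum_comm, Finset.sum_congr rfl fun j _ => e2 j,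
      Finset.sum_comm]
  rw [MC, hs_invariance (brC μ x) (cB n) u, f1, f2]

theorem sum_MC {μ : Br n} (h : IsLie μ) (u : OrthonormalBasis (Fin n) ℂ (EC n)) (w : Fin n → ℝ) :
    ∑ k, w k * MC μ (u k) = 1 / 4 * ∑ i, ∑ j, ∑ k, (w k - w i - w j) *
      ‖inner ℂ (u k) (brC μ (u i) (u j))‖ ^ 2 := by
  have e1 : ∀ k, w k * MC μ (u k) =
      -(1 / 2) * (∑ i, ∑ j, w k * ‖inner ℂ (u j) (brC μ (u k) (u i))‖ ^ 2) +
      1 / 4 * (∑ i, ∑ j, w k * ‖inner ℂ (u k) (brC μ (u i) (u j))‖ ^ 2) := by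
    intro k
    rw [MC_unitary μ (u k) u]
    simp only [← Finset.mul_sum]
    ring
  simp only [e1, Finset.sum_add_distrib, ← Finset.mul_sum]
  have a1 : ∑ k, ∑ i, ∑ j, w k * ‖inner ℂ (u k) (brC μ (u i) (u j))‖ ^ 2 =
      ∑ i, ∑ j, ∑ k, w k * ‖inner ℂ (u k) (brC μ (u i) (u j))‖ ^ 2 := by
    rw [Finset.sum_comm]
    apply Finset.sum_congr rfl; intro i _
    rw [Finset.sum_comm]
  have a3 : ∑ i, ∑ j, ∑ k, w j * ‖inner ℂ (u k) (brC μ (u i) (u j))‖ ^ 2 =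
      ∑ i, ∑ j, ∑ k, w i * ‖inner ℂ (u k) (brC μ (u i) (u j))‖ ^ 2 := by
    rw [Finset.sum_comm]
    apply Finset.sum_congr rfl; intro i _
    apply Finset.sum_congr rfl; intro j _
    apply Finset.sum_congr rfl; intro k _
    rw [brC_anti h, inner_neg_right, norm_neg]
  have a2 : ∑ i, ∑ j, ∑ k, (w k - w i - w j) * ‖inner ℂ (u k) (brC μ (u i) (u j))‖ ^ 2 =
      ∑ i, ∑ j, ∑ k, w k * ‖inner ℂ (u k) (brC μ (u i) (u j))‖ ^ 2
      - ∑ i, ∑ j, ∑ k, w i * ‖inner ℂ (u k) (brC μ (u i) (u j))‖ ^ 2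
      - ∑ i, ∑ j, ∑ k, w j * ‖inner ℂ (u k) (brC μ (u i) (u j))‖ ^ 2 := by
    simp only [sub_mul, Finset.sum_sub_distrib]
  rw [a2, a3, ← a1]
  simp only [← Finset.mul_sum]
  ring

theorem partA {μ : Br n} (h : IsLie μ) (u : OrthonormalBasis (Fin n) ℂ (EC n)) (w : Fin n → ℝ)
    (hw0 : ∀ i, 0 ≤ w i)
    (h1 : ∀ i j k, inner ℂ (u k) (brC μ (u i) (u j)) ≠ 0 → w i + w j ≤ w k)
    (h2 : ∀ x j k, inner ℂ (u k) (brC μ x (u j)) ≠ 0 → w j ≤ w k) :
    0 ≤ ∑ k, w k * (Rs μ (reV (u k)) (reV (u k)) + Rs μ (imV (u k)) (imV (u k))) := by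
  have e1 : ∀ k, w k * (Rs μ (reV (u k)) (reV (u k)) + Rs μ (imV (u k)) (imV (u k))) =
      w k * MC μ (u k) - 1 / 2 * (w k *
        (LinearMap.trace ℂ (EC n) (brC μ (cj (u k)) ∘ₗ brC μ (u k))).re) := by
    intro k
    rw [MC_eq, BC_eq, Rs, Rs]
    ring
  have e2 : ∀ k, w k * (LinearMap.trace ℂ (EC n) (brC μ (cj (u k)) ∘ₗ brC μ (u k))).re = 0 := by
    intro k
    rcases (hw0 k).eq_or_lt with hk | hk
    · rw [← hk, zero_mul]
    · have : LinearMap.trace ℂ (EC n) (brC μ (cj (u k)) ∘ₗ brC μ (u k)) = 0 := by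
        rw [LinearMap.trace_eq_sum_inner _ u]
        apply Finset.sum_eq_zero; intro j _
        rw [LinearMap.comp_apply]
        have e : brC μ (u k) (u j) = ∑ l, inner ℂ (u l) (brC μ (u k) (u j)) • u l := (u.sum_repr' _).symm
        rw [e, map_sum, inner_sum]
        apply Finset.sum_eq_zero; intro l _
        rw [map_smul, inner_smul_right]
        by_contra hne
        have hn1 : inner ℂ (u l) (brC μ (u k) (u j)) ≠ 0 := left_ne_zero_of_mul hne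
        have hn2 : inner ℂ (u j) (brC μ (cj (u k)) (u l)) ≠ 0 := right_ne_zero_of_mul hne
        have g1 := h1 k j l hn1
        have g2 := h2 _ l j hn2
        linarith
      rw [this]; simp
  simp only [e1, e2, mul_zero, sub_zero]
  rw [sum_MC h u w]
  apply mul_nonneg (by norm_num)
  apply Finset.sum_nonneg; intro i _
  apply Finset.sum_nonneg; intro j _
  apply Finset.sum_nonneg; intro k _
  by_cases hz : inner ℂ (u k) (brC μ (u i) (u j)) = 0
  · rw [hz]; simp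
  · have := h1 i j k hz
    apply mul_nonneg (by linarith) (by positivity)

/-- The first main inequality. -/
theorem ineqA {μ : Br n} (h : IsLie μ) {b₀ : Basis (Fin n) ℂ (EC n)} {w₀ : Fin n → ℝ}
    (h₀ : Compat (brC μ) b₀ w₀) :
    - ∑ i, Rs μ (stdE i) (stdE i) ≤
      Real.sqrt (cost w₀) * Real.sqrt (∑ i, ∑ j, Rs μ (stdE i) (stdE j) ^ 2) := by
  obtain ⟨u, w, hw0, hcost, hk1, hk2⟩ := kempf (brC_anti h) (brC_jac h) h₀
  have hA := partA h u w hw0 hk1 hk2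
  set r : Fin n → ℝ := fun k => Rs μ (reV (u k)) (reV (u k)) + Rs μ (imV (u k)) (imV (u k)) with hr
  have htr : ∑ k, r k = ∑ i, Rs μ (stdE i) (stdE i) := by
    have e1 := trace_re (RsOp μ) u
    rw [trace_eq] at e1
    simp only [re_inner_Rs, inner_RsOp] at e1
    exact e1
  have hsq : ∑ k, r k ^ 2 ≤ ∑ i, ∑ j, Rs μ (stdE i) (stdE j) ^ 2 := by
    have e1 := hs1 (RsOp μ) u
    simp only [re_inner_Rs, inner_RsOp] at e1
    exact e1
  have hcs : (∑ k, (1 - w k) * (- r k)) ≤ Real.sqrt (cost w) * Real.sqrt (∑ k, r k ^ 2) := by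
    have e1 := Finset.sum_mul_sq_le_sq_mul_sq Finset.univ (fun k => 1 - w k) (fun k => - r k)
    have e2 : ∑ k, (- r k) ^ 2 = ∑ k, r k ^ 2 := Finset.sum_congr rfl fun k _ => by ring
    rw [e2] at e1
    have e3 : 0 ≤ cost w := Finset.sum_nonneg fun _ _ => sq_nonneg _
    rw [← Real.sqrt_mul e3]
    exact Real.le_sqrt_of_sq_le e1
  have hfin : - ∑ i, Rs μ (stdE i) (stdE i) ≤ ∑ k, (1 - w k) * (- r k) := by
    rw [← htr]
    have : ∑ k, (1 - w k) * (- r k) = - ∑ k, r k + ∑ k, w k * r k := by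
      rw [← Finset.sum_neg_distrib, ← Finset.sum_add_distrib]
      apply Finset.sum_congr rfl; intro k _; ring
    rw [this]
    linarith
  refine hfin.trans (hcs.trans ?_)
  exact mul_le_mul (Real.sqrt_le_sqrt hcost) (Real.sqrt_le_sqrt hsq) (Real.sqrt_nonneg _) (Real.sqrt_nonneg _)

end Pool.Agent.H.MP_64d93e_gt
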