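import Pool.Agent.H.MP_64d93e_gt.PartA
import Pool.Agent.H.MP_64d93e_gt.Cand
import Pool.Agent.H.MP_64d93e_gt.LieFlag2

open Module Submodule

namespace Pool.Agent.H.MP_64d93e_gt

variable {n : ℕ}

theorem span_Iic_eq {b c : Basis (Fin n) ℂ (EC n)} (h : ∀ i, c i ∈ span ℂ (b '' Set.Iic i)) (i : Fin n) :
    span ℂ (c '' Set.Iic i) = span ℂ (b '' Set.Iic i) := by
  have hw : Antitone (fun k : Fin n => -(k : ℝ)) := by
    intro a b hab
    have : (a : ℕ) ≤ b := hab
    simp only [neg_le_neg_iff, Nat.cast_le]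
    exact this
  have h1 := filt_eq_of_flag (w := fun k : Fin n => -(k : ℝ)) hw h (-(i : ℝ))
  have e : {k : Fin n | -(i : ℝ) ≤ -(k : ℝ)} = Set.Iic i := by
    ext k
    simp only [neg_le_neg_iff, Nat.cast_le, Set.mem_ofPred_eq, Set.mem_Iic]
    exact Iff.rfl
  rw [Filt, Filt, e] at h1
  exact h1

/-- orthonormal flag basis -/
theorem exists_onb_flag {μ : Br n} (hμ : μ ∈ SolvBr n) {D : RV n →ₗ[ℝ] RV n} (hD : IsDer μ D) :
    ∃ v : OrthonormalBasis (Fin n) ℂ (EC n),
      (∀ x i, brC μ x (v i) ∈ span ℂ (v.toBasis '' Set.Iic i)) ∧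
      (∀ i, linC D (v i) ∈ span ℂ (v.toBasis '' Set.Iic i)) := by
  obtain ⟨h, K, hK⟩ := hμ
  obtain ⟨b, hb1, hb2⟩ := flag_of_solvable (brC_jac h) (linC D) (linC_der hD) (dsC μ) (dsC_zero μ)
    (dsC_step μ) (dsC_bot hK)
  obtain ⟨v, hv⟩ := exists_onb b
  have hv' : ∀ i, v.toBasis i ∈ span ℂ (b '' Set.Iic i) := by
    intro i; simpa using hv i
  have key : ∀ (T : EC n →ₗ[ℂ] EC n), (∀ i, T (b i) ∈ span ℂ (b '' Set.Iic i)) →
      ∀ i, T (v i) ∈ span ℂ (v.toBasis '' Set.Iic i) := by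
    intro T hT i
    rw [span_Iic_eq hv']
    refine span_induction (p := fun x _ => T x ∈ span ℂ (b '' Set.Iic i)) ?_ (by simp) ?_ ?_ (hv i)
    · rintro _ ⟨j, hj, rfl⟩
      refine span_mono ?_ (hT j)
      rintro _ ⟨k, hk, rfl⟩
      exact ⟨k, (le_trans hk hj : k ≤ i), rfl⟩
    · intro x y _ _ hx hy
      rw [map_add]; exact add_mem hx hy
    · intro c x _ hx
      rw [map_smul]; exact Submodule.smul_mem _ _ hx
  exact ⟨v, fun x i => key (brC μ x) (fun i => hb1 x i) i, key (linC D) hb2⟩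

section Tri

variable {v : OrthonormalBasis (Fin n) ℂ (EC n)}

theorem tri_mul {S T : EC n →ₗ[ℂ] EC n}
    (hS : ∀ i, S (v i) ∈ span ℂ (v.toBasis '' Set.Iic i))
    (hT : ∀ i, T (v i) ∈ span ℂ (v.toBasis '' Set.Iic i)) (i : Fin n) :
    inner ℂ (v i) (S (T (v i))) = inner ℂ (v i) (S (v i)) * inner ℂ (v i) (T (v i)) := by
  have hT' : ∀ i, T (v.toBasis i) ∈ span ℂ (v.toBasis '' Set.Iic i) := by intro i; simpa using hT i
  have hS' : ∀ i, S (v.toBasis i) ∈ span ℂ (v.toBasis '' Set.Iic i) := by intro i; simpa using hS i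
  have h1 := sub_mem_of_flag (hT' i)
  have h2 := map_span_Iio hS' i h1
  have h3 := repr_of_mem_span_Iio h2
  rw [map_sub, map_smul] at h3
  simp only [map_sub, map_smul, Finsupp.coe_sub, Pi.sub_apply, Finsupp.coe_smul, Pi.smul_apply,
    smul_eq_mul, OrthonormalBasis.coe_toBasis, OrthonormalBasis.coe_toBasis_repr_apply,
    OrthonormalBasis.repr_apply_apply] at h3
  rw [sub_eq_zero] at h3
  rw [h3, mul_comm]

theorem tri_eigen {T : EC n →ₗ[ℂ] EC n}
    (hT : ∀ i, T (v i) ∈ span ℂ (v.toBasis '' Set.Iic i)) (i : Fin n) :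
    ∃ x : EC n, x ≠ 0 ∧ T x = (inner ℂ (v i) (T (v i))) • x := by
  set d := inner ℂ (v i) (T (v i)) with hd
  have hT' : ∀ i, T (v.toBasis i) ∈ span ℂ (v.toBasis '' Set.Iic i) := by intro i; simpa using hT i
  let W : Submodule ℂ (EC n) := span ℂ (v.toBasis '' Set.Iic i)
  let U : Submodule ℂ (EC n) := span ℂ (v.toBasis '' Set.Iio i)
  have hUW : U ≤ W := span_mono (Set.image_mono Set.Iio_subset_Iic_self)
  have hmap : ∀ x ∈ W, T x - d • x ∈ U := by
    intro x hx
    refine span_induction (p := fun x _ => T x - d • x ∈ U) ?_ (by simp) ?_ ?_ hx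
    · rintro _ ⟨j, hj, rfl⟩
      rcases eq_or_lt_of_le (Set.mem_Iic.1 hj) with rfl | hlt
      · have := sub_mem_of_flag (hT' j)
        simpa [OrthonormalBasis.repr_apply_apply, hd, U] using this
      · apply sub_mem
        · refine span_mono ?_ (hT' j)
          rintro _ ⟨k, hk, rfl⟩
          exact ⟨k, (lt_of_le_of_lt hk hlt : k < i), rfl⟩
        · exact Submodule.smul_mem _ _ (subset_span ⟨j, hlt, rfl⟩)
    · intro x y _ _ hx hy
      rw [map_add, smul_add]
      have := add_mem hx hy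
      convert this using 1
      abel
    · intro c x _ hx
      rw [map_smul, smul_comm d c x, ← smul_sub]
      exact Submodule.smul_mem _ _ hx
  let f : W →ₗ[ℂ] W :=
    { toFun := fun x => ⟨T x - d • (x : EC n), hUW (hmap x x.2)⟩
      map_add' := by
        intro x y
        apply Subtype.ext
        simp only [Submodule.coe_add, map_add, smul_add]
        abel
      map_smul' := by
        intro c x
        apply Subtype.ext
        simp only [Submodule.coe_smul, map_smul, RingHom.id_apply, smul_sub, smul_comm d c] }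
  have hvW : v.toBasis i ∈ W := subset_span ⟨i, by simp, rfl⟩
  have hnotsurj : ¬ Function.Surjective f := by
    intro hs
    obtain ⟨x, hx⟩ := hs ⟨v.toBasis i, hvW⟩
    have h1 : T x - d • (x : EC n) = v.toBasis i := congrArg Subtype.val hx
    have h2 := hmap x x.2
    rw [h1] at h2
    have h3 := repr_of_mem_span_Iio h2
    simp at h3
  have hnotinj : ¬ Function.Injective f := fun hi => hnotsurj (LinearMap.injective_iff_surjective.1 hi)
  rw [← LinearMap.ker_eq_bot, ← ne_eq, Submodule.ne_bot_iff] at hnotinj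
  obtain ⟨x, hx, hx0⟩ := hnotinj
  refine ⟨x, fun h => hx0 (Subtype.ext h), ?_⟩
  have h1 : T x - d • (x : EC n) = 0 := congrArg Subtype.val (LinearMap.mem_ker.1 hx)
  exact sub_eq_zero.1 h1

end Tri

/-- The all-ones vector. -/
noncomputable def oneV (n : ℕ) : RV n := ∑ i, stdE i

theorem oneV_apply (i : Fin n) : oneV n i = 1 := by
  simp [oneV, stdE, Finset.sum_apply, Pi.single_apply]

theorem inner_oneV (x : RV n) : inner ℝ (oneV n) x = ∑ i, x i := by
  rw [inner_eq_sum]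
  apply Finset.sum_congr rfl; intro i _
  rw [inner_stdE, inner_stdE, oneV_apply, one_mul]

theorem inner_eq_sum' (x y : RV n) : inner ℝ x y = ∑ i, x i * y i := by
  rw [inner_eq_sum]
  apply Finset.sum_congr rfl; intro i _
  rw [inner_stdE, inner_stdE]

/-- **Main metric inequality.** -/
theorem mainIneq {μ : Br n} (hμ : μ ∈ SolvBr n) {D : RV n →ₗ[ℝ] RV n} (hD : IsDer μ D)
    (hreal : ∀ (z : ℂ) (x : EC n), x ≠ 0 → linC D x = z • x → z.im = 0)
    (htr : ∀ x, LinearMap.trace ℝ (RV n) (D ∘ₗ μ x) = 0) (t : ℝ) :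
    - scal μ ≤ Real.sqrt (n - 2 * t * LinearMap.trace ℝ (RV n) D +
      t ^ 2 * LinearMap.trace ℝ (RV n) (D ∘ₗ D)) * Real.sqrt (ricSq μ) := by
  have h : IsLie μ := hμ.1
  obtain ⟨v, hv1, hv2⟩ := exists_onb_flag hμ hD
  -- roots
  let ρ : RV n →ₗ[ℝ] RV n :=
    { toFun := fun x => ∑ i, (inner ℂ (v i) (brC μ (toC x) (v i))).re • stdE i
      map_add' := by
        intro x y
        simp only [toC_add, map_add, LinearMap.add_apply, inner_add_right, Complex.add_re, add_smul,
          Finset.sum_add_distrib]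
      map_smul' := by
        intro c x
        simp only [toC_smul, map_smul, LinearMap.smul_apply, inner_smul_right, Complex.re_ofReal_mul,
          RingHom.id_apply, Finset.smul_sum, smul_smul] }
  have hρ : ∀ x i, ρ x i = (inner ℂ (v i) (brC μ (toC x) (v i))).re := by
    intro x i
    simp only [ρ, LinearMap.coe_mk, AddHom.coe_mk]
    simp [stdE, Pi.single_apply]
  let A : Submodule ℝ (RV n) := LinearMap.range ρ
  obtain ⟨x₀, hx₀⟩ : ∃ x₀, ρ x₀ = A.starProjection (oneV n) := by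
    have : A.starProjection (oneV n) ∈ A := Submodule.starProjection_apply_mem _ _
    exact this
  set κ : RV n := ρ x₀ with hκ
  have horth : ∀ x, inner ℝ κ (ρ x) = inner ℝ (oneV n) (ρ x) := by
    intro x
    have h1 : inner ℝ (ρ x) (oneV n - A.starProjection (oneV n)) = 0 := by
      have := Submodule.sub_starProjection_mem_orthogonal (K := A) (oneV n)
      exact (Submodule.mem_orthogonal A _).1 this (ρ x) ⟨x, rfl⟩
    rw [inner_sub_right, ← hx₀, sub_eq_zero] at h1
    rw [real_inner_comm, ← h1, real_inner_comm]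
  have hsumρ : ∀ x, ∑ i, ρ x i = trAd μ x := by
    intro x
    simp only [hρ, brC_toC]
    exact trace_re (μ x) v
  -- inequality (B)
  have hB : inner ℝ (Hv μ) (Hv μ) ≤ Real.sqrt (∑ i, κ i ^ 2) *
      Real.sqrt (∑ i, ∑ j, Sh μ (stdE i) (stdE j) ^ 2) := by
    have e1 : inner ℝ (Hv μ) (Hv μ) = ∑ i, κ i * ρ (Hv μ) i := by
      rw [inner_Hv, ← hsumρ, ← inner_oneV, ← horth, inner_eq_sum']
    have e2 : ∑ i, ρ (Hv μ) i ^ 2 ≤ ∑ i, ∑ j, Sh μ (stdE i) (stdE j) ^ 2 := by
      have e3 := hs1 (ShOp μ) v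
      simp only [re_inner_Sh, inner_ShOp] at e3
      simp only [hρ]
      exact e3
    rw [e1]
    have e4 := Finset.sum_mul_sq_le_sq_mul_sq Finset.univ (fun i => κ i) (fun i => ρ (Hv μ) i)
    have e5 : ∑ i, κ i * ρ (Hv μ) i ≤ Real.sqrt (∑ i, κ i ^ 2) * Real.sqrt (∑ i, ρ (Hv μ) i ^ 2) := by
      rw [← Real.sqrt_mul (Finset.sum_nonneg fun _ _ => sq_nonneg _)]
      exact Real.le_sqrt_of_sq_le e4
    refine e5.trans ?_
    exact mul_le_mul_of_nonneg_left (Real.sqrt_le_sqrt e2) (Real.sqrt_nonneg _)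
  -- candidate
  let D' : RV n →ₗ[ℝ] RV n := t • D + μ x₀
  have hD' : IsDer μ D' := by
    intro x y
    simp only [D', LinearMap.add_apply, LinearMap.smul_apply, hD x y, h.jac x₀ x y, map_add, map_smul,
      smul_add]
    abel
  have hlinD' : linC D' = (t : ℂ) • linC D + brC μ (toC x₀) := by
    rw [brC_toC, ← linC_smul, ← linC_add]
  have hTflag : ∀ i, linC D' (v.toBasis i) ∈ span ℂ (v.toBasis '' Set.Iic i) := by
    intro i
    rw [hlinD']
    simp only [LinearMap.add_apply, LinearMap.smul_apply, OrthonormalBasis.coe_toBasis]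
    have a1 := hv2 i
    have a2 := hv1 (toC x₀) i
    simp only [OrthonormalBasis.coe_toBasis] at a1 a2
    exact add_mem (Submodule.smul_mem _ _ a1) a2
  obtain ⟨c, hc⟩ := exists_cand (β := brC μ) (T := linC D') (linC_der hD') hTflag
  have hdim : ∀ i, (inner ℂ (v i) (linC D (v i))).im = 0 := by
    intro i
    obtain ⟨x, hx0, hx⟩ := tri_eigen hv2 i
    exact hreal _ x hx0 hx
  set d : Fin n → ℝ := fun i => (inner ℂ (v i) (linC D (v i))).re with hd
  have hwt : ∀ i, (v.toBasis.repr (linC D' (v.toBasis i)) i).re = t * d i + κ i := by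
    intro i
    simp only [OrthonormalBasis.coe_toBasis, OrthonormalBasis.coe_toBasis_repr_apply,
      OrthonormalBasis.repr_apply_apply, hlinD', LinearMap.add_apply, LinearMap.smul_apply,
      inner_add_right, inner_smul_right, Complex.add_re, Complex.re_ofReal_mul, hκ, hρ, hd]
  have hA := ineqA h hc
  have hcost : cost (fun i => (v.toBasis.repr (linC D' (v.toBasis i)) i).re) =
      (n - 2 * t * LinearMap.trace ℝ (RV n) D + t ^ 2 * LinearMap.trace ℝ (RV n) (D ∘ₗ D))
        - ∑ i, κ i ^ 2 := by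
    have c1 : ∑ i, d i = LinearMap.trace ℝ (RV n) D := trace_re D v
    have c2 : ∑ i, d i ^ 2 = LinearMap.trace ℝ (RV n) (D ∘ₗ D) := by
      rw [← trace_re (D ∘ₗ D) v]
      apply Finset.sum_congr rfl; intro i _
      rw [linC_comp, LinearMap.comp_apply, tri_mul hv2 hv2, Complex.mul_re, hdim]
      simp only [hd]; ring
    have c3 : ∑ i, d i * κ i = 0 := by
      rw [← htr x₀, ← trace_re (D ∘ₗ μ x₀) v]
      apply Finset.sum_congr rfl; intro i _
      have a2 : ∀ i, linC (μ x₀) (v i) ∈ span ℂ (v.toBasis '' Set.Iic i) := by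
        intro i
        rw [← brC_toC]
        exact hv1 _ i
      rw [linC_comp, LinearMap.comp_apply, tri_mul hv2 a2, Complex.mul_re, hdim, zero_mul, sub_zero,
        ← brC_toC, ← hρ]
    have c4 : ∑ i, κ i = ∑ i, κ i ^ 2 := by
      rw [← inner_oneV, hκ, ← horth, ← hκ, inner_eq_sum']
      apply Finset.sum_congr rfl; intro i _; ring
    simp only [cost, hwt]
    have c5 : ∀ i, (1 - (t * d i + κ i)) ^ 2 = 1 - 2 * t * d i + t ^ 2 * d i ^ 2 - 2 * κ i + κ i ^ 2
        + 2 * t * (d i * κ i) := by intro i; ring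
    simp only [c5, Finset.sum_add_distrib, Finset.sum_sub_distrib, ← Finset.mul_sum, c1, c2, c3, c4]
    simp
    ring
  rw [scal_eq h, ricSq_eq h]
  have hκ0 : 0 ≤ ∑ i, κ i ^ 2 := Finset.sum_nonneg fun _ _ => sq_nonneg _
  have hcost0 : 0 ≤ cost (fun i => (v.toBasis.repr (linC D' (v.toBasis i)) i).re) :=
    Finset.sum_nonneg fun _ _ => sq_nonneg _
  set P := cost (fun i => (v.toBasis.repr (linC D' (v.toBasis i)) i).re) with hP
  set Q := ∑ i, κ i ^ 2 with hQ
  set R1 := ∑ i, ∑ j, Rs μ (stdE i) (stdE j) ^ 2 with hR1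
  set R2 := ∑ i, ∑ j, Sh μ (stdE i) (stdE j) ^ 2 with hR2
  have hR10 : 0 ≤ R1 := Finset.sum_nonneg fun _ _ => Finset.sum_nonneg fun _ _ => sq_nonneg _
  have hR20 : 0 ≤ R2 := Finset.sum_nonneg fun _ _ => Finset.sum_nonneg fun _ _ => sq_nonneg _
  have hPQ : (n - 2 * t * LinearMap.trace ℝ (RV n) D + t ^ 2 * LinearMap.trace ℝ (RV n) (D ∘ₗ D)) =
      P + Q := by rw [hcost]; ring
  rw [hPQ]
  have hfin : Real.sqrt P * Real.sqrt R1 + Real.sqrt Q * Real.sqrt R2 ≤
      Real.sqrt (P + Q) * Real.sqrt (R1 + R2) := by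
    have hPQ0 : 0 ≤ P + Q := by positivity
    rw [← Real.sqrt_mul hPQ0]
    apply Real.le_sqrt_of_sq_le
    have s1 := Real.sq_sqrt hcost0
    have s2 := Real.sq_sqrt hκ0
    have s3 := Real.sq_sqrt hR10
    have s4 := Real.sq_sqrt hR20
    have s5 : (Real.sqrt P * Real.sqrt R1 + Real.sqrt Q * Real.sqrt R2) ^ 2 =
        (Real.sqrt P ^ 2 + Real.sqrt Q ^ 2) * (Real.sqrt R1 ^ 2 + Real.sqrt R2 ^ 2) -
        (Real.sqrt P * Real.sqrt R2 - Real.sqrt Q * Real.sqrt R1) ^ 2 := by ring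
    rw [s5, s1, s2, s3, s4]
    have s6 := sq_nonneg (Real.sqrt P * Real.sqrt R2 - Real.sqrt Q * Real.sqrt R1)
    linarith
  linarith

end Pool.Agent.H.MP_64d93e_gt
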